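import Pool.Agent.helper15.P2.SpecA2
import Pool.Agent.helper75.P2.MAN_D

/-!
Row p2:AMA (MP_063734_an): the Manye trick for one function. (The steps of the row MAN of helper75, with `Ψ j` instead of `Psc`.)
-/

set_option autoImplicit false

open scoped ContDiff Topology
open MeasureTheory Filter Set Metric MvPolynomial Pool.Agent.helper37.QA

namespace Pool.Agent.P2A

open Pool.Agent.P2

/-- the constants and estimates -/
structure AMA_K {d : ℕ} (f : Endo 2 d) (U : Set (PP 2)) (r CD C1 : ℝ) : Prop where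
  hd : 2 ≤ d
  good : Good0 f U
  r0 : 0 < r
  cd : 0 < CD
  c1 : 1 ≤ C1
  dms1 : ∀ (N : ℕ) (Z : ℂ → E3) (A : M3), Dsc (f.map '' closure U) Z → Near r A →
    |mass f N (fun z => mv A (Z z)) - mass f N Z| ≤ CD
  dms4 : ∀ (N : ℕ) (Z : ℂ → E3), Dsc U Z → Dsc (f.map '' U) (fun z => It f 1 (Z z)) ∧
      mass f N (fun z => It f 1 (Z z)) = d * mass f (N + 1) Z ∧
      ∀ Ψ : E3 → ℝ, Jf f N Ψ (fun z => It f 1 (Z z)) = Jf f (N + 1) (fun Y => Ψ (It f 1 Y)) Z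
  rie : ∀ (N : ℕ) (Ψ : E3 → ℝ) (B : ℝ) (Z : ℂ → E3), Adm f U N Ψ B → 1 ≤ B → Dsc (f.map '' closure U) Z → C1 ≤ mass f N Z →
      (Jf f N Ψ Z ≤ (∫ A, rho (r / 8) A * Jf f N Ψ (fun z => mv A (Z z))) + C1 * B * (mass f N Z) ^ (-(1 / 2) : ℝ)) ∧
      (∀ b : ℝ, (∀ A, Near r A → Jf f N Ψ (fun z => mv A (Z z)) ≤ b) →
        ENNReal.ofReal (mass f N Z)⁻¹ * Occ (r / 64) (fun Y => ENNReal.ofReal (eh f N Ψ Y)) Z ≤
          ENNReal.ofReal (C1 * (b - Jf f N Ψ Z + B * (mass f N Z) ^ (-(1 / 2) : ℝ))))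
  rad : ∀ (A : M3) (Z : ℂ → E3), Near r A → Dsc (f.map '' closure U) Z → Dsc U (fun z => mv A (Z z))
  big : ∀ (n : ℕ) (M : ℝ), ∃ W : ℂ → E3, Dsc U W ∧ M ≤ mass f n W

/-- `b` bounds the averages over discs of mass at least `M` -/
def AMA_UB {d : ℕ} (f : Endo 2 d) (U : Set (PP 2)) (n : ℕ) (Φ : E3 → ℝ) (M b : ℝ) : Prop :=
  ∀ W : ℂ → E3, Dsc U W → M ≤ mass f n W → Jf f n Φ W ≤ b

section
variable {d : ℕ} {f : Endo 2 d} {U : Set (PP 2)} {r CD C1 : ℝ}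

theorem AMA_img (K : AMA_K f U r CD C1) : f.map '' U ⊆ U := by
  refine Subset.trans ?_ K.good.1.2.2
  exact image_mono subset_closure

theorem AMA_J_step (K : AMA_K f U r CD C1) (n : ℕ) {Φ Φ' : E3 → ℝ} {c0 : ℝ} (hΦ : ContinuousOn Φ (cone U))
    (hΦ' : ContinuousOn Φ' (cone U)) (h : ∀ Z ∈ cone U, Φ' Z ≤ Φ (It f 1 Z) + c0) {W : ℂ → E3} (hW : Dsc U W)
    (hm : 0 < mass f (n + 1) W) :
    Jf f (n + 1) Φ' W ≤ Jf f n Φ (fun z => It f 1 (W z)) + c0 := by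
  rw [(K.dms4 n W hW).2.2]
  exact MAN_J_mono K.good (n + 1) _ _ c0 hΦ'
    (hΦ.comp (MAN_It_cont f 1).continuousOn fun _ hZ => MAN_cone K.good.1 hZ 1) h W hW hm

theorem AMA_UB_step (K : AMA_K f U r CD C1) {n : ℕ} {Φ Φ' : E3 → ℝ} {c0 M b : ℝ} (hΦ : ContinuousOn Φ (cone U))
    (hΦ' : ContinuousOn Φ' (cone U)) (h0 : ∀ Z ∈ cone U, Φ' Z ≤ Φ (It f 1 Z) + c0) (hM : 1 ≤ M)
    (h : AMA_UB f U n Φ M b) : AMA_UB f U (n + 1) Φ' M (b + c0) := by
  intro W hW hm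
  have hpos : 0 < mass f (n + 1) W := by linarith
  have h1 := AMA_J_step K n hΦ hΦ' h0 hW hpos
  obtain ⟨h2, h3, -⟩ := K.dms4 n W hW
  have h4 : Dsc U (fun z => It f 1 (W z)) := MAN_dsc_mono (AMA_img K) h2
  have h5 : M ≤ mass f n (fun z => It f 1 (W z)) := by
    rw [h3]
    have h6 : (1 : ℝ) ≤ d := by exact_mod_cast (by have := K.hd; omega : 1 ≤ d)
    nlinarith
  have := h _ h4 h5
  linarith

theorem AMA_J_bd (K : AMA_K f U r CD C1) {N : ℕ} {Ψ : E3 → ℝ} {B : ℝ} (hA : Adm f U N Ψ B) {W : ℂ → E3} (hW : Dsc U W)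
    (hpos : 0 < mass f N W) : |Jf f N Ψ W| ≤ B := by
  rw [abs_le]
  constructor
  · have h1 := MAN_J_mono K.good N (fun _ => -B) Ψ 0 continuousOn_const hA.1.continuousOn
      (fun Z hZ => by rw [add_zero]; exact (abs_le.1 (hA.2.1 Z hZ)).1) W hW hpos
    rwa [MAN_J_const f N _ W hpos, add_zero] at h1
  · have h1 := MAN_J_mono K.good N Ψ (fun _ => B) 0 hA.1.continuousOn continuousOn_const
      (fun Z hZ => by rw [add_zero]; exact (abs_le.1 (hA.2.1 Z hZ)).2) W hW hpos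
    rwa [MAN_J_const f N _ W hpos, add_zero] at h1

theorem AMA_J_cont (K : AMA_K f U r CD C1) {N : ℕ} {Ψ : E3 → ℝ} {B : ℝ} (hA : Adm f U N Ψ B) {Z : ℂ → E3}
    (hZ : Dsc (f.map '' closure U) Z) (hm : CD < mass f N Z) :
    ContinuousOn (fun A : M3 => Jf f N Ψ (fun z => mv A (Z z))) {A | Near r A} := by
  have hS : ∀ A ∈ {A : M3 | Near r A}, ∀ z ∈ ball (0 : ℂ) 1, mv A (Z z) ∈ cone U := fun A hA z hz =>
    (K.rad A Z hA hZ).2 z hz
  have h1 := MAN_int_cont K.good N Ψ hA.1.continuousOn Z hZ.1 _ hS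
  have h2 := MAN_mass_cont K.good N Z hZ.1 _ hS
  refine h1.div h2 fun A hA => ?_
  have h3 := (abs_le.1 (K.dms1 N Z A hZ hA)).1
  linarith

theorem AMA_int (K : AMA_K f U r CD C1) {N : ℕ} {Ψ : E3 → ℝ} {B : ℝ} (hA : Adm f U N Ψ B) {Z : ℂ → E3}
    (hZ : Dsc (f.map '' closure U) Z) (hm : CD < mass f N Z) :
    Integrable (fun A : M3 => rho (r / 8) A * Jf f N Ψ (fun z => mv A (Z z))) := by
  have hr := K.r0
  have hr8 : 0 < r / 8 := by linarith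
  have hopen := MAN_near_open r
  have hsupp : Function.support (fun A : M3 => rho (r / 8) A * Jf f N Ψ (fun z => mv A (Z z))) ⊆ {A | Near r A} := by
    intro A hA
    have h1 : rho (r / 8) A ≠ 0 := fun h => hA (by change rho (r / 8) A * _ = 0; rw [h, zero_mul])
    exact MAN_near_mono (by linarith) (MAN_rho_supp hr8 h1)
  rw [← integrableOn_iff_integrable_of_support_subset hsupp]
  have hmeas : AEStronglyMeasurable (fun A : M3 => rho (r / 8) A * Jf f N Ψ (fun z => mv A (Z z)))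
      (volume.restrict {A | Near r A}) :=
    ((MAN_rho_cont (r / 8)).continuousOn.mul (AMA_J_cont K hA hZ hm)).aestronglyMeasurable hopen.measurableSet
  refine Integrable.mono' (((MAN_rho_integrable hr8).const_mul B).integrableOn) hmeas ?_
  refine (ae_restrict_iff' hopen.measurableSet).2 (Eventually.of_forall fun A hA' => ?_)
  have h3 := (abs_le.1 (K.dms1 N Z A hZ hA')).1
  have h4 := AMA_J_bd K hA (K.rad A Z hA' hZ) (by linarith)
  rw [Real.norm_eq_abs, abs_mul, abs_of_nonneg (MAN_rho_nonneg _ A), mul_comm]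
  exact mul_le_mul_of_nonneg_right h4 (MAN_rho_nonneg _ A)

theorem AMA_R0 (K : AMA_K f U r CD C1) {N : ℕ} {Ψ : E3 → ℝ} {B : ℝ} (hA : Adm f U N Ψ B) (hB : 1 ≤ B) {Z : ℂ → E3}
    (hZ : Dsc (f.map '' closure U) Z) (hm : CD < mass f N Z) (hm1 : C1 ≤ mass f N Z) {k β : ℝ} (hk : 0 ≤ k)
    (hβ : ∀ A, Near r A → Jf f N Ψ (fun z => mv A (Z z)) ≤ β) :
    ∫⁻ A, ENNReal.ofReal (rho (r / 8) A) * ENNReal.ofReal (k * (β - Jf f N Ψ (fun z => mv A (Z z)))) ≤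
      ENNReal.ofReal (k * (β - Jf f N Ψ Z + C1 * B * (mass f N Z) ^ (-(1 / 2) : ℝ))) := by
  have hr := K.r0
  have hr8 : 0 < r / 8 := by linarith
  have h1 : ∀ A : M3, ENNReal.ofReal (rho (r / 8) A) * ENNReal.ofReal (k * (β - Jf f N Ψ (fun z => mv A (Z z)))) =
      ENNReal.ofReal (k * β * rho (r / 8) A - k * (rho (r / 8) A * Jf f N Ψ (fun z => mv A (Z z)))) := by
    intro A
    rw [← ENNReal.ofReal_mul (MAN_rho_nonneg _ A)]
    congr 1
    ring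
  have h2 : 0 ≤ fun A : M3 => k * β * rho (r / 8) A - k * (rho (r / 8) A * Jf f N Ψ (fun z => mv A (Z z))) := by
    intro A
    change 0 ≤ k * β * rho (r / 8) A - k * (rho (r / 8) A * Jf f N Ψ (fun z => mv A (Z z)))
    by_cases h : rho (r / 8) A = 0
    · rw [h]
      simp
    · have h3 := hβ A (MAN_near_mono (by linarith) (MAN_rho_supp hr8 h))
      have h4 := MAN_rho_nonneg (r / 8) A
      have h5 : 0 ≤ k * (rho (r / 8) A * (β - Jf f N Ψ (fun z => mv A (Z z)))) :=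
        mul_nonneg hk (mul_nonneg h4 (by linarith))
      linarith
  have h3 : Integrable (fun A : M3 => k * β * rho (r / 8) A - k * (rho (r / 8) A * Jf f N Ψ (fun z => mv A (Z z)))) :=
    ((MAN_rho_integrable hr8).const_mul _).sub ((AMA_int K hA hZ hm).const_mul k)
  rw [lintegral_congr h1, ← ofReal_integral_eq_lintegral_ofReal h3 (Eventually.of_forall h2)]
  refine ENNReal.ofReal_le_ofReal ?_
  rw [integral_sub ((MAN_rho_integrable hr8).const_mul _) ((AMA_int K hA hZ hm).const_mul k), integral_const_mul,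
    integral_const_mul, MAN_rho_int hr8, mul_one]
  have h4 := (K.rie N Ψ B Z hA hB hZ hm1).1
  have h5 := mul_le_mul_of_nonneg_left h4 hk
  linarith

theorem AMA_occ_mono {r : ℝ} {h h' : E3 → ENNReal} (hh : ∀ Y, h Y ≤ h' Y) (Z : ℂ → E3) : Occ r h Z ≤ Occ r h' Z := by
  unfold Occ
  refine lintegral_mono fun A => lintegral_mono fun z => ?_
  exact mul_le_mul_right (hh _) _

theorem AMA_rec (K : AMA_K f U r CD C1) (n N0 : ℕ) {M0 Mb b B c0 : ℝ} (Ψ : ℕ → E3 → ℝ) (hB1 : 1 ≤ B) (hc0 : 0 ≤ c0)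
    (hAdm : ∀ j ≤ N0, Adm f U (n + j) (Ψ j) B)
    (hstep : ∀ j < N0, ∀ Z ∈ cone U, Ψ (j + 1) Z ≤ Ψ j (It f 1 Z) + c0) (hM0 : 1 ≤ M0)
    (hUB : AMA_UB f U n (Ψ 0) M0 b) (hMb1 : M0 + CD ≤ Mb) (hMb2 : C1 ≤ Mb) (hMb3 : 2 * CD < Mb)
    (hMb4 : C1 * B * Mb ^ (-(1 / 2) : ℝ) ≤ 1) :
    ∀ j ≤ N0, ∀ Z : ℂ → E3, Dsc (f.map '' closure U) Z → Mb ≤ mass f (n + j) Z →
      (stp f (r / 8))^[j] (Occ (r / 64) (MAN_h f U n (Ψ 0))) Z ≤
        ENNReal.ofReal (C1 * (2 * d) ^ j * mass f (n + j) Z * (b + (j + 1) * (c0 + 1) - Jf f (n + j) (Ψ j) Z)) := by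
  have hd1 : (1 : ℝ) ≤ d := by exact_mod_cast (by have := K.hd; omega : 1 ≤ d)
  have hd2 : (2 : ℝ) ≤ d := by exact_mod_cast K.hd
  have hcd := K.cd
  have hc1 := K.c1
  have hMbpos : 0 < Mb := by linarith
  -- the error terms
  have herr : ∀ m : ℝ, Mb ≤ m → C1 * B * m ^ (-(1 / 2) : ℝ) ≤ 1 := by
    intro m hm
    refine le_trans ?_ hMb4
    refine mul_le_mul_of_nonneg_left ?_ (by positivity)
    exact Real.rpow_le_rpow_of_nonpos hMbpos hm (by norm_num)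
  have hcont : ∀ j ≤ N0, ContinuousOn (Ψ j) (cone U) := fun j hj => (hAdm j hj).1.continuousOn
  -- upper bounds
  have hUBs : ∀ j : ℕ, j ≤ N0 → AMA_UB f U (n + j) (Ψ j) M0 (b + j * c0) := by
    intro j
    induction j with
    | zero =>
      intro _
      simpa using hUB
    | succ j ih =>
      intro hj
      have h1 := AMA_UB_step K (hcont j (by omega)) (hcont (j + 1) hj) (hstep j (by omega)) hM0 (ih (by omega))
      rw [Nat.cast_succ, show b + ((j : ℝ) + 1) * c0 = b + j * c0 + c0 by ring, ← add_assoc]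
      exact h1
  have hub : ∀ j : ℕ, j ≤ N0 → ∀ Z : ℂ → E3, Dsc (f.map '' closure U) Z → Mb ≤ mass f (n + j) Z → ∀ A, Near r A →
      Jf f (n + j) (Ψ j) (fun z => mv A (Z z)) ≤ b + j * c0 := by
    intro j hj Z hZ hm A hA
    refine hUBs j hj _ (K.rad A Z hA hZ) ?_
    have := (abs_le.1 (K.dms1 (n + j) Z A hZ hA)).1
    linarith
  intro j
  induction j with
  | zero =>
    intro _ Z hZ hm
    rw [Function.iterate_zero, id_eq]
    have hmpos : 0 < mass f n Z := by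
      have : Mb ≤ mass f n Z := hm
      linarith
    have h1 := (K.rie n (Ψ 0) B Z (hAdm 0 (Nat.zero_le _)) hB1 hZ (hMb2.trans hm)).2 b
      (fun A hA => by
        have := hub 0 (Nat.zero_le _) Z hZ hm A hA
        simpa using this)
    have h2 : Occ (r / 64) (MAN_h f U n (Ψ 0)) Z ≤ Occ (r / 64) (fun Y => ENNReal.ofReal (eh f n (Ψ 0) Y)) Z :=
      AMA_occ_mono (fun Y => MAN_h_le f U n _ Y) Z
    have h3 : Occ (r / 64) (fun Y => ENNReal.ofReal (eh f n (Ψ 0) Y)) Z = ENNReal.ofReal (mass f n Z) *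
        (ENNReal.ofReal (mass f n Z)⁻¹ * Occ (r / 64) (fun Y => ENNReal.ofReal (eh f n (Ψ 0) Y)) Z) := by
      rw [← mul_assoc, ← ENNReal.ofReal_mul hmpos.le, mul_inv_cancel₀ hmpos.ne', ENNReal.ofReal_one, one_mul]
    refine h2.trans ?_
    rw [h3]
    refine (mul_le_mul_right h1 _).trans ?_
    rw [← ENNReal.ofReal_mul hmpos.le]
    refine ENNReal.ofReal_le_ofReal ?_
    have h4 := herr (mass f n Z) hm
    have h5 : B * mass f n Z ^ (-(1 / 2) : ℝ) ≤ 1 := by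
      have h6 : 0 ≤ B * mass f n Z ^ (-(1 / 2) : ℝ) := mul_nonneg (by linarith) (Real.rpow_nonneg hmpos.le _)
      have h7 : B * mass f n Z ^ (-(1 / 2) : ℝ) ≤ C1 * (B * mass f n Z ^ (-(1 / 2) : ℝ)) := le_mul_of_one_le_left h6 hc1
      rw [← mul_assoc] at h7
      linarith
    have h8 : b - Jf f n (Ψ 0) Z + B * mass f n Z ^ (-(1 / 2) : ℝ) ≤
        b + ((0 : ℕ) + 1) * (c0 + 1) - Jf f (n + 0) (Ψ 0) Z := by
      rw [Nat.add_zero, Nat.cast_zero]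
      linarith
    have h9 : 0 ≤ mass f n Z * C1 := by positivity
    have h10 := mul_le_mul_of_nonneg_left h8 h9
    rw [pow_zero, mul_one, Nat.add_zero]
    rw [Nat.add_zero] at h10
    linarith
  | succ j ih =>
    intro hj Z hZ hm
    have hmpos : 0 < mass f (n + (j + 1)) Z := by linarith
    rw [Function.iterate_succ_apply']
    obtain ⟨G, hG⟩ : ∃ G, G = (stp f (r / 8))^[j] (Occ (r / 64) (MAN_h f U n (Ψ 0))) := ⟨_, rfl⟩
    have ih' := ih (by omega)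
    rw [← hG] at ih' ⊢
    obtain ⟨β, hβ⟩ : ∃ β : ℝ, β = b + (j + 1) * (c0 + 1) + c0 := ⟨_, rfl⟩
    obtain ⟨k, hk⟩ : ∃ k : ℝ, k = C1 * (2 * d) ^ (j + 1) * mass f (n + (j + 1)) Z := ⟨_, rfl⟩
    have hk0 : 0 ≤ k := by rw [hk]; positivity
    have hr := K.r0
    have hr8 : 0 < r / 8 := by linarith
    -- pointwise bound
    have hpt : ∀ A : M3, ENNReal.ofReal (rho (r / 8) A) * G (fun z => It f 1 (mv A (Z z))) ≤
        ENNReal.ofReal (rho (r / 8) A) * ENNReal.ofReal (k * (β - Jf f (n + (j + 1)) (Ψ (j + 1)) (fun z => mv A (Z z)))) := by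
      intro A
      by_cases hA0 : rho (r / 8) A = 0
      · rw [hA0, ENNReal.ofReal_zero, zero_mul, zero_mul]
      · have hA : Near r A := MAN_near_mono (by linarith) (MAN_rho_supp hr8 hA0)
        have hAZ : Dsc U (fun z => mv A (Z z)) := K.rad A Z hA hZ
        obtain ⟨e1, e2, -⟩ := K.dms4 (n + j) _ hAZ
        have e3 : Dsc (f.map '' closure U) (fun z => It f 1 (mv A (Z z))) :=
          MAN_dsc_mono (image_mono subset_closure) e1
        have e3' : Dsc U (fun z => It f 1 (mv A (Z z))) := MAN_dsc_mono (AMA_img K) e1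
        have e4 := abs_le.1 (K.dms1 (n + (j + 1)) Z A hZ hA)
        have h'' : mass f (n + j + 1) (fun z => mv A (Z z)) = mass f (n + (j + 1)) (fun z => mv A (Z z)) := rfl
        have e7 : 0 < mass f (n + j + 1) (fun z => mv A (Z z)) := by
          linarith [e4.1]
        have e5 : Mb ≤ mass f (n + j) (fun z => It f 1 (mv A (Z z))) := by
          rw [e2]
          have : 2 * mass f (n + j + 1) (fun z => mv A (Z z)) ≤ d * mass f (n + j + 1) (fun z => mv A (Z z)) :=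
            mul_le_mul_of_nonneg_right hd2 e7.le
          linarith [e4.1]
        have e6 : mass f (n + j) (fun z => It f 1 (mv A (Z z))) ≤ 2 * d * mass f (n + (j + 1)) Z := by
          rw [e2]
          have h' : mass f (n + j + 1) (fun z => mv A (Z z)) ≤ 2 * mass f (n + (j + 1)) Z := by
            linarith [e4.2]
          have := mul_le_mul_of_nonneg_left h' (by linarith : (0 : ℝ) ≤ d)
          linarith
        have e8 := AMA_J_step K (n + j) (hcont j (by omega)) (hcont (j + 1) hj) (hstep j (by omega)) hAZ e7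
        have e9 := hUBs j (by omega) _ e3' (by linarith)
        refine mul_le_mul_right ((ih' _ e3 e5).trans (ENNReal.ofReal_le_ofReal ?_)) _
        obtain ⟨X, hX⟩ : ∃ X, X = Jf f (n + j) (Ψ j) (fun z => It f 1 (mv A (Z z))) := ⟨_, rfl⟩
        obtain ⟨Y, hY⟩ : ∃ Y, Y = Jf f (n + (j + 1)) (Ψ (j + 1)) (fun z => mv A (Z z)) := ⟨_, rfl⟩
        rw [← hX] at e8 e9 ⊢
        have e8' : Y ≤ X + c0 := by rw [hY]; exact e8
        rw [← hY, hk, pow_succ]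
        have f0 : 0 ≤ b + (j + 1) * (c0 + 1) - X := by nlinarith
        have f1 : b + (j + 1) * (c0 + 1) - X ≤ β - Y := by rw [hβ]; linarith
        have f2 : mass f (n + j) (fun z => It f 1 (mv A (Z z))) * (b + (j + 1) * (c0 + 1) - X) ≤
            (2 * d * mass f (n + (j + 1)) Z) * (β - Y) :=
          mul_le_mul e6 f1 f0 (by positivity)
        have f3 : 0 ≤ C1 * (2 * (d : ℝ)) ^ j := by positivity
        have f4 := mul_le_mul_of_nonneg_left f2 f3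
        linarith
    have hub' : ∀ A, Near r A → Jf f (n + (j + 1)) (Ψ (j + 1)) (fun z => mv A (Z z)) ≤ β := by
      intro A hA
      have h1 := hub (j + 1) hj Z hZ hm A hA
      rw [hβ]
      push_cast at h1
      have h2 : (0 : ℝ) ≤ (j : ℝ) := Nat.cast_nonneg _
      linarith
    have hR0 := AMA_R0 K (hAdm (j + 1) hj) hB1 hZ (by linarith) (hMb2.trans hm) hk0 hub'
    change ∫⁻ A, ENNReal.ofReal (rho (r / 8) A) * G (fun z => It f 1 (mv A (Z z))) ≤ _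
    refine (lintegral_mono hpt).trans (hR0.trans (ENNReal.ofReal_le_ofReal ?_))
    have h4 := herr (mass f (n + (j + 1)) Z) hm
    have h5 : β - Jf f (n + (j + 1)) (Ψ (j + 1)) Z +
        C1 * B * mass f (n + (j + 1)) Z ^ (-(1 / 2) : ℝ) ≤
        b + (((j + 1 : ℕ) : ℝ) + 1) * (c0 + 1) - Jf f (n + (j + 1)) (Ψ (j + 1)) Z := by
      rw [hβ]
      push_cast
      linarith
    rw [← hk]
    exact mul_le_mul_of_nonneg_left h5 hk0

theorem AMA_adm_mono {N : ℕ} {Ψ : E3 → ℝ} {B B' : ℝ} (h : Adm f U N Ψ B) (hB : B ≤ B') : Adm f U N Ψ B' :=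
  ⟨h.1, fun Z hZ => (h.2.1 Z hZ).trans hB, h.2.2⟩

/-- the main estimate -/
theorem AMA_main (K : AMA_K f U r CD C1) {N N0 : ℕ} {c CQ B c0 c1 : ℝ} {𝒱 : Set (PP 2)} (h𝒱 : IsOpen 𝒱) (hc : 0 < c)
    (hQ : ∀ (n : ℕ) (Z : ℂ → E3) (h : E3 → ENNReal), Dsc (f.map '' U) Z → CQ ≤ mass f n Z → Measurable h →
        (∀ (Y : E3) (c : ℂ), c ≠ 0 → h (c • Y) = h Y) →
        ENNReal.ofReal (c * mass f n Z) * (∫⁻ Y in closedBall (0 : E3) 1 ∩ cone 𝒱, h Y) ≤ (stp f (r / 8))^[N0] (Occ (r / 64) h) Z)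
    (Ψ : ℕ → E3 → ℝ) (hB1 : 1 ≤ B) (hc0 : 0 ≤ c0) (hc1 : 0 ≤ c1)
    (hAdm : ∀ j ≤ N0 + 1, Adm f U (N + j) (Ψ j) B)
    (hstep : ∀ j ≤ N0, ∀ Z ∈ cone U, Ψ (j + 1) Z ≤ Ψ j (It f 1 Z) + c0)
    (hlast : ∀ M : ℝ, ∃ M' : ℝ, ∀ Z : ℂ → E3, Dsc U Z → M' ≤ mass f N Z → ∃ Z' : ℂ → E3, Dsc U Z' ∧
          M ≤ mass f (N + N0 + 1) Z' ∧ Jf f N (Ψ 0) Z ≤ Jf f (N + N0 + 1) (Ψ (N0 + 1)) Z' + c1) :
    ∫⁻ Y in closedBall (0 : E3) 1 ∩ cone (𝒱 ∩ U), ENNReal.ofReal (eh f N (Ψ 0) Y) ≤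
      ENNReal.ofReal (C1 * (2 * d) ^ N0 * (N0 + 3) / c * (1 + c0 + c1)) := by
  have hd2 : (2 : ℝ) ≤ d := by exact_mod_cast K.hd
  have hd0 : d ≠ 0 := by have := K.hd; omega
  have hC1 := K.c1
  have hCD := K.cd
  obtain ⟨N1, hN1⟩ : ∃ N1, N1 = N + N0 + 1 := ⟨_, rfl⟩
  obtain ⟨Φ, hΦ⟩ : ∃ Φ, Φ = Ψ (N0 + 1) := ⟨_, rfl⟩
  have hAΦ : Adm f U N1 Φ B := by
    rw [hΦ, hN1, add_assoc]
    exact hAdm (N0 + 1) le_rfl
  -- the asymptotic supremum
  obtain ⟨SS, hSS⟩ : ∃ SS : Set ℝ, SS = {b | ∃ M : ℝ, 1 ≤ M ∧ AMA_UB f U N1 Φ M b} := ⟨_, rfl⟩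
  have hmem : B ∈ SS := by
    rw [hSS]
    refine ⟨1, le_rfl, fun W hW hm => ?_⟩
    exact (abs_le.1 (AMA_J_bd K hAΦ hW (by linarith))).2
  have hlb : ∀ b ∈ SS, -B ≤ b := by
    intro b hb
    rw [hSS] at hb
    obtain ⟨M, hM, h⟩ := hb
    obtain ⟨W, hW, hm⟩ := K.big N1 M
    exact (abs_le.1 (AMA_J_bd K hAΦ hW (by linarith))).1.trans (h W hW hm)
  have hbdd : BddBelow SS := ⟨-B, fun b hb => hlb b hb⟩
  obtain ⟨S, hS⟩ : ∃ S : ℝ, S = sInf SS := ⟨_, rfl⟩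
  obtain ⟨M1, hM1, hUB1⟩ : ∃ M : ℝ, 1 ≤ M ∧ AMA_UB f U N1 Φ M (S + 1) := by
    obtain ⟨b, hb, hlt⟩ := exists_lt_of_csInf_lt ⟨_, hmem⟩ (by
      rw [← hS]
      exact lt_add_one _ : sInf SS < S + 1)
    rw [hSS] at hb
    obtain ⟨M, hM, h⟩ := hb
    exact ⟨M, hM, fun W hW hm => (h W hW hm).trans hlt.le⟩
  have hdisc : ∀ M : ℝ, 1 ≤ M → ∃ W : ℂ → E3, Dsc U W ∧ M ≤ mass f N1 W ∧ S - 1 < Jf f N1 Φ W := by
    intro M hM
    by_contra hcon
    push Not at hcon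
    have h1 : S - 1 ∈ SS := by
      rw [hSS]
      exact ⟨M, hM, hcon⟩
    have := csInf_le hbdd h1
    rw [← hS] at this
    linarith
  -- the bound at the level N
  obtain ⟨M', hM'⟩ := hlast M1
  obtain ⟨M0, hM0⟩ : ∃ M0 : ℝ, M0 = max M' 1 := ⟨_, rfl⟩
  have hM0a : M' ≤ M0 := by rw [hM0]; exact le_max_left _ _
  have hM0b : 1 ≤ M0 := by rw [hM0]; exact le_max_right _ _
  obtain ⟨b, hb⟩ : ∃ b : ℝ, b = S + 1 + c1 := ⟨_, rfl⟩
  have hUB : AMA_UB f U N (Ψ 0) M0 b := by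
    intro Z hZ hm
    obtain ⟨Z', hZ', hm', hJ⟩ := hM' Z hZ (hM0a.trans hm)
    rw [← hN1] at hm' hJ
    rw [← hΦ] at hJ
    have := hUB1 Z' hZ' hm'
    rw [hb]
    linarith
  -- the mass threshold
  have hB0 : 0 < B := by linarith
  obtain ⟨Mb, hMb⟩ : ∃ Mb : ℝ, Mb = (M0 + CD) + C1 + (2 * CD + 1) + (C1 * B) ^ 2 + |CQ| := ⟨_, rfl⟩
  have hsq : 0 < (C1 * B) ^ 2 := by positivity
  have hCQ0 : 0 ≤ |CQ| := abs_nonneg _
  have hMb0 : 0 < Mb := by rw [hMb]; linarith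
  have hMbC : CQ ≤ Mb := by
    have := le_abs_self CQ
    rw [hMb]
    linarith
  have hrec := AMA_rec K N N0 Ψ hB1 hc0 (fun j hj => hAdm j (by omega)) (fun j hj => hstep j hj.le) hM0b hUB
    (by rw [hMb]; linarith : M0 + CD ≤ Mb) (by rw [hMb]; linarith) (by rw [hMb]; linarith)
    (by
      have e2 : Mb ^ (-(1 / 2) : ℝ) ≤ (C1 * B)⁻¹ := by
        have e3 : ((C1 * B) ^ 2) ^ (-(1 / 2) : ℝ) = (C1 * B)⁻¹ := by
          have e5 : ((2 : ℕ) : ℝ) * (-(1 / 2)) = -1 := by norm_num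
          rw [← Real.rpow_natCast (C1 * B) 2, ← Real.rpow_mul (by positivity), e5, Real.rpow_neg_one]
        rw [← e3]
        exact Real.rpow_le_rpow_of_nonpos hsq (by rw [hMb]; linarith) (by norm_num)
      calc C1 * B * Mb ^ (-(1 / 2) : ℝ) ≤ C1 * B * (C1 * B)⁻¹ := mul_le_mul_of_nonneg_left e2 (by positivity)
        _ = 1 := mul_inv_cancel₀ (by positivity)) N0 le_rfl
  -- the starting disc
  obtain ⟨W, hW, hmW, hJW⟩ := hdisc Mb (by rw [hMb]; linarith)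
  rw [hN1] at hmW hJW
  rw [hΦ] at hJW
  obtain ⟨e1, e2, -⟩ := K.dms4 (N + N0) W hW
  have hpos : 0 < mass f (N + N0 + 1) W := by linarith
  have e3 : Mb ≤ mass f (N + N0) (fun z => It f 1 (W z)) := by
    rw [e2]
    nlinarith
  have e4 := AMA_J_step K (N + N0) (hAdm N0 (by omega)).1.continuousOn (hAdm (N0 + 1) le_rfl).1.continuousOn (hstep N0 le_rfl) hW hpos
  obtain ⟨Z, hZdef⟩ : ∃ Z : ℂ → E3, Z = fun z => It f 1 (W z) := ⟨_, rfl⟩
  rw [← hZdef] at e1 e2 e3 e4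
  have hmZ : 0 < mass f (N + N0) Z := by linarith
  have h1 := hrec Z (MAN_dsc_mono (image_mono subset_closure) e1) e3
  have h2 := hQ (N + N0) Z (MAN_h f U N (Ψ 0)) e1 (hMbC.trans e3)
    (MAN_h_meas K.good N (hAdm 0 (by omega)) hd0) (fun Y a ha => MAN_h_smul K.good N (hAdm 0 (by omega)) Y a ha)
  -- compare
  have h3 : ∫⁻ Y in closedBall (0 : E3) 1 ∩ cone (𝒱 ∩ U), ENNReal.ofReal (eh f N (Ψ 0) Y) ≤
      ∫⁻ Y in closedBall (0 : E3) 1 ∩ cone 𝒱, MAN_h f U N (Ψ 0) Y := by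
    have hms : MeasurableSet (closedBall (0 : E3) 1 ∩ cone (𝒱 ∩ U)) :=
      measurableSet_closedBall.inter (cone_open (h𝒱.inter K.good.1.1)).measurableSet
    have hsub : closedBall (0 : E3) 1 ∩ cone (𝒱 ∩ U) ⊆ closedBall (0 : E3) 1 ∩ cone 𝒱 := by
      rintro Y ⟨hY1, hY2, hY3⟩
      exact ⟨hY1, hY2, hY3.1⟩
    refine le_trans (le_of_eq ?_) (lintegral_mono_set hsub)
    refine setLIntegral_congr_fun hms fun Y hY => ?_
    obtain ⟨-, hY2, hY3⟩ := hY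
    have hYU : Y ∈ cone U := ⟨hY2, hY3.2⟩
    unfold MAN_h
    rw [indicator_of_mem hYU]
  refine h3.trans ?_
  obtain ⟨C', hC'⟩ : ∃ C' : ℝ, C' = C1 * (2 * d) ^ N0 * (N0 + 3) / c * (1 + c0 + c1) := ⟨_, rfl⟩
  rw [← hC']
  have hN00 : (0 : ℝ) ≤ N0 := Nat.cast_nonneg _
  have h4 : C1 * (2 * d) ^ N0 * mass f (N + N0) Z * (b + (N0 + 1) * (c0 + 1) -
      Jf f (N + N0) (Ψ N0) Z) ≤ c * mass f (N + N0) Z * C' := by
    have g1 : b + (N0 + 1) * (c0 + 1) - Jf f (N + N0) (Ψ N0) Z ≤ (N0 + 3) * (1 + c0 + c1) := by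
      rw [hb]
      nlinarith
    have g2 : 0 ≤ C1 * (2 * (d : ℝ)) ^ N0 * mass f (N + N0) Z := by positivity
    refine (mul_le_mul_of_nonneg_left g1 g2).trans (le_of_eq ?_)
    rw [hC']
    field_simp
  have h5 : ENNReal.ofReal (c * mass f (N + N0) Z) *
      (∫⁻ Y in closedBall (0 : E3) 1 ∩ cone 𝒱, MAN_h f U N (Ψ 0) Y) ≤
      ENNReal.ofReal (c * mass f (N + N0) Z) * ENNReal.ofReal C' := by
    rw [← ENNReal.ofReal_mul (by positivity)]
    exact h2.trans (h1.trans (ENNReal.ofReal_le_ofReal h4))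
  have h6 : ENNReal.ofReal (c * mass f (N + N0) Z) ≠ 0 := by
    rw [Ne, ENNReal.ofReal_eq_zero, not_le]
    positivity
  exact (ENNReal.mul_le_mul_iff_right h6 ENNReal.ofReal_ne_top).1 h5

end

theorem AMA (hRIE : RIE_stmt) (hQRE : QRE_stmt) (hDMS : DMS_stmt) (hRAD : RAD_stmt) : AMA_stmt := by
  intro d f Us K hd hcore
  have hd2 : (2 : ℝ) ≤ d := by exact_mod_cast hd
  obtain ⟨hr1, -, -, hr4⟩ := hRAD
  obtain ⟨r, hr, hr100, hrad⟩ := hr1 d f (Us 0) (hcore.trap 0)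
  obtain ⟨N0, 𝒱, c, CQ, h𝒱, hK𝒱, hc, hCQ, hQ⟩ := hQRE d f Us K r hd hcore hr hr100 hrad
  obtain ⟨C1, hC1, hR⟩ := hRIE d f (Us 0) r hd hcore.good hr hr100 hrad
  obtain ⟨CD, hCD, hD1, -, -, hD4⟩ := hDMS d f (Us 0) r hd hcore.good hr hr100 hrad
  have himg : f.map '' (Us 0) ⊆ Us 0 := (image_mono subset_closure).trans hcore.good.1.2.2
  -- discs of large mass
  have hbig : ∀ (n : ℕ) (M : ℝ), ∃ W : ℂ → E3, Dsc (Us 0) W ∧ M ≤ mass f n W := by
    intro n M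
    obtain ⟨Z, hZ, c0, hc0, hev⟩ := hcore.charged 0
    obtain ⟨Nt, hNt⟩ := eventually_atTop.1 hev
    have hit : ∀ k : ℕ, Dsc (Us 0) ((fun (Z : ℂ → E3) (z : ℂ) => It f 1 (Z z))^[k] Z) ∧
        ∀ m : ℕ, mass f m ((fun (Z : ℂ → E3) (z : ℂ) => It f 1 (Z z))^[k] Z) = (d : ℝ) ^ k * mass f (m + k) Z := by
      intro k
      induction k with
      | zero => exact ⟨hZ, fun m => by simp⟩
      | succ k ih =>
        rw [Function.iterate_succ_apply']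
        refine ⟨MAN_dsc_mono himg (hD4 0 _ ih.1).1, fun m => ?_⟩
        rw [(hD4 m _ ih.1).2.1, ih.2 (m + 1), pow_succ, Nat.add_right_comm, Nat.add_assoc m k 1]
        ring
    obtain ⟨k, hk⟩ := pow_unbounded_of_one_lt (M / c0) (by linarith : (1 : ℝ) < d)
    refine ⟨_, (hit (k + Nt)).1, ?_⟩
    rw [(hit (k + Nt)).2 n]
    have h1 := hNt (n + (k + Nt)) (by omega)
    have h2 : (d : ℝ) ^ k ≤ (d : ℝ) ^ (k + Nt) := pow_le_pow_right₀ (by linarith) (by omega)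
    rw [div_lt_iff₀ hc0] at hk
    have h3 : (d : ℝ) ^ k * c0 ≤ (d : ℝ) ^ (k + Nt) * mass f (n + (k + Nt)) Z :=
      mul_le_mul h2 h1 hc0.le (by positivity)
    linarith
  have KK : AMA_K f (Us 0) r CD C1 :=
    { hd := hd
      good := hcore.good
      r0 := hr
      cd := hCD
      c1 := hC1
      dms1 := hD1
      dms4 := hD4
      rie := hR
      rad := fun A Z hA hZ => hr4 (Us 0) Z r _ A hrad hA hZ
      big := hbig }
  refine ⟨N0, 𝒱 ∩ Us 0, C1 * (2 * d) ^ N0 * (N0 + 3) / c, h𝒱.inter hcore.good.1.1, ?_, inter_subset_right, by positivity, ?_⟩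
  · intro x hx
    refine ⟨hK𝒱 hx, ?_⟩
    rw [hcore.inter] at hx
    exact mem_iInter.1 hx 0
  · intro N Ψ B c0 c1 hc0 hc1 hAdm hstep hlast
    exact AMA_main KK h𝒱 hc hQ Ψ (le_max_right B 1) hc0 hc1 (fun j hj => AMA_adm_mono (hAdm j hj) (le_max_left B 1)) hstep hlast

end Pool.Agent.P2A
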