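import Pool.Agent.helper15.P2.SpecA2
import Pool.Agent.helper80.P2.PSC

/-!
Row p2:APS (MP_063734_an): the functions `psj`, `psn` are admissible.
-/

set_option autoImplicit false

open scoped ContDiff Topology
open MeasureTheory Filter Set Metric MvPolynomial Pool.Agent.helper37.QA

namespace Pool.Agent.P2A

open Pool.Agent.P2

theorem APS_lapadd (g h : ℂ → ℝ) (z : ℂ) (hg : ContDiffAt ℝ 2 g z) (hh : ContDiffAt ℝ 2 h z) :
    lap (fun t => g t + h t) z = lap g z + lap h z := by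
  unfold lap
  have h1 : iteratedFDeriv ℝ 2 (fun t => g t + h t) z = iteratedFDeriv ℝ 2 g z +
      iteratedFDeriv ℝ 2 h z := iteratedFDeriv_add_apply (i := 2) hg hh
  rw [h1]
  simp only [add_apply]
  ring

/-- `(1/2) log |W|²` is subharmonic -/
theorem APS_logsub (hLSE : LSE_stmt) (W : ℂ → E3) (Ω : Set ℂ) (hΩ : IsOpen Ω) (h0 : (0 : ℂ) ∈ Ω)
    (hW : ∀ i, DifferentiableOn ℂ (fun t => W t i) Ω) (hne : W 0 ≠ 0) :
    0 ≤ lap (fun t => (1 / 2) * Real.log (nq (W t))) 0 := by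
  obtain ⟨i, hi⟩ := Function.ne_iff.1 hne
  have hi' : W 0 i ≠ 0 := hi
  have hΩ' : IsOpen (Ω ∩ (fun t => W t i) ⁻¹' {0}ᶜ) :=
    (hW i).continuousOn.isOpen_inter_preimage hΩ isOpen_compl_singleton
  obtain ⟨Ω', hΩe⟩ : ∃ Ω', Ω' = Ω ∩ (fun t => W t i) ⁻¹' {0}ᶜ := ⟨_, rfl⟩
  rw [← hΩe] at hΩ'
  have h0' : (0 : ℂ) ∈ Ω' := by
    rw [hΩe]
    exact ⟨h0, hi'⟩
  have hsub : Ω' ⊆ Ω := by
    rw [hΩe]
    exact inter_subset_left
  have hni : ∀ t ∈ Ω', W t i ≠ 0 := by
    intro t ht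
    rw [hΩe] at ht
    exact ht.2
  let B : ℂ → ℝ := fun t => (1 / 2) * Real.log (Complex.normSq (W t i))
  have hWi : ContDiffOn ℝ ∞ (fun t => W t i) Ω' := by
    have h1 : ContDiffOn ℂ ∞ (fun t => W t i) Ω' := ((hW i).mono hsub).contDiffOn hΩ'
    exact h1.restrict_scalars ℝ
  have hBs : ContDiffOn ℝ 2 B Ω' := by
    have h1 : ContDiffOn ℝ ∞ (fun t => Complex.normSq (W t i)) Ω' := PSC_normSq.comp_contDiffOn hWi
    have h2 : ContDiffOn ℝ ∞ B Ω' := contDiffOn_const.mul (h1.log (fun t ht => (Complex.normSq_pos.2 (hni t ht)).ne'))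
    exact h2.of_le ENat.LEInfty.out
  have hBlap : lap B 0 = 0 := by
    have h1 := MAU_core (fun t => W t i) (fun _ => 0) 0 1 Ω' hΩ' h0' ((hW i).mono hsub) (differentiableOn_const 0) (Or.inl hi')
    have h2 : (fun t => (1 / 2) * Real.log (Complex.normSq (W t i) + Complex.normSq 0) / 1) = B := by
      funext t
      simp [B]
    rw [h2] at h1
    rw [h1]
    simp
  let G : ℂ → Fin 2 → ℂ := fun t k => W t (i.succAbove k)
  have hG : DifferentiableOn ℂ G Ω' := by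
    rw [differentiableOn_pi]
    intro k
    exact (hW _).mono hsub
  have hL := hLSE 2 G B Ω' hΩ' h0' hG hBs hBlap.ge
  have hid : (fun t => (1 / 2) * Real.log (nq (W t))) =ᶠ[𝓝 0] fun t => (1 / 2) * Real.log (nq (G t) + Real.exp (2 * B t)) := by
    filter_upwards [hΩ'.mem_nhds h0'] with t ht
    have h1 : Real.exp (2 * B t) = Complex.normSq (W t i) := by
      show Real.exp (2 * ((1 / 2) * Real.log (Complex.normSq (W t i)))) = _
      rw [← mul_assoc, show (2 : ℝ) * (1 / 2) = 1 by norm_num, one_mul, Real.exp_log (Complex.normSq_pos.2 (hni t ht))]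
    have h2 : nq (W t) = nq (G t) + Complex.normSq (W t i) := by
      unfold nq
      rw [Fin.sum_univ_succAbove _ i, add_comm]
    rw [h1, h2]
  rw [PSC_lapcongr hid]
  exact hL

/-- zero function -/
theorem APS_adm_zero {d : ℕ} (f : Endo 2 d) (U : Set (PP 2)) (N : ℕ) : Adm f U N (fun _ => (0 : ℝ)) 0 := by
  refine ⟨contDiffOn_const, fun Z _ => by simp, fun Z _ c _ => rfl, fun Z _ E _ => ?_⟩
  unfold lev lap
  rw [iteratedFDeriv_two_apply, iteratedFDeriv_two_apply]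
  simp

theorem APS_adm_add {d : ℕ} (f : Endo 2 d) (U : Set (PP 2)) (hU : IsOpen U) (N : ℕ) {Ψ Ψ' : E3 → ℝ} {B B' : ℝ}
    (h : Adm f U N Ψ B) (h' : Adm f U N Ψ' B') : Adm f U N (fun Z => Ψ Z + Ψ' Z) (B + B') := by
  refine ⟨h.1.add h'.1, fun Z hZ => ?_, fun Z hZ c hc => ?_, fun Z hZ E hE => ?_⟩
  · exact (abs_add_le _ _).trans (add_le_add (h.2.1 Z hZ) (h'.2.1 Z hZ))
  · show Ψ (c • Z) + Ψ' (c • Z) = Ψ Z + Ψ' Z
    rw [h.2.2.1 Z hZ c hc, h'.2.2.1 Z hZ c hc]
  · have hγ : ContDiff ℝ ∞ (fun t : ℂ => Z + t • E) := contDiff_const.add (contDiff_id.smul contDiff_const)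
    have h0 : Z + (0 : ℂ) • E = Z := by simp
    have hopen := cone_open hU
    have hs : ∀ Φ : E3 → ℝ, ContDiffOn ℝ ∞ Φ (cone U) → ContDiffAt ℝ 2 (fun t : ℂ => Φ (Z + t • E)) 0 := by
      intro Φ hΦ
      have h1 : ContDiffAt ℝ ∞ Φ (Z + (0 : ℂ) • E) := by
        rw [h0]
        exact hΦ.contDiffAt (hopen.mem_nhds hZ)
      exact (h1.comp (0 : ℂ) hγ.contDiffAt).of_le ENat.LEInfty.out
    have h2 : lev (fun Z => Ψ Z + Ψ' Z) Z E = lev Ψ Z E + lev Ψ' Z E :=
      APS_lapadd _ _ 0 (hs Ψ h.1) (hs Ψ' h'.1)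
    rw [h2]
    exact add_nonneg (h.2.2.2 Z hZ E hE) (h'.2.2.2 Z hZ E hE)

theorem APS_adm_mono {d : ℕ} {f : Endo 2 d} {U : Set (PP 2)} {N : ℕ} {Ψ : E3 → ℝ} {B B' : ℝ} (h : Adm f U N Ψ B)
    (hB : B ≤ B') : Adm f U N Ψ B' :=
  ⟨h.1, fun Z hZ => (h.2.1 Z hZ).trans hB, h.2.2⟩

/-- the Levi form of `psj` -/
theorem APS_levi (hLSE : LSE_stmt) {d : ℕ} (f : Endo 2 d) (U : Set (PP 2)) (hUo : IsOpen U) (hd : d ≠ 0)
    (j N : ℕ) (hpq : ∀ Z ∈ cone U, 0 < pq (It f N Z)) (hnq : ∀ Z ∈ cone U, It f j Z ≠ 0) (Z : E3) (hZ : Z ∈ cone U) (E : E3)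
    (hE : cc f N Z E = 0) : 0 ≤ lev (psj f j N) Z E := by
  let γ : ℂ → E3 := fun t => Z + t • E
  have hγ : ContDiff ℂ ∞ γ := contDiff_const.add (contDiff_id.smul contDiff_const)
  have hγ' : ∀ t, HasDerivAt γ E t := by
    intro t
    have h := ((hasDerivAt_id t).smul_const E).const_add Z
    rwa [one_smul] at h
  let Ω : Set ℂ := γ ⁻¹' cone U
  have hΩ : IsOpen Ω := (cone_open hUo).preimage hγ.continuous
  have hγ0 : γ 0 = Z := by simp [γ]
  have h0Ω : (0 : ℂ) ∈ Ω := by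
    show γ 0 ∈ cone U
    rw [hγ0]
    exact hZ
  have hIt : ∀ (n : ℕ) (i : Fin 3), ContDiff ℂ ∞ fun t => It f n (γ t) i := fun n i =>
    (PSC_Itc f n i).comp hγ
  have hpqs : ContDiff ℝ ∞ fun t => pq (It f N (γ t)) :=
    (PSC_normSq.comp ((hIt N 0).restrict_scalars ℝ)).add
      (PSC_normSq.comp ((hIt N 1).restrict_scalars ℝ))
  have hnqs : ContDiff ℝ ∞ fun t => nq (It f j (γ t)) := by
    have e : (fun t => nq (It f j (γ t))) = fun t => Complex.normSq (It f j (γ t) 0) + Complex.normSq (It f j (γ t) 1) +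
        Complex.normSq (It f j (γ t) 2) := by
      funext t
      exact ENC_nq3 _
    rw [e]
    exact ((PSC_normSq.comp ((hIt j 0).restrict_scalars ℝ)).add
      (PSC_normSq.comp ((hIt j 1).restrict_scalars ℝ))).add (PSC_normSq.comp ((hIt j 2).restrict_scalars ℝ))
  have hdpos : (0 : ℝ) < d := by exact_mod_cast Nat.pos_of_ne_zero hd
  obtain ⟨D, hD⟩ : ∃ D : ℝ, D = (d : ℝ) ^ N / (d : ℝ) ^ j := ⟨_, rfl⟩
  have hB0 : lap (fun t => (1 / 2) * Real.log (Complex.normSq (It f N (γ t) 0) + Complex.normSq (It f N (γ t) 1)) / D) 0 = 0 := by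
    have hne : It f N (γ 0) 0 ≠ 0 ∨ It f N (γ 0) 1 ≠ 0 := by
      by_contra hcon
      push Not at hcon
      have h1 := hpq (γ 0) h0Ω
      unfold pq at h1
      rw [hcon.1, hcon.2] at h1
      simp at h1
    have h1 := MAU_core (fun t => It f N (γ t) 0) (fun t => It f N (γ t) 1) 0 D Ω hΩ h0Ω
      ((hIt N 0).differentiable (by simp)).differentiableOn
      ((hIt N 1).differentiable (by simp)).differentiableOn hne
    have hder : ∀ i : Fin 3, deriv (fun t => It f N (γ t) i) 0 =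
        fderiv ℂ (fun W : E3 => It f N W i) (γ 0) E := by
      intro i
      have h3 := ENT_deriv f N i (hγ' 0).differentiableAt
      rw [(hγ' 0).deriv] at h3
      exact h3
    have h4 : It f N (γ 0) 0 * deriv (fun t => It f N (γ t) 1) 0 -
        It f N (γ 0) 1 * deriv (fun t => It f N (γ t) 0) 0 = 0 := by
      rw [hder, hder, hγ0]
      have h5 : cc f N Z E = It f N Z 1 * fderiv ℂ (fun W => It f N W 0) Z E -
        It f N Z 0 * fderiv ℂ (fun W => It f N W 1) Z E := rfl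
      rw [hE] at h5
      linear_combination h5
    rw [h1, h4]
    simp
  have hA : ContDiffAt ℝ 2 (fun t => (1 / 2) * Real.log (nq (It f j (γ t)))) 0 := by
    refine contDiffAt_const.mul (ContDiffAt.log ((hnqs.of_le ENat.LEInfty.out).contDiffAt) ?_)
    exact (ENC_nqpos (hnq _ h0Ω)).ne'
  have hC : ContDiffAt ℝ 2 (fun t => (1 / 2) * Real.log (Complex.normSq (It f N (γ t) 0) + Complex.normSq (It f N (γ t) 1)) / D) 0 := by
    have h1 : ContDiffAt ℝ 2 (fun t => Real.log (pq (It f N (γ t)))) 0 :=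
      ((hpqs.of_le ENat.LEInfty.out).contDiffAt).log (hpq _ h0Ω).ne'
    exact (contDiffAt_const.mul h1).div_const D
  have hid : (fun t => psj f j N (γ t)) = fun t =>
      (1 / 2) * Real.log (nq (It f j (γ t))) - (1 / 2) * Real.log (Complex.normSq (It f N (γ t) 0) + Complex.normSq (It f N (γ t) 1)) / D := by
    funext t
    unfold psj un pq
    rw [hD]
    field_simp
  unfold lev
  show 0 ≤ lap (fun t => psj f j N (γ t)) 0
  rw [hid, PSC_lapsub _ _ 0 hA hC, hB0, sub_zero]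
  exact APS_logsub hLSE (fun t => It f j (γ t)) Ω hΩ h0Ω (fun i => ((hIt j i).differentiable (by simp)).differentiableOn)
    (hnq _ h0Ω)

theorem APS (_hUN1 : UN1_stmt) (_hCHN : CHN_stmt) (hLSE : LSE_stmt) (_hMAU : MAU_stmt) : APS_stmt := by
  intro d f U hd hU
  obtain ⟨C0, hC0, hu1, -, hpq, hu4⟩ := _hUN1 d f U hd hU
  have hd0 : d ≠ 0 := by omega
  have hdpos : (0 : ℝ) < d := by exact_mod_cast Nat.pos_of_ne_zero hd0
  have hcl : ∀ Z ∈ cone U, Z ∈ cone (closure U) := fun Z hZ => ⟨hZ.1, subset_closure hZ.2⟩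
  have hpq' : ∀ n : ℕ, ∀ Z ∈ cone U, 0 < pq (It f n Z) := fun n Z hZ => (hpq n Z (hcl Z hZ)).1
  have hne : ∀ n : ℕ, ∀ Z ∈ cone U, It f n Z ≠ 0 := fun n Z hZ => pmap_ne (iter_nd f.nondeg n) hZ.1
  have hnq' : ∀ n : ℕ, ∀ Z ∈ cone U, 0 < nq (It f n Z) := fun n Z hZ => ENC_nqpos (hne n Z hZ)
  obtain ⟨C, hC⟩ : ∃ C : ℝ, C = 2 * C0 + 1 := ⟨_, rfl⟩
  have hC1 : 1 ≤ C := by rw [hC]; linarith
  -- the bound
  have hbd : ∀ j N : ℕ, j ≤ N → ∀ Z ∈ cone U, |psj f j N Z| ≤ C := by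
    intro j N hjN Z hZ
    have h1 := hu4 j Z (hcl Z hZ)
    have h2 := hu1 j N hjN Z (hcl Z hZ)
    have hdj : (0 : ℝ) < (d : ℝ) ^ j := by positivity
    have h3 : |(d : ℝ) ^ j * un f j Z - (d : ℝ) ^ j * un f N Z| ≤ C0 := by
      rw [← mul_sub, abs_mul, abs_of_pos hdj, abs_sub_comm]
      calc (d : ℝ) ^ j * |un f N Z - un f j Z| ≤ (d : ℝ) ^ j * (C0 / (d : ℝ) ^ j) := mul_le_mul_of_nonneg_left h2 hdj.le
        _ = C0 := by field_simp
    have h4 : psj f j N Z = ((1 / 2) * Real.log (nq (It f j Z)) - (d : ℝ) ^ j * un f j Z) +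
        ((d : ℝ) ^ j * un f j Z - (d : ℝ) ^ j * un f N Z) := by
      unfold psj
      ring
    rw [h4]
    refine (abs_add_le _ _).trans ?_
    rw [hC]
    linarith
  have hAdm : ∀ j N : ℕ, j ≤ N → Adm f U N (psj f j N) C := by
    intro j N hjN
    refine ⟨?_, hbd j N hjN, ?_, ?_⟩
    · have h1 : ContDiff ℝ ∞ fun Z : E3 => nq (It f j Z) := PSC_nqs (PSC_Itc f j)
      have h3 : ContDiff ℝ ∞ fun Z : E3 => pq (It f N Z) := PSC_pqs (PSC_Itc f N)
      unfold psj un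
      refine ContDiffOn.sub (contDiffOn_const.mul (h1.contDiffOn.log (fun Z hZ => (hnq' j Z hZ).ne'))) ?_
      refine contDiffOn_const.mul (ContDiffOn.div_const ?_ _)
      exact contDiffOn_const.mul (h3.contDiffOn.log (fun Z hZ => (hpq' N Z hZ).ne'))
    · intro Z hZ c hc
      have hc' : Complex.normSq c ≠ 0 := fun h => hc (Complex.normSq_eq_zero.1 h)
      unfold psj un
      rw [ENC_Ithom f j c Z, ENC_Ithom f N c Z, PSC_nqsmul, PSC_pqsmul, map_pow, map_pow,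
        Real.log_mul (pow_ne_zero _ hc') (hnq' j Z hZ).ne', Real.log_mul (pow_ne_zero _ hc') (hpq' N Z hZ).ne',
        Real.log_pow, Real.log_pow]
      push_cast
      field_simp
      ring
    · intro Z hZ E hE
      exact APS_levi hLSE f U hU.1.1 hd0 j N (hpq' N) (hne j) Z hZ E hE
  have hstep : ∀ j N : ℕ, ∀ Z : E3, psj f (j + 1) (N + 1) Z = psj f j N (It f 1 Z) := by
    intro j N Z
    unfold psj un
    rw [PSC_ItF f j Z, PSC_ItF f N Z, pow_succ, pow_succ]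
    field_simp
  refine ⟨C, hC1, hAdm, fun j N Z _ => hstep j N Z, ?_⟩
  intro n N hnN
  constructor
  · have h1 : ∀ m : ℕ, m ≤ N → Adm f U N (psn f m N) (C * m) := by
      intro m
      induction m with
      | zero =>
        intro _
        have h2 : psn f 0 N = fun _ => (0 : ℝ) := by
          funext Z
          unfold psn
          simp
        rw [h2]
        have h3 := APS_adm_zero f U N
        simpa using h3
      | succ m ih =>
        intro hm
        have h2 : psn f (m + 1) N = fun Z => psn f m N Z + psj f m N Z := by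
          funext Z
          unfold psn
          rw [Finset.sum_range_succ]
        rw [h2]
        have h3 := APS_adm_add f U hU.1.1 N (ih (by omega)) (hAdm m N (by omega))
        refine APS_adm_mono h3 (le_of_eq ?_)
        push_cast
        ring
    refine APS_adm_mono (h1 n hnN) ?_
    have : 0 ≤ C := by linarith
    nlinarith
  · intro Z hZ
    have h1 : psn f (n + 1) (N + 1) Z = psn f n N (It f 1 Z) + psj f 0 (N + 1) Z := by
      unfold psn
      rw [Finset.sum_range_succ']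
      congr 1
      refine Finset.sum_congr rfl fun j _ => ?_
      exact hstep j N Z
    rw [h1]
    have h2 := (abs_le.1 (hbd 0 (N + 1) (by omega) Z hZ)).2
    linarith

end Pool.Agent.P2A
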