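import Pool.Agent.helper15.P2.SpecB
import Pool.Agent.helper49.P2.OSG

/-!
Row p2:BHA (MP_063734_an): the Hartogs argument.
-/

set_option autoImplicit false

open scoped ContDiff Topology ComplexConjugate ENNReal
open MeasureTheory Filter Set Metric

namespace Pool.Agent.P2B

open Pool.Agent.P2 Pool.Agent.P2I

/-- uniformly summable series of holomorphic functions of two variables -/
theorem BHA_series {U : Set (ℂ × ℂ)} (hU : IsOpen U) (f : ℕ → ℂ × ℂ → ℂ) (u : ℕ → ℝ) (hu : Summable u)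
    (hf : ∀ n, DifferentiableOn ℂ (f n) U) (hb : ∀ n, ∀ p ∈ U, ‖f n p‖ ≤ u n) :
    DifferentiableOn ℂ (fun p => ∑' n, f n p) U := by
  intro x hx
  obtain ⟨d, hd, hdU⟩ := Metric.isOpen_iff.mp hU x hx
  have hd2 : 0 < d / 2 := by positivity
  have hsub : ∀ y ∈ ball x (d / 2), ball y (d / 2) ⊆ U := by
    intro y hy z hz
    apply hdU
    rw [mem_ball] at hy hz ⊢
    linarith [dist_triangle z y x]
  have h1 : ∀ n, ∀ y ∈ ball x (d / 2), HasFDerivAt (f n) (fderiv ℂ (f n) y) y := by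
    intro n y hy
    exact ((hf n).differentiableAt (hU.mem_nhds (hsub y hy (mem_ball_self hd2)))).hasFDerivAt
  have h2 : ∀ n, ∀ y ∈ ball x (d / 2), ‖fderiv ℂ (f n) y‖ ≤ (2 / (d / 2)) * u n := by
    intro n y hy
    have h := OSG_bound hd2 ((hf n).mono (hsub y hy)) (fun z hz => hb n z (hsub y hy hz))
    calc ‖fderiv ℂ (f n) y‖ ≤ 2 * u n / (d / 2) := h
      _ = (2 / (d / 2)) * u n := by ring
  have h3 : Summable (fun n => f n x) :=
    Summable.of_norm_bounded hu (fun n => hb n x hx)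
  have h4 := hasFDerivAt_tsum_of_isPreconnected (hu.mul_left (2 / (d / 2))) isOpen_ball
    (convex_ball x (d / 2)).isPreconnected h1 h2 (mem_ball_self hd2) h3 (mem_ball_self hd2)
  exact h4.differentiableAt.differentiableWithinAt

theorem BHA_coef {Y : ℂ × ℂ → ℂ} {r δ : ℝ} (hY : DifferentiableOn ℂ Y (ball (0 : ℂ) r ×ˢ ball (0 : ℂ) δ)) (k : ℕ) :
    ∃ F : ℂ × ℂ → ℂ, DifferentiableOn ℂ F (ball (0 : ℂ) r ×ˢ ball (0 : ℂ) δ) ∧
      ∀ v ∈ ball (0 : ℂ) r, ∀ t ∈ ball (0 : ℂ) δ, iteratedDeriv k (fun s => Y (v, s)) t = F (v, t) := by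
  have hU : IsOpen (ball (0 : ℂ) r ×ˢ ball (0 : ℂ) δ) := isOpen_ball.prod isOpen_ball
  induction k with
  | zero =>
    refine ⟨Y, hY, ?_⟩
    intro v _ t _
    rw [iteratedDeriv_zero]
  | succ k ih =>
    obtain ⟨F, hF, hFe⟩ := ih
    refine ⟨fun p => fderiv ℂ F p (0, 1), OSG_dir hU hF (0, 1), ?_⟩
    intro v hv t ht
    rw [iteratedDeriv_succ]
    have h1 : iteratedDeriv k (fun s => Y (v, s)) =ᶠ[𝓝 t] fun s => F (v, s) := by
      filter_upwards [isOpen_ball.mem_nhds ht] with s hs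
      exact hFe v hv s hs
    rw [h1.deriv_eq]
    have h2 := OSG_line (y := ((v, 0) : ℂ × ℂ)) (v := ((0, 1) : ℂ × ℂ)) (ζ := t) hU hF
      (by
        have : ((v, 0) : ℂ × ℂ) + t • ((0, 1) : ℂ × ℂ) = (v, t) := by
          simp
        rw [this]
        exact ⟨hv, ht⟩)
    have h3 : ∀ z : ℂ, ((v, 0) : ℂ × ℂ) + z • ((0, 1) : ℂ × ℂ) = (v, z) := by
      intro z
      simp
    simp only [h3] at h2
    exact h2.deriv

theorem BHA_cauchy {f : ℂ → ℂ} {R : ℝ} (hR : 0 < R) (hf : DifferentiableOn ℂ f (ball 0 R))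
    (hb : ∀ z ∈ ball (0 : ℂ) R, ‖f z‖ ≤ 1) (k : ℕ) : ‖iteratedDeriv k f 0‖ * R ^ k ≤ k.factorial := by
  have h1 : ∀ r : ℝ, 0 < r → r < R → ‖iteratedDeriv k f 0‖ * r ^ k ≤ k.factorial := by
    intro r hr hrR
    have hsub : closedBall (0 : ℂ) r ⊆ ball 0 R := closedBall_subset_ball hrR
    have h2 : DiffContOnCl ℂ f (ball 0 r) := by
      apply DifferentiableOn.diffContOnCl
      rw [closure_ball (0 : ℂ) hr.ne']
      exact hf.mono hsub
    have h3 := Complex.norm_iteratedDeriv_le_of_forall_mem_sphere_norm_le k hr h2 (C := 1)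
      (fun z hz => hb z (hsub (sphere_subset_closedBall hz)))
    have h4 : 0 < r ^ k := pow_pos hr k
    rw [mul_one, le_div_iff₀ h4] at h3
    exact h3
  have h2 : Tendsto (fun r : ℝ => ‖iteratedDeriv k f 0‖ * r ^ k) (𝓝[<] R) (𝓝 (‖iteratedDeriv k f 0‖ * R ^ k)) := by
    have : Continuous (fun r : ℝ => ‖iteratedDeriv k f 0‖ * r ^ k) := by fun_prop
    exact (this.tendsto R).mono_left nhdsWithin_le_nhds
  refine le_of_tendsto h2 ?_
  have h3 : Ioo 0 R ∈ 𝓝[<] R := Ioo_mem_nhdsLT hR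
  filter_upwards [h3] with r hr
  exact h1 r hr.1 hr.2

theorem BHA_log (hBJE : BJE_stmt) (f : ℂ → ℂ) (R : ℂ → ℝ) (κ : ℝ) (k : ℕ) (hκ0 : 0 < κ) (hκ : κ < 1)
    (hf : DifferentiableOn ℂ f (ball 0 (97 / 100)))
    (hR : ∀ z ∈ ball (0 : ℂ) (97 / 100), 0 < R z ∧ R z ≤ 1 ∧ ‖f z‖ * R z ^ k ≤ 1)
    (hint : ∫⁻ v in ball (0 : ℂ) 1, ENNReal.ofReal (Real.log (κ / R v)) ≤ ENNReal.ofReal (Real.pi / 100))
    (v : ℂ) (hv : v ∈ ball (0 : ℂ) (1 / 4)) : ‖f v‖ ≤ (Real.exp (1 / 49) / κ) ^ k := by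
  by_cases hfv : f v = 0
  · rw [hfv, norm_zero]
    positivity
  have hv' : ‖v‖ < 1 / 4 := by simpa using hv
  have hsub : ball v (72 / 100) ⊆ ball (0 : ℂ) (97 / 100) := by
    intro z hz
    rw [mem_ball, dist_eq_norm] at hz
    rw [mem_ball_zero_iff]
    calc ‖z‖ = ‖(z - v) + v‖ := by congr 1; ring
      _ ≤ ‖z - v‖ + ‖v‖ := norm_add_le _ _
      _ < 97 / 100 := by linarith
  obtain ⟨hI, hJ⟩ := hBJE f v (7 / 10) (72 / 100) (by norm_num) (by norm_num) (hf.mono hsub) hfv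
  have hsub2 : ball v (7 / 10) ⊆ ball (0 : ℂ) (97 / 100) :=
    (ball_subset_ball (by norm_num)).trans hsub
  have hvol : volume (ball v (7 / 10)) = ENNReal.ofReal (49 / 100 * Real.pi) := by
    rw [Complex.volume_ball, ← ENNReal.ofReal_pow (by norm_num)]
    rw [show ((NNReal.pi : NNReal) : ℝ≥0∞) = ENNReal.ofReal Real.pi from by
      rw [ENNReal.ofReal, ← NNReal.coe_real_pi, Real.toNNReal_coe]]
    rw [← ENNReal.ofReal_mul (by positivity)]
    norm_num
  have hvolr : volume.real (ball v (7 / 10)) = 49 / 100 * Real.pi := by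
    rw [Measure.real, hvol, ENNReal.toReal_ofReal (by positivity)]
  set L : ℝ := Real.log (1 / κ) with hL
  have hL0 : 0 ≤ L := by
    rw [hL]
    apply Real.log_nonneg
    rw [le_div_iff₀ hκ0]
    linarith
  set g : ℂ → ℝ := fun z => Real.log ‖f z‖ - k * L with hg
  have hgi : IntegrableOn g (ball v (7 / 10)) := by
    apply Integrable.sub hI
    rw [integrable_const_iff]
    right
    constructor
    rw [Measure.restrict_apply_univ, hvol]
    exact ENNReal.ofReal_lt_top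
  have hgp : ∀ z ∈ ball v (7 / 10), ENNReal.ofReal (g z) ≤ ENNReal.ofReal (k : ℝ) * ENNReal.ofReal (Real.log (κ / R z)) := by
    intro z hz
    obtain ⟨h1, h2, h3⟩ := hR z (hsub2 hz)
    by_cases hfz : f z = 0
    · have : g z ≤ 0 := by
        rw [hg]
        simp only [hfz, norm_zero, Real.log_zero, zero_sub, Left.neg_nonpos_iff]
        positivity
      rw [ENNReal.ofReal_of_nonpos this]
      exact zero_le
    · rw [← ENNReal.ofReal_mul (by positivity)]
      apply ENNReal.ofReal_le_ofReal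
      have h4 : 0 < ‖f z‖ := norm_pos_iff.mpr hfz
      have h5 : Real.log (‖f z‖ * R z ^ k) ≤ 0 := Real.log_nonpos (by positivity) h3
      rw [Real.log_mul h4.ne' (pow_ne_zero _ h1.ne'), Real.log_pow] at h5
      rw [hg, Real.log_div hκ0.ne' h1.ne']
      have h6 : L = - Real.log κ := by
        rw [hL, one_div, Real.log_inv]
      rw [h6]
      nlinarith
  have hgint : ∫ z in ball v (7 / 10), g z ≤ k * (Real.pi / 100) := by
    rw [integral_eq_lintegral_pos_part_sub_lintegral_neg_part hgi]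
    have h1 : ∫⁻ z in ball v (7 / 10), ENNReal.ofReal (g z) ≤ ENNReal.ofReal (k * (Real.pi / 100)) := by
      calc ∫⁻ z in ball v (7 / 10), ENNReal.ofReal (g z)
          ≤ ∫⁻ z in ball v (7 / 10), ENNReal.ofReal (k : ℝ) * ENNReal.ofReal (Real.log (κ / R z)) :=
            setLIntegral_mono' measurableSet_ball hgp
        _ = ENNReal.ofReal (k : ℝ) * ∫⁻ z in ball v (7 / 10), ENNReal.ofReal (Real.log (κ / R z)) :=
            lintegral_const_mul' _ _ ENNReal.ofReal_ne_top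
        _ ≤ ENNReal.ofReal (k : ℝ) * ∫⁻ z in ball (0 : ℂ) 1, ENNReal.ofReal (Real.log (κ / R z)) := by
            gcongr
            have h97 : ball (0 : ℂ) (97 / 100) ⊆ ball (0 : ℂ) 1 := ball_subset_ball (by norm_num)
            exact hsub2.trans h97
        _ ≤ ENNReal.ofReal (k : ℝ) * ENNReal.ofReal (Real.pi / 100) := by gcongr
        _ = ENNReal.ofReal (k * (Real.pi / 100)) := by rw [← ENNReal.ofReal_mul (by positivity)]
    have h2 : (∫⁻ z in ball v (7 / 10), ENNReal.ofReal (g z)).toReal ≤ k * (Real.pi / 100) := by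
      apply ENNReal.toReal_le_of_le_ofReal (by positivity) h1
    have h3 : 0 ≤ (∫⁻ z in ball v (7 / 10), ENNReal.ofReal (-g z)).toReal := ENNReal.toReal_nonneg
    linarith
  have hfin : IsFiniteMeasure (volume.restrict (ball v (7 / 10))) := by
    constructor
    rw [Measure.restrict_apply_univ, hvol]
    exact ENNReal.ofReal_lt_top
  have hsum : ∫ z in ball v (7 / 10), Real.log ‖f z‖ = (∫ z in ball v (7 / 10), g z) + 49 / 100 * Real.pi * (k * L) := by
    have h1 : ∫ z in ball v (7 / 10), g z = (∫ z in ball v (7 / 10), Real.log ‖f z‖) - ∫ _ in ball v (7 / 10), (k * L : ℝ) := by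
      rw [hg]
      exact integral_sub hI (integrable_const _)
    rw [h1, setIntegral_const, hvolr, smul_eq_mul]
    ring
  rw [setAverage_eq, hvolr, hsum, smul_eq_mul] at hJ
  have hpi : 0 < Real.pi := Real.pi_pos
  have hfin2 : Real.log ‖f v‖ ≤ k * (L + 1 / 49) := by
    refine hJ.trans ?_
    rw [inv_mul_le_iff₀ (by positivity)]
    nlinarith
  have hpos : 0 < ‖f v‖ := norm_pos_iff.mpr hfv
  rw [← Real.exp_log hpos]
  calc Real.exp (Real.log ‖f v‖) ≤ Real.exp (k * (L + 1 / 49)) := Real.exp_le_exp.mpr hfin2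
    _ = (Real.exp (1 / 49) / κ) ^ k := by
      rw [Real.exp_nat_mul, Real.exp_add, hL, Real.exp_log (by positivity)]
      congr 1
      field_simp

theorem BHA_q : Real.exp (1 / 49) / 4 < 3 / 10 := by
  have h1 : Real.exp (1 / 49) < 6 / 5 := by
    have h2 : (1 / 49 : ℝ) < Real.log (6 / 5) := by
      rw [Real.lt_log_iff_exp_lt (by norm_num)]
      have h3 : Real.exp (1 / 49) ≤ 1 / (1 - 1 / 49) := by
        have h4 := Real.add_one_le_exp (-(1 / 49 : ℝ))
        rw [Real.exp_neg] at h4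
        rw [le_div_iff₀ (by norm_num)]
        have h5 : 0 < Real.exp (1 / 49) := Real.exp_pos _
        have h6 : (-(1 / 49) + 1) * Real.exp (1 / 49) ≤ (Real.exp (1 / 49))⁻¹ * Real.exp (1 / 49) :=
          mul_le_mul_of_nonneg_right h4 h5.le
        rw [inv_mul_cancel₀ h5.ne'] at h6
        linarith
      refine lt_of_le_of_lt h3 (by norm_num)
    exact (Real.lt_log_iff_exp_lt (by norm_num)).mp h2
  linarith

theorem BHA_hart (hBJE : BJE_stmt) (Yl : ℂ × ℂ → ℂ) (δ κ : ℝ) (R : ℂ → ℝ) (hδ : 0 < δ) (hκ0 : 0 < κ) (hκ : κ < 1)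
    (hYl : DifferentiableOn ℂ Yl (ball (0 : ℂ) (97 / 100) ×ˢ ball (0 : ℂ) δ))
    (h0 : ∀ v ∈ ball (0 : ℂ) (97 / 100), ‖Yl (v, 0)‖ < 1 / 2)
    (hR : ∀ v ∈ ball (0 : ℂ) (97 / 100), 0 < R v ∧ R v ≤ 1 ∧ ∃ Z : ℂ → ℂ, DifferentiableOn ℂ Z (ball 0 (R v)) ∧
      (∀ t ∈ ball (0 : ℂ) (R v), ‖Z t‖ ≤ 1) ∧ Z =ᶠ[𝓝 0] fun t => Yl (v, t))
    (hint : ∫⁻ v in ball (0 : ℂ) 1, ENNReal.ofReal (Real.log (κ / R v)) ≤ ENNReal.ofReal (Real.pi / 100)) :
    ∃ Y : ℂ × ℂ → ℂ, DifferentiableOn ℂ Y (ball (0 : ℂ) (κ / 4) ×ˢ ball (0 : ℂ) (1 / 4)) ∧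
      ∀ v ∈ ball (0 : ℂ) (1 / 4), (∀ t ∈ ball (0 : ℂ) (κ / 4), ‖Y (t, v)‖ < 1) ∧
        (fun t => Y (t, v)) =ᶠ[𝓝 0] fun t => Yl (v, t) := by
  set A : ℕ → ℂ → ℂ := fun k v => (k.factorial : ℂ)⁻¹ * iteratedDeriv k (fun t => Yl (v, t)) 0 with hA
  have hAd : ∀ k, DifferentiableOn ℂ (A k) (ball 0 (97 / 100)) := by
    intro k
    obtain ⟨F, hF, hFe⟩ := BHA_coef hYl k
    have h1 : DifferentiableOn ℂ (fun v => iteratedDeriv k (fun t => Yl (v, t)) 0) (ball 0 (97 / 100)) := by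
      have h2 : DifferentiableOn ℂ (fun v : ℂ => F (v, 0)) (ball 0 (97 / 100)) := by
        refine hF.comp (DifferentiableOn.prodMk differentiableOn_id (differentiableOn_const 0)) ?_
        intro v hv
        exact ⟨hv, mem_ball_self hδ⟩
      exact h2.congr (fun v hv => hFe v hv 0 (mem_ball_self hδ))
    exact h1.const_mul _
  have hAb : ∀ k, ∀ v ∈ ball (0 : ℂ) (97 / 100), ‖A k v‖ * R v ^ k ≤ 1 := by
    intro k v hv
    obtain ⟨h1, _, Z, h2, h3, h4⟩ := hR v hv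
    have h5 := BHA_cauchy h1 h2 h3 k
    rw [h4.iteratedDeriv_eq] at h5
    have hk : (0 : ℝ) < k.factorial := by exact_mod_cast Nat.factorial_pos k
    rw [hA]
    simp only [norm_mul, norm_inv, Complex.norm_natCast]
    rw [mul_assoc, inv_mul_le_iff₀ hk, mul_one]
    exact h5
  have hAe : ∀ k, ∀ v ∈ ball (0 : ℂ) (1 / 4), ‖A k v‖ ≤ (Real.exp (1 / 49) / κ) ^ k := by
    intro k v hv
    refine BHA_log hBJE (A k) R κ k hκ0 hκ (hAd k) ?_ hint v hv
    intro z hz
    obtain ⟨h1, h2, _⟩ := hR z hz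
    exact ⟨h1, h2, hAb k z hz⟩
  set q : ℝ := Real.exp (1 / 49) / 4 with hq
  have hq0 : 0 < q := by positivity
  have hq1 : q < 3 / 10 := BHA_q
  have h14 : ball (0 : ℂ) (1 / 4) ⊆ ball (0 : ℂ) (97 / 100) := ball_subset_ball (by norm_num)
  have hterm : ∀ k, ∀ p ∈ ball (0 : ℂ) (κ / 4) ×ˢ ball (0 : ℂ) (1 / 4), ‖A k p.2 * p.1 ^ k‖ ≤ q ^ k := by
    intro k p hp
    have h1 : ‖p.1‖ < κ / 4 := by
      have := hp.1
      rwa [mem_ball_zero_iff] at this
    rw [norm_mul, norm_pow]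
    calc ‖A k p.2‖ * ‖p.1‖ ^ k ≤ (Real.exp (1 / 49) / κ) ^ k * (κ / 4) ^ k := by
          apply mul_le_mul (hAe k p.2 hp.2) _ (by positivity) (by positivity)
          exact pow_le_pow_left₀ (norm_nonneg _) h1.le k
      _ = q ^ k := by
          rw [← mul_pow, hq]
          congr 1
          field_simp
  have hqs : Summable (fun k : ℕ => q ^ k) := summable_geometric_of_lt_one hq0.le (by linarith)
  refine ⟨fun p => ∑' k, A k p.2 * p.1 ^ k, ?_, ?_⟩
  · refine BHA_series (isOpen_ball.prod isOpen_ball) (fun k p => A k p.2 * p.1 ^ k) _ hqs ?_ hterm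
    intro k
    apply DifferentiableOn.mul
    · exact ((hAd k).mono h14).comp differentiableOn_snd (fun p hp => hp.2)
    · exact differentiableOn_fst.pow k
  · intro v hv
    constructor
    · intro t ht
      have hp : ((t, v) : ℂ × ℂ) ∈ ball (0 : ℂ) (κ / 4) ×ˢ ball (0 : ℂ) (1 / 4) := ⟨ht, hv⟩
      have hs : Summable (fun k => A k v * t ^ k) := Summable.of_norm_bounded hqs (fun k => hterm k (t, v) hp)
      have h1 : ∑' k, A k v * t ^ k = A 0 v * t ^ 0 + ∑' k, A (k + 1) v * t ^ (k + 1) := hs.tsum_eq_zero_add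
      have h2 : ‖∑' k, A (k + 1) v * t ^ (k + 1)‖ ≤ q / (1 - q) := by
        have h3 : Summable (fun k : ℕ => q ^ (k + 1)) := (summable_nat_add_iff 1).mpr hqs
        refine (tsum_of_norm_bounded h3.hasSum (fun k => hterm (k + 1) (t, v) hp)).trans (le_of_eq ?_)
        have h4 : ∑' k : ℕ, q ^ (k + 1) = (∑' k : ℕ, q ^ k) * q := by
          rw [← tsum_mul_right]
          apply tsum_congr
          intro k
          rw [pow_succ]
        rw [h4, tsum_geometric_of_lt_one hq0.le (by linarith)]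
        field_simp
      have h5 : ‖A 0 v * t ^ 0‖ < 1 / 2 := by
        rw [hA]
        simp only [Nat.factorial_zero, Nat.cast_one, inv_one, one_mul, iteratedDeriv_zero, pow_zero, mul_one]
        exact h0 v (h14 hv)
      have h6 : q / (1 - q) < 1 / 2 := by
        rw [div_lt_iff₀ (by linarith)]
        linarith
      show ‖∑' k, A k v * t ^ k‖ < 1
      rw [h1]
      calc ‖A 0 v * t ^ 0 + ∑' k, A (k + 1) v * t ^ (k + 1)‖
          ≤ ‖A 0 v * t ^ 0‖ + ‖∑' k, A (k + 1) v * t ^ (k + 1)‖ := norm_add_le _ _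
        _ < 1 := by linarith
    · have h1 : DifferentiableOn ℂ (fun t => Yl (v, t)) (ball 0 δ) := by
        refine hYl.comp (DifferentiableOn.prodMk (differentiableOn_const v) differentiableOn_id) ?_
        intro t ht
        exact ⟨h14 hv, ht⟩
      filter_upwards [isOpen_ball.mem_nhds (mem_ball_self hδ)] with t ht
      have h2 := Complex.hasSum_taylorSeries_on_ball h1 ht
      have h3 : ∀ k : ℕ, ((k.factorial : ℂ)⁻¹ • (t - 0) ^ k • iteratedDeriv k (fun t => Yl (v, t)) 0) = A k v * t ^ k := by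
        intro k
        rw [hA, sub_zero, smul_eq_mul, smul_eq_mul]
        ring
      simp only [h3] at h2
      exact h2.tsum_eq

theorem BHA_mu (a b p q : ℂ) (h0 : a ≠ 0 ∨ b ≠ 0) (h1 : p ≠ 0 ∨ q ≠ 0) (h : p * b = q * a) :
    ∃ μ : ℂ, μ ≠ 0 ∧ p = μ * a ∧ q = μ * b := by
  rcases h0 with ha | hb
  · refine ⟨p / a, ?_, by field_simp, ?_⟩
    · intro hc
      have hp : p = 0 := by
        rcases div_eq_zero_iff.mp hc with h2 | h2
        · exact h2
        · exact absurd h2 ha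
      rw [hp, zero_mul] at h
      rcases mul_eq_zero.mp h.symm with h2 | h2
      · rcases h1 with h3 | h3
        · exact h3 hp
        · exact h3 h2
      · exact ha h2
    · field_simp
      rw [h]
  · refine ⟨q / b, ?_, ?_, by field_simp⟩
    · intro hc
      have hq : q = 0 := by
        rcases div_eq_zero_iff.mp hc with h2 | h2
        · exact h2
        · exact absurd h2 hb
      rw [hq, zero_mul] at h
      rcases mul_eq_zero.mp h with h2 | h2
      · rcases h1 with h3 | h3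
        · exact h3 h2
        · exact h3 hq
      · exact hb h2
    · field_simp
      rw [h]

theorem BHA (hBJE : BJE_stmt) (hBPI : BPI_stmt) (hBRA : BRA_stmt) (hBRC : BRC_stmt) (hBSL : BSL_stmt)
    (_hBUQ : BUQ_stmt) : BHA_stmt := by
  intro P Q E κ x0 X hND hκ0 hκ1 hSht hint
  obtain ⟨hXd, hX0, hX⟩ := hSht
  have h0b : (0 : ℂ) ∈ ball (0 : ℂ) 1 := mem_ball_self one_pos
  have hhalf : ball (0 : ℂ) (1 / 2) ⊆ ball (0 : ℂ) 1 := ball_subset_ball (by norm_num)
  have hx0 : x0 ∈ ball (0 : ℂ) 1 := by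
    have := (hX 0 h0b).1
    rw [hX0] at this
    exact hhalf this
  set P0 := P (x0, 0) with hP0
  set Q0 := Q (x0, 0) with hQ0
  have hne0 : P0 ≠ 0 ∨ Q0 ≠ 0 := hND.ne (x0, 0) ⟨hx0, h0b⟩
  have hmu : ∀ v ∈ ball (0 : ℂ) 1, ∃ μ : ℂ, μ ≠ 0 ∧ P (X v, v) = μ * P0 ∧ Q (X v, v) = μ * Q0 := by
    intro v hv
    obtain ⟨h1, h2, _⟩ := hX v hv
    exact BHA_mu P0 Q0 _ _ hne0 (hND.ne (X v, v) ⟨hhalf h1, hv⟩) h2
  set Φ : ℂ × ℂ × ℂ → ℂ := fun q => P (q.1, q.2.1) * (Q0 + q.2.2 * conj P0) - Q (q.1, q.2.1) * (P0 - q.2.2 * conj Q0) with hΦ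
  set O : Set (ℂ × ℂ × ℂ) := {q | q.1 ∈ ball (0 : ℂ) 1 ∧ q.2.1 ∈ ball (0 : ℂ) 1} with hO
  have hOo : IsOpen O := by
    apply IsOpen.inter
    · exact isOpen_ball.preimage (by fun_prop)
    · exact isOpen_ball.preimage (by fun_prop)
  have hmap : MapsTo (fun q : ℂ × ℂ × ℂ => ((q.1, q.2.1) : ℂ × ℂ)) O BI := by
    intro q hq
    exact ⟨hq.1, hq.2⟩
  have hlin : DifferentiableOn ℂ (fun q : ℂ × ℂ × ℂ => ((q.1, q.2.1) : ℂ × ℂ)) O := by
    apply Differentiable.differentiableOn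
    fun_prop
  have hPd : DifferentiableOn ℂ (fun q : ℂ × ℂ × ℂ => P (q.1, q.2.1)) O := hND.dP.comp hlin hmap
  have hQd : DifferentiableOn ℂ (fun q : ℂ × ℂ × ℂ => Q (q.1, q.2.1)) O := hND.dQ.comp hlin hmap
  have hΦd : DifferentiableOn ℂ Φ O := by
    apply DifferentiableOn.sub
    · apply hPd.mul
      apply Differentiable.differentiableOn
      fun_prop
    · apply hQd.mul
      apply Differentiable.differentiableOn
      fun_prop
  have hder : ∀ v ∈ ball (0 : ℂ) 1, (X v, v, (0 : ℂ)) ∈ O ∧ Φ (X v, v, 0) = 0 ∧ fderiv ℂ Φ (X v, v, 0) (1, 0, 0) ≠ 0 := by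
    intro v hv
    obtain ⟨h1, h2, h3⟩ := hX v hv
    have hXv : X v ∈ ball (0 : ℂ) 1 := hhalf h1
    refine ⟨⟨hXv, hv⟩, ?_, ?_⟩
    · simp only [hΦ]
      rw [zero_mul, zero_mul, add_zero, sub_zero, h2, sub_self]
    · have hl := OSG_line (y := ((X v, v, 0) : ℂ × ℂ × ℂ)) (v := ((1, 0, 0) : ℂ × ℂ × ℂ)) (ζ := 0) hOo hΦd
        (by
          rw [zero_smul, add_zero]
          exact ⟨hXv, hv⟩)
      rw [zero_smul, add_zero] at hl
      obtain ⟨hA, _, _⟩ := hBSL P Q E hND v hv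
      have hP' : HasDerivAt (sl P v) (deriv (sl P v) (X v)) (X v) :=
        (hA.1.differentiableAt (isOpen_ball.mem_nhds hXv)).hasDerivAt
      have hQ' : HasDerivAt (sl Q v) (deriv (sl Q v) (X v)) (X v) :=
        (hA.2.1.differentiableAt (isOpen_ball.mem_nhds hXv)).hasDerivAt
      have hP2 : HasDerivAt (fun z : ℂ => sl P v (X v + z)) (deriv (sl P v) (X v)) 0 := by
        apply HasDerivAt.comp_const_add
        rw [add_zero]
        exact hP'
      have hQ2 : HasDerivAt (fun z : ℂ => sl Q v (X v + z)) (deriv (sl Q v) (X v)) 0 := by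
        apply HasDerivAt.comp_const_add
        rw [add_zero]
        exact hQ'
      have h4 : HasDerivAt (fun z : ℂ => Φ ((X v, v, 0) + z • ((1, 0, 0) : ℂ × ℂ × ℂ)))
          (deriv (sl P v) (X v) * Q0 - deriv (sl Q v) (X v) * P0) 0 := by
        have h5 : (fun z : ℂ => Φ ((X v, v, 0) + z • ((1, 0, 0) : ℂ × ℂ × ℂ)))
            = fun z => sl P v (X v + z) * Q0 - sl Q v (X v + z) * P0 := by
          funext z
          simp [hΦ, sl]
        rw [h5]
        exact (hP2.mul_const Q0).sub (hQ2.mul_const P0)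
      rw [hl.unique h4]
      intro h6
      apply h3
      obtain ⟨μ, _, hμ1, hμ2⟩ := hmu v hv
      rw [Wr]
      show Q (X v, v) * deriv (sl P v) (X v) - P (X v, v) * deriv (sl Q v) (X v) = 0
      rw [hμ1, hμ2]
      linear_combination μ * h6
  obtain ⟨ε, δ, Yl, hε, hδ, hYld, hYl0, hYl⟩ := hBPI Φ O X 0 1 (97 / 100) hOo hΦd (by norm_num) (by norm_num) hXd hder
  have h97 : ball (0 : ℂ) (97 / 100) ⊆ ball (0 : ℂ) 1 := ball_subset_ball (by norm_num)
  have hloc : ∀ v ∈ ball (0 : ℂ) (97 / 100), 0 < rh (sl P v) (sl Q v) (X v) ∧ rh (sl P v) (sl Q v) (X v) ≤ 1 ∧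
      ∃ Z : ℂ → ℂ, DifferentiableOn ℂ Z (ball 0 (rh (sl P v) (sl Q v) (X v))) ∧
      (∀ t ∈ ball (0 : ℂ) (rh (sl P v) (sl Q v) (X v)), ‖Z t‖ ≤ 1) ∧ Z =ᶠ[𝓝 0] fun t => Yl (v, t) := by
    intro v hv
    have hv1 := h97 hv
    obtain ⟨μ, hμ0, hμ1, hμ2⟩ := hmu v hv1
    set l : ℂ := conj μ / μ with hl
    have hcμ : conj μ ≠ 0 := by
      intro hc
      apply hμ0
      rw [← Complex.conj_conj μ, hc, map_zero]
    have hl1 : ‖l‖ = 1 := by
      rw [hl, norm_div, Complex.norm_conj, div_self (norm_ne_zero_iff.mpr hμ0)]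
    have hl0 : l ≠ 0 := by
      intro hc
      rw [hc, norm_zero] at hl1
      exact zero_ne_one hl1
    obtain ⟨hA, _, _⟩ := hBSL P Q E hND v hv1
    have hXv : X v ∈ ball (0 : ℂ) 1 := hhalf (hX v hv1).1
    have hlt : ∀ (r : ℝ) (t : ℂ), t ∈ ball (0 : ℂ) r → l * t ∈ ball (0 : ℂ) r := by
      intro r t ht
      rw [mem_ball_zero_iff] at ht ⊢
      rw [norm_mul, hl1, one_mul]
      exact ht
    have hlt' : ∀ (r : ℝ) (t : ℂ), t ∈ ball (0 : ℂ) r → l⁻¹ * t ∈ ball (0 : ℂ) r := by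
      intro r t ht
      rw [mem_ball_zero_iff] at ht ⊢
      rw [norm_mul, norm_inv, hl1, inv_one, one_mul]
      exact ht
    have hU : Br (sl P v) (sl Q v) (ball 0 1) (X v) δ (fun t => Yl (v, l * t)) := by
      refine ⟨?_, ?_, ?_⟩
      · refine hYld.comp (DifferentiableOn.prodMk (differentiableOn_const v) (differentiableOn_id.const_mul l)) ?_
        intro t ht
        exact ⟨hv, hlt δ t ht⟩
      · show Yl (v, l * 0) = X v
        rw [mul_zero]
        exact hYl0 v hv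
      · intro t ht
        obtain ⟨g1, g2, _⟩ := hYl v hv (l * t) (hlt δ t ht)
        refine ⟨g1.1, ?_⟩
        simp only [hΦ] at g2
        show P (Yl (v, l * t), v) * (Q (X v, v) + t * conj (P (X v, v))) = Q (Yl (v, l * t), v) * (P (X v, v) - t * conj (Q (X v, v)))
        rw [hμ1, hμ2, map_mul, map_mul]
        have g3 : μ * (l * t) = t * conj μ := by
          rw [hl]
          field_simp
        linear_combination μ * g2 + (-(P (Yl (v, l * t), v) * conj P0) - Q (Yl (v, l * t), v) * conj Q0) * g3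
    obtain ⟨_, hr1, ⟨Z, hZ⟩, _, hrmax⟩ := hBRC (sl P v) (sl Q v) hA (X v) hXv
    obtain ⟨_, _, hBuni⟩ := hBRA (sl P v) (sl Q v) hA (X v) hXv
    have hrpos : 0 < rh (sl P v) (sl Q v) (X v) := by
      have hmin : min δ 1 ≤ rh (sl P v) (sl Q v) (X v) := by
        refine hrmax (min δ 1) (fun t => Yl (v, l * t)) (min_le_right _ _) ?_
        have hs : ball (0 : ℂ) (min δ 1) ⊆ ball 0 δ := ball_subset_ball (min_le_left _ _)
        exact ⟨hU.1.mono hs, hU.2.1, fun t ht => hU.2.2 t (hs ht)⟩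
      exact lt_of_lt_of_le (lt_min hδ one_pos) hmin
    refine ⟨hrpos, hr1, fun s => Z (l⁻¹ * s), ?_, ?_, ?_⟩
    · refine hZ.1.comp (differentiableOn_id.const_mul l⁻¹) ?_
      intro t ht
      exact hlt' _ t ht
    · intro t ht
      have h1 := (hZ.2.2 (l⁻¹ * t) (hlt' _ t ht)).1
      rw [mem_ball_zero_iff] at h1
      exact h1.le
    · filter_upwards [isOpen_ball.mem_nhds (mem_ball_self (x := (0 : ℂ)) hrpos), isOpen_ball.mem_nhds (mem_ball_self (x := (0 : ℂ)) hδ)] with t ht1 ht2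
      have h1 := hBuni _ _ _ _ hU hZ (l⁻¹ * t) (hlt' _ t ht2) (hlt' _ t ht1)
      rw [← h1]
      show Yl (v, l * (l⁻¹ * t)) = Yl (v, t)
      rw [mul_inv_cancel_left₀ hl0]
  obtain ⟨Y, hYd, hY⟩ := BHA_hart hBJE Yl δ κ (fun v => rh (sl P v) (sl Q v) (X v)) hδ hκ0 hκ1 hYld
    (by
      intro v hv
      rw [hYl0 v hv]
      have := (hX v (h97 hv)).1
      rwa [mem_ball_zero_iff] at this) hloc hint
  refine ⟨Y, hYd, ?_, ?_⟩
  · have h1 := (hY 0 (mem_ball_self (by norm_num))).2.eq_of_nhds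
    have h2 : Y (0, 0) = Yl (0, 0) := h1
    rw [h2, hYl0 0 (mem_ball_self (by norm_num)), hX0]
  · intro t ht v hv
    obtain ⟨h1, h2⟩ := hY v hv
    have hv1 : v ∈ ball (0 : ℂ) 1 := by
      have : ball (0 : ℂ) (1 / 4) ⊆ ball (0 : ℂ) 1 := ball_subset_ball (by norm_num)
      exact this hv
    have hv97 : v ∈ ball (0 : ℂ) (97 / 100) := by
      have : ball (0 : ℂ) (1 / 4) ⊆ ball (0 : ℂ) (97 / 100) := ball_subset_ball (by norm_num)
      exact this hv
    refine ⟨by rw [mem_ball_zero_iff]; exact h1 t ht, ?_⟩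
    obtain ⟨hA, _, _⟩ := hBSL P Q E hND v hv1
    have hYv : DifferentiableOn ℂ (fun t => Y (t, v)) (ball 0 (κ / 4)) := by
      refine hYd.comp (DifferentiableOn.prodMk differentiableOn_id (differentiableOn_const v)) ?_
      intro s hs
      exact ⟨hs, hv⟩
    have hYm : MapsTo (fun t => Y (t, v)) (ball 0 (κ / 4)) (ball (0 : ℂ) 1) := by
      intro s hs
      rw [mem_ball_zero_iff]
      exact h1 s hs
    set G : ℂ → ℂ := fun t => sl P v (Y (t, v)) * (Q0 + t * conj P0) - sl Q v (Y (t, v)) * (P0 - t * conj Q0) with hG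
    have hGd : DifferentiableOn ℂ G (ball 0 (κ / 4)) := by
      apply DifferentiableOn.sub
      · apply (hA.1.comp hYv hYm).mul
        apply Differentiable.differentiableOn
        fun_prop
      · apply (hA.2.1.comp hYv hYm).mul
        apply Differentiable.differentiableOn
        fun_prop
    have hGa : AnalyticOnNhd ℂ G (ball 0 (κ / 4)) := hGd.analyticOnNhd isOpen_ball
    have hG0 : G =ᶠ[𝓝 0] 0 := by
      filter_upwards [h2, isOpen_ball.mem_nhds (mem_ball_self (x := (0 : ℂ)) hδ)] with s hs1 hs2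
      obtain ⟨_, g2, _⟩ := hYl v hv97 s hs2
      simp only [hΦ] at g2
      simp only [hG, sl, Pi.zero_apply]
      have hs3 : Y (s, v) = Yl (v, s) := hs1
      rw [hs3]
      exact g2
    have hGz := hGa.eqOn_zero_of_preconnected_of_eventuallyEq_zero (convex_ball (0 : ℂ) (κ / 4)).isPreconnected
      (mem_ball_self (by positivity)) hG0
    have h3 := hGz ht
    simp only [hG, sl, Pi.zero_apply] at h3
    exact sub_eq_zero.mp h3

end Pool.Agent.P2B
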