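import Pool.Agent.helper1.P2.BSHc

/-!
Row p2:BSH (MP_063734_an), part d: the estimate.
-/

set_option autoImplicit false

namespace Pool.Agent.P2U

open MeasureTheory Set Filter Topology Metric Complex
open scoped ENNReal ContDiff

theorem BSH_int {f : ℂ → ℝ} {χ : ℂ → ℝ} (hf : ContinuousOn f (ball 0 2)) (hχ : Continuous χ)
    (h0 : ∀ z, z ∉ ball (0 : ℂ) (1 / 2) → χ z = 0) : Integrable (fun z => χ z * f z) := by
  have hsub : closedBall (0 : ℂ) (1 / 2) ⊆ ball (0 : ℂ) 2 := closedBall_subset_ball (by norm_num)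
  have h1 : ContinuousOn (fun z => χ z * f z) (closedBall (0 : ℂ) (1 / 2)) :=
    hχ.continuousOn.mul (hf.mono hsub)
  have h2 : IntegrableOn (fun z => χ z * f z) (closedBall (0 : ℂ) (1 / 2)) :=
    h1.integrableOn_compact (isCompact_closedBall _ _)
  refine (integrableOn_iff_integrable_of_support_subset ?_).mp h2
  intro z hz
  by_contra h3
  apply hz
  have h4 : z ∉ ball (0 : ℂ) (1 / 2) := fun h => h3 (ball_subset_closedBall h)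
  show χ z * f z = 0
  rw [h0 z h4, zero_mul]

theorem BSH_log_cont {P Q : ℂ × ℂ → ℂ} {r : ℝ} (hr : 0 < r) (h : Hol P Q 2 r) :
    ContinuousOn (fun z : ℂ => Real.log (‖P (z, 0)‖ ^ 2 + ‖Q (z, 0)‖ ^ 2) / 2) (ball 0 2) := by
  have h2 := BSH_slice hr h.hP
  have h3 := BSH_slice hr h.hQ
  have h4 : ContinuousOn (fun x : ℂ => (‖P (x, 0)‖ ^ 2 + ‖Q (x, 0)‖ ^ 2)) (ball 0 2) :=
    ((h2.norm.pow 2).add (h3.norm.pow 2))
  apply ContinuousOn.div_const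
  apply h4.log
  intro x hx
  rw [mem_ball_zero_iff] at hx
  have hp : (x, (0 : ℂ)) ∈ TB 2 r := ⟨hx, by simpa using hr⟩
  have h6 : 0 < ‖P (x, 0)‖ ^ 2 + ‖Q (x, 0)‖ ^ 2 := by
    rcases h.ne _ hp with h7 | h7
    · have := norm_pos_iff.mpr h7
      positivity
    · have := norm_pos_iff.mpr h7
      positivity
  exact h6.ne'

theorem BSH_diff (hGRN : UGRN_stmt) {P Q : ℂ × ℂ → ℂ} {s : ℝ} {b : ℂ} (hs : 0 < s)
    (h2 : Hol P Q 2 s) (hb2 : Hol (sh b P) (sh b Q) 2 s) (χ : ℂ → ℝ) (hχ2 : ContDiff ℝ 2 χ) (hcs : HasCompactSupport χ)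
    (hts : tsupport χ ⊆ ball 0 (1 / 2)) (hLc : Continuous (Lz χ)) (hL0 : ∀ z, z ∉ ball (0 : ℂ) (1 / 2) → Lz χ z = 0)
    (M B : ℝ) (hM0 : 0 ≤ M) (hM : ∀ x, |Lz χ x| ≤ M) (hB0 : 0 ≤ B)
    (hB : ∀ z ∈ ball (0 : ℂ) (1 / 2), |Real.log (‖P (z, 0)‖ ^ 2 + ‖Q (z, 0)‖ ^ 2) / 2 -
      Real.log (‖sh b P (z, 0)‖ ^ 2 + ‖sh b Q (z, 0)‖ ^ 2) / 2| ≤ B) :
    (∫ z, χ z * BSH_dens P Q z) - ∫ z, χ z * BSH_dens (sh b P) (sh b Q) z ≤ 2 * (B * M) := by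
  rw [BSH_green hGRN hs h2 χ hχ2 hcs hts, BSH_green hGRN hs hb2 χ hχ2 hcs hts, ← mul_sub]
  apply mul_le_mul_of_nonneg_left _ (by norm_num)
  have i1 := BSH_int (BSH_log_cont hs h2) hLc hL0
  have i2 := BSH_int (BSH_log_cont hs hb2) hLc hL0
  have i1' : Integrable (fun z : ℂ => (Real.log (‖P (z, 0)‖ ^ 2 + ‖Q (z, 0)‖ ^ 2) / 2) * Lz χ z) := by
    refine i1.congr ?_
    filter_upwards with z
    ring
  have i2' : Integrable (fun z : ℂ => (Real.log (‖sh b P (z, 0)‖ ^ 2 + ‖sh b Q (z, 0)‖ ^ 2) / 2) * Lz χ z) := by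
    refine i2.congr ?_
    filter_upwards with z
    ring
  rw [← integral_sub i1' i2']
  have h3 : ∫ z : ℂ, ((Real.log (‖P (z, 0)‖ ^ 2 + ‖Q (z, 0)‖ ^ 2) / 2) * Lz χ z -
      (Real.log (‖sh b P (z, 0)‖ ^ 2 + ‖sh b Q (z, 0)‖ ^ 2) / 2) * Lz χ z) =
      ∫ z in ball (0 : ℂ) (1 / 2), ((Real.log (‖P (z, 0)‖ ^ 2 + ‖Q (z, 0)‖ ^ 2) / 2) * Lz χ z -
      (Real.log (‖sh b P (z, 0)‖ ^ 2 + ‖sh b Q (z, 0)‖ ^ 2) / 2) * Lz χ z) := by
    symm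
    apply setIntegral_eq_integral_of_forall_compl_eq_zero
    intro z hz
    rw [hL0 z hz]
    ring
  rw [h3]
  have h4 : volume (ball (0 : ℂ) (1 / 2)) < ⊤ := measure_ball_lt_top
  have h5 := norm_setIntegral_le_of_norm_le_const (μ := volume) (C := B * M) h4
    (f := fun z : ℂ => ((Real.log (‖P (z, 0)‖ ^ 2 + ‖Q (z, 0)‖ ^ 2) / 2) * Lz χ z -
      (Real.log (‖sh b P (z, 0)‖ ^ 2 + ‖sh b Q (z, 0)‖ ^ 2) / 2) * Lz χ z)) (by
      intro z hz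
      rw [← sub_mul, norm_mul, Real.norm_eq_abs, Real.norm_eq_abs]
      exact mul_le_mul (hB z hz) (hM z) (abs_nonneg _) hB0)
  have h6 : volume.real (ball (0 : ℂ) (1 / 2)) ≤ 1 := by
    rw [Measure.real, Complex.volume_ball]
    rw [ENNReal.toReal_mul, ENNReal.toReal_pow, ENNReal.toReal_ofReal (by norm_num)]
    have h7 : ((NNReal.pi : NNReal) : ℝ≥0∞).toReal = Real.pi := rfl
    rw [h7]
    have := Real.pi_lt_four
    linarith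
  have h8 : B * M * volume.real (ball (0 : ℂ) (1 / 2)) ≤ B * M * 1 := mul_le_mul_of_nonneg_left h6 (by positivity)
  rw [Real.norm_eq_abs] at h5
  have h9 := (abs_le.mp h5).2
  linarith

/-- almost all values are regular -/
theorem BSH_rega (hUSHR : USHR_stmt) (hUNUL : UNUL_stmt) (hUSNG : USNG_stmt) {P Q : ℂ × ℂ → ℂ} {s τ : ℝ} {b : ℂ}
    (h4 : Hol P Q 4 τ) (hsτ : s + 2 * ‖b‖ ≤ τ) (hne : ∃ p ∈ TB 4 τ, cx P Q p ≠ 0 ∨ cv P Q p ≠ 0) :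
    ∀ᵐ ζ : ℂ, BSH_Reg P Q s ζ ∧ BSH_Reg (sh b P) (sh b Q) s ζ := by
  have hnull : volume {p | p ∈ TB 4 τ ∧ cx P Q p = 0 ∧ cv P Q p = 0} = 0 := by
    obtain ⟨p, hp, h1 | h1⟩ := hne
    · refine measure_mono_null ?_ (hUNUL (cx P Q) 4 τ (BSH_cx_an h4) ⟨p, hp, h1⟩)
      intro q hq
      exact ⟨hq.1, hq.2.1⟩
    · refine measure_mono_null ?_ (hUNUL (cv P Q) 4 τ (BSH_cv_an h4) ⟨p, hp, h1⟩)
      intro q hq
      exact ⟨hq.1, hq.2.2⟩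
  have hcrit := hUSNG P Q 4 τ h4 hnull
  rw [← compl_mem_ae_iff] at hcrit
  filter_upwards [hcrit] with ζ hζ
  constructor
  · intro p hp hpz hc
    apply hζ
    refine ⟨p, ⟨by linarith [hp.1], ?_⟩, hpz, hc.1, hc.2⟩
    have := norm_nonneg b
    have := hp.2
    linarith
  · intro p hp hpz hc
    obtain ⟨g1, g2, g3, _, _⟩ := (hUSHR P Q τ h4 b s hsτ).2 p hp
    apply hζ
    refine ⟨_, g1, hpz, ?_, ?_⟩
    · rw [g2] at hc
      rw [g3] at hc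
      rw [hc.2, mul_zero, add_zero] at hc
      exact hc.1
    · rw [← g3]
      exact hc.2

/-- the sheared data -/
theorem BSH_dat {P Q : ℂ × ℂ → ℂ} {u : ℂ × ℂ → ℝ} {D C0 α τ s : ℝ} {b : ℂ} (hC0 : 0 ≤ C0) (hα0 : 0 < α) (hα1 : α ≤ 1)
    (h : Dat P Q u D C0 α τ) (hs1 : s ≤ 1 / 40) (hs : 0 < s) (hsτ : s ≤ τ / 4) (hb : ‖b‖ < s ^ 2) :
    Dat (sh b P) (sh b Q) (fun p => u (p.1, p.2 + b * p.1)) D (2 * C0) α (τ / 2) := by
  have hs2 : s ^ 2 ≤ s / 40 := by nlinarith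
  have hmap : ∀ p ∈ TB 4 (τ / 2), ((p.1, p.2 + b * p.1) : ℂ × ℂ) ∈ TB 4 τ := by
    intro p hp
    refine ⟨hp.1, ?_⟩
    have h1 : ‖b * p.1‖ ≤ s ^ 2 * 4 := by
      rw [norm_mul]
      exact mul_le_mul hb.le hp.1.le (norm_nonneg _) (by positivity)
    calc ‖p.2 + b * p.1‖ ≤ ‖p.2‖ + ‖b * p.1‖ := norm_add_le _ _
      _ < τ := by have := hp.2; linarith
  have hshift : ∀ p : ℂ × ℂ, AnalyticAt ℂ (fun p : ℂ × ℂ => ((p.1, p.2 + b * p.1) : ℂ × ℂ)) p := by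
    intro p
    exact analyticAt_fst.prod (analyticAt_snd.add (analyticAt_const.mul analyticAt_fst))
  refine ⟨⟨?_, ?_, ?_⟩, ?_, ?_⟩
  · intro p hp
    exact AnalyticAt.fun_comp (f := fun p : ℂ × ℂ => ((p.1, p.2 + b * p.1) : ℂ × ℂ)) (h.hol.hP _ (hmap p hp)) (hshift p)
  · intro p hp
    exact AnalyticAt.fun_comp (f := fun p : ℂ × ℂ => ((p.1, p.2 + b * p.1) : ℂ × ℂ)) (h.hol.hQ _ (hmap p hp)) (hshift p)
  · intro p hp
    exact h.hol.ne _ (hmap p hp)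
  · intro p hp p' hp'
    have h1 := h.hoe _ (hmap p hp) _ (hmap p' hp')
    refine h1.trans ?_
    have h2 : ‖((p.1, p.2 + b * p.1) : ℂ × ℂ) - (p'.1, p'.2 + b * p'.1)‖ ≤ 2 * ‖p - p'‖ := by
      have e1 : ‖p.1 - p'.1‖ ≤ ‖p - p'‖ := norm_fst_le (p - p')
      have e2 : ‖p.2 - p'.2‖ ≤ ‖p - p'‖ := norm_snd_le (p - p')
      have e0 : 0 ≤ ‖p - p'‖ := norm_nonneg _
      rw [Prod.mk_sub_mk, Prod.norm_mk]
      apply max_le
      · linarith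
      · have e3 : p.2 + b * p.1 - (p'.2 + b * p'.1) = (p.2 - p'.2) + b * (p.1 - p'.1) := by ring
        rw [e3]
        calc ‖(p.2 - p'.2) + b * (p.1 - p'.1)‖ ≤ ‖p.2 - p'.2‖ + ‖b * (p.1 - p'.1)‖ := norm_add_le _ _
          _ ≤ ‖p - p'‖ + 1 * ‖p - p'‖ := by
            rw [norm_mul]
            gcongr
            nlinarith
          _ = 2 * ‖p - p'‖ := by ring
    calc C0 * ‖((p.1, p.2 + b * p.1) : ℂ × ℂ) - (p'.1, p'.2 + b * p'.1)‖ ^ α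
        ≤ C0 * (2 * ‖p - p'‖) ^ α := by
          apply mul_le_mul_of_nonneg_left _ hC0
          exact Real.rpow_le_rpow (norm_nonneg _) h2 hα0.le
      _ = C0 * ((2 : ℝ) ^ α * ‖p - p'‖ ^ α) := by
          rw [Real.mul_rpow (by norm_num) (norm_nonneg _)]
      _ ≤ C0 * (2 * ‖p - p'‖ ^ α) := by
          apply mul_le_mul_of_nonneg_left _ hC0
          apply mul_le_mul_of_nonneg_right _ (by positivity)
          calc (2 : ℝ) ^ α ≤ 2 ^ (1 : ℝ) := Real.rpow_le_rpow_of_exponent_le (by norm_num) hα1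
            _ = 2 := Real.rpow_one 2
      _ = 2 * C0 * ‖p - p'‖ ^ α := by ring
  · intro p hp
    have h1 := h.app _ (hmap p hp)
    have h2 : |Real.log (‖sh b P p‖ ^ 2 + ‖sh b Q p‖ ^ 2) / 2 - D * u (p.1, p.2 + b * p.1)| ≤ C0 := h1
    linarith

end Pool.Agent.P2U
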