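import Pool.Agent.helper15.P2.SpecB
import Pool.Agent.helper1.P2.BSHd

/-!
Row p2:BSH (MP_063734_an): unshearing.
-/

set_option autoImplicit false

namespace Pool.Agent.P2U

open MeasureTheory Set Filter Topology Metric Complex
open scoped ENNReal ContDiff

theorem BSH_final (hUGRN : UGRN_stmt) (hUAFW : UAFW_stmt) (hUJAC : UJAC_stmt)
    (hUUNI : UUNI_stmt) (hUSHR : USHR_stmt) (hUMEA : UMEA_stmt) (hUNUL : UNUL_stmt) (hUSNG : USNG_stmt)
    (χ : ℂ → ℝ) (K M CH : ℝ) (hχ2 : ContDiff ℝ 2 χ) (hcs : HasCompactSupport χ) (hts : tsupport χ ⊆ ball 0 (1 / 2))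
    (hχ01 : ∀ x, 0 ≤ χ x ∧ χ x ≤ 1) (hχ1 : ∀ x ∈ ball (0 : ℂ) (2 / 5), χ x = 1) (hK : 0 ≤ K)
    (hχl : ∀ x y, |χ x - χ y| ≤ K * ‖x - y‖) (hLc : Continuous (Lz χ)) (hL0 : ∀ z, z ∉ ball (0 : ℂ) (1 / 2) → Lz χ z = 0)
    (hM0 : 0 ≤ M) (hM : ∀ x, |Lz χ x| ≤ M) (hCH0 : 0 ≤ CH)
    {P Q : ℂ × ℂ → ℂ} {u : ℂ × ℂ → ℝ} {D C0 α τ : ℝ} (hC0 : 1 ≤ C0) (hα0 : 0 < α) (hα1 : α ≤ 1)
    (hdat : Dat P Q u D C0 α τ) {s β : ℝ} (hs : 0 < s) (hs1 : s ≤ 1 / 40) (hsτ : s ≤ τ / 4) (hsD : 1 / s ≤ D) (hβ : 0 ≤ β)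
    {b : ℂ} (hb : ‖b‖ < s ^ 2) (hm1 : MeasurableSet (NN (sh b P) (sh b Q) (s / 4)))
    (hH : ∫⁻ x in ball (0 : ℂ) 2, ENNReal.ofReal (BSH_dens (sh b P) (sh b Q) x) ≤ ENNReal.ofReal (CH * D))
    (hN : ∫⁻ x in NN (sh b P) (sh b Q) (s / 4), ENNReal.ofReal (BSH_dens (sh b P) (sh b Q) x) ≤ ENNReal.ofReal (D * β)) :
    ∫⁻ x in NN P Q (s / 6) ∩ ball 0 (2 / 5), ENNReal.ofReal (BSH_dens P Q x) ≤
      ENNReal.ofReal (D * (β + (6 * M * C0 + 20 * K * CH + 1) * s ^ α)) := by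
  have hs2 : s ^ 2 ≤ s / 40 := by nlinarith
  have hD0 : 0 < D := lt_of_lt_of_le (by positivity) hsD
  have hsα : s ≤ s ^ α := by
    calc s = s ^ (1 : ℝ) := (Real.rpow_one s).symm
      _ ≤ s ^ α := Real.rpow_le_rpow_of_exponent_ge hs (by linarith) hα1
  have hsα0 : 0 < s ^ α := by positivity
  have hDs : 1 ≤ D * s := by
    rw [div_le_iff₀ hs] at hsD
    exact hsD
  have hDsα : 1 ≤ D * s ^ α := hDs.trans (mul_le_mul_of_nonneg_left hsα hD0.le)
  have h4 : Hol P Q 4 τ := hdat.hol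
  have hsb : s + 2 * ‖b‖ ≤ τ := by linarith
  have h2 : Hol P Q 2 s := by
    refine ⟨h4.hP.mono ?_, h4.hQ.mono ?_, ?_⟩
    · intro p hp
      exact ⟨by linarith [hp.1], by linarith [hp.2]⟩
    · intro p hp
      exact ⟨by linarith [hp.1], by linarith [hp.2]⟩
    · intro p hp
      exact h4.ne p ⟨by linarith [hp.1], by linarith [hp.2]⟩
  have hb2 : Hol (sh b P) (sh b Q) 2 s := (hUSHR P Q τ h4 b s hsb).1
  -- trivial case
  by_cases hne : ∃ p ∈ TB 4 τ, cx P Q p ≠ 0 ∨ cv P Q p ≠ 0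
  swap
  · push Not at hne
    have hempty : NN P Q (s / 6) ∩ ball 0 (2 / 5) = ∅ := by
      rw [Set.eq_empty_iff_forall_notMem]
      rintro x ⟨⟨h5, h6, _⟩, _⟩
      apply h6
      refine (hne (x, 0) ⟨by show ‖x‖ < 4; linarith, ?_⟩).1
      show ‖(0 : ℂ)‖ < τ
      rw [norm_zero]
      linarith
    rw [hempty, setLIntegral_empty]
    exact zero_le
  have hreg := BSH_rega hUSHR hUNUL hUSNG h4 hsb hne
  have hm2 : MeasurableSet (NN P Q (s / 6)) := hUMEA P Q s (s / 6) h2 (by positivity) (by linarith)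
  have hcomp := BSH_comp hUAFW hUJAC hUUNI hs hs1 hb h2 hb2 hreg hm1 hm2 χ hχ2.continuous K hK hχl
  set f : ℂ → ℝ := BSH_dens P Q with hf
  set fb : ℂ → ℝ := BSH_dens (sh b P) (sh b Q) with hfb
  have hfc : ContinuousOn f (ball 0 2) := BSH_dens_cont hs h2
  have hfbc : ContinuousOn fb (ball 0 2) := BSH_dens_cont hs hb2
  have hf0 : ∀ x, 0 ≤ f x := BSH_dens_nonneg P Q
  have hfb0 : ∀ x, 0 ≤ fb x := BSH_dens_nonneg _ _
  have hχ0 : ∀ z, z ∉ ball (0 : ℂ) (1 / 2) → χ z = 0 := by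
    intro z hz
    by_contra h5
    exact hz (hts (subset_tsupport χ h5))
  have hIf := BSH_int hfc hχ2.continuous hχ0
  have hIfb := BSH_int hfbc hχ2.continuous hχ0
  -- Green
  have hgreen : (∫ z, χ z * f z) - ∫ z, χ z * fb z ≤ 2 * ((3 * C0 * (D * s ^ α)) * M) := by
    apply BSH_diff hUGRN hs h2 hb2 χ hχ2 hcs hts hLc hL0 M _ hM0 hM (by positivity)
    intro z hz
    rw [mem_ball_zero_iff] at hz
    have hz1 : (z, (0 : ℂ)) ∈ TB 4 τ := ⟨by show ‖z‖ < 4; linarith, by show ‖(0 : ℂ)‖ < τ; rw [norm_zero]; linarith⟩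
    have hbz : ‖b * z‖ ≤ s ^ 2 := by
      rw [norm_mul]
      calc ‖b‖ * ‖z‖ ≤ s ^ 2 * 1 := mul_le_mul hb.le (by linarith) (norm_nonneg _) (by positivity)
        _ = s ^ 2 := mul_one _
    have hz2 : (z, 0 + b * z) ∈ TB 4 τ := ⟨by show ‖z‖ < 4; linarith, by show ‖0 + b * z‖ < τ; rw [zero_add]; linarith⟩
    have e1 := hdat.app _ hz1
    have e2 := hdat.app _ hz2
    have e3 := hdat.hoe _ hz1 _ hz2
    have e4 : ‖((z, 0) : ℂ × ℂ) - (z, 0 + b * z)‖ ^ α ≤ s ^ α := by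
      apply Real.rpow_le_rpow (norm_nonneg _) _ hα0.le
      rw [Prod.mk_sub_mk, Prod.norm_mk, sub_self, norm_zero, zero_add, zero_sub, norm_neg]
      apply max_le
      · exact hs.le
      · linarith
    have e5 : |u (z, 0) - u (z, 0 + b * z)| ≤ C0 * s ^ α :=
      e3.trans (mul_le_mul_of_nonneg_left e4 (by linarith))
    have e6 : |D * u (z, 0) - D * u (z, 0 + b * z)| ≤ D * (C0 * s ^ α) := by
      rw [← mul_sub, abs_mul, abs_of_pos hD0]
      exact mul_le_mul_of_nonneg_left e5 hD0.le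
    have e7 : sh b P (z, 0) = P (z, 0 + b * z) := rfl
    have e8 : sh b Q (z, 0) = Q (z, 0 + b * z) := rfl
    rw [e7, e8]
    have e9 : C0 ≤ C0 * (D * s ^ α) := le_mul_of_one_le_right (by linarith) hDsα
    rw [abs_le] at e1 e2 e6 ⊢
    constructor
    · linarith [e1.1, e1.2, e2.1, e2.2, e6.1, e6.2]
    · linarith [e1.1, e1.2, e2.1, e2.2, e6.1, e6.2]
  -- the sheared side
  set A : Set ℂ := BSH_A (sh b P) (sh b Q) (1 / 2) (s / 4) with hA
  set G : Set ℂ := BSH_A P Q 1 (s / 6) with hG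
  have hAm : MeasurableSet A := BSH_A_meas hs hb2 (by norm_num) hm1
  have hGm : MeasurableSet G := BSH_A_meas hs h2 (by norm_num) hm2
  have hAsub : A ⊆ ball 0 2 := fun x hx => ball_subset_ball (by norm_num) hx.1.1
  have hIb : ENNReal.ofReal (∫ z, χ z * fb z) ≤
      (∫⁻ x in G, ENNReal.ofReal (f x) * ENNReal.ofReal (χ x)) + ENNReal.ofReal (CH * D * (20 * K * s)) + ENNReal.ofReal (D * β) := by
    rw [ofReal_integral_eq_lintegral_ofReal hIfb (Eventually.of_forall (fun z => mul_nonneg (hχ01 z).1 (hfb0 z)))]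
    -- restrict to the ball
    have hcov : ∫⁻ z, ENNReal.ofReal (χ z * fb z) ≤
        (∫⁻ z in A, ENNReal.ofReal (χ z * fb z)) + ∫⁻ z in NN (sh b P) (sh b Q) (s / 4), ENNReal.ofReal (χ z * fb z) := by
      set Z1 : Set ℂ := {x : ℂ | x ∈ ball (0 : ℂ) (1 / 2) ∧ cx (sh b P) (sh b Q) (x, 0) ≠ 0}ᶜ with hZ1
      set N1 : Set ℂ := {x : ℂ | ‖x‖ < 2 ∧ cx (sh b P) (sh b Q) (x, 0) ≠ 0 ∧ sh b Q (x, 0) = 0} with hN1
      have hZm : MeasurableSet Z1 := (BSH_open hs hb2 (by norm_num)).2.measurableSet.compl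
      have hN0 : volume N1 = 0 := ULWX_null _ _ s hs hb2
      have hZ0 : ∫⁻ z in Z1, ENNReal.ofReal (χ z * fb z) = 0 := by
        have h5 : ∫⁻ z in Z1, ENNReal.ofReal (χ z * fb z) = ∫⁻ z in Z1, 0 := by
          apply setLIntegral_congr_fun hZm
          intro z hz
          by_cases hzb : z ∈ ball (0 : ℂ) (1 / 2)
          · have h6 : cx (sh b P) (sh b Q) (z, 0) = 0 := by
              by_contra h7
              exact hz ⟨hzb, h7⟩
            have h7 : fb z = 0 := by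
              rw [hfb, BSH_dens, h6]
              simp
            show ENNReal.ofReal (χ z * fb z) = 0
            rw [h7, mul_zero, ENNReal.ofReal_zero]
          · show ENNReal.ofReal (χ z * fb z) = 0
            rw [hχ0 z hzb, zero_mul, ENNReal.ofReal_zero]
        rw [h5, lintegral_zero]
      have hNN0 : ∫⁻ z in N1, ENNReal.ofReal (χ z * fb z) = 0 := setLIntegral_measure_zero _ _ hN0
      have huniv : (univ : Set ℂ) ⊆ ((A ∪ NN (sh b P) (sh b Q) (s / 4)) ∪ Z1) ∪ N1 := by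
        intro z _
        by_cases h5 : z ∈ Z1
        · left; right; exact h5
        · rw [hZ1, mem_compl_iff, not_not] at h5
          by_cases h6 : sh b Q (z, 0) = 0
          · right
            refine ⟨?_, h5.2, h6⟩
            have := h5.1
            rw [mem_ball_zero_iff] at this
            linarith
          · left; left
            by_cases h7 : z ∈ NN (sh b P) (sh b Q) (s / 4)
            · right; exact h7
            · left
              exact ⟨⟨h5.1, h5.2, h6⟩, h7⟩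
      calc ∫⁻ z, ENNReal.ofReal (χ z * fb z) = ∫⁻ z in univ, ENNReal.ofReal (χ z * fb z) := by rw [setLIntegral_univ]
        _ ≤ ∫⁻ z in ((A ∪ NN (sh b P) (sh b Q) (s / 4)) ∪ Z1) ∪ N1, ENNReal.ofReal (χ z * fb z) := lintegral_mono_set huniv
        _ ≤ (∫⁻ z in ((A ∪ NN (sh b P) (sh b Q) (s / 4)) ∪ Z1), ENNReal.ofReal (χ z * fb z)) + ∫⁻ z in N1, ENNReal.ofReal (χ z * fb z) :=
            lintegral_union_le _ _ _
        _ ≤ ((∫⁻ z in (A ∪ NN (sh b P) (sh b Q) (s / 4)), ENNReal.ofReal (χ z * fb z)) + ∫⁻ z in Z1, ENNReal.ofReal (χ z * fb z)) +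
              ∫⁻ z in N1, ENNReal.ofReal (χ z * fb z) := by
            gcongr
            exact lintegral_union_le _ _ _
        _ = ∫⁻ z in (A ∪ NN (sh b P) (sh b Q) (s / 4)), ENNReal.ofReal (χ z * fb z) := by rw [hZ0, hNN0, add_zero, add_zero]
        _ ≤ _ := lintegral_union_le _ _ _
    refine hcov.trans ?_
    apply add_le_add
    · -- the part A
      have h5 : ∀ z ∈ A, ENNReal.ofReal (χ z * fb z) ≤
          ENNReal.ofReal (fb z) * ENNReal.ofReal (χ z - 20 * K * s) + ENNReal.ofReal (fb z) * ENNReal.ofReal (20 * K * s) := by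
        intro z _
        rw [← mul_add, mul_comm (χ z), ENNReal.ofReal_mul (hfb0 z)]
        gcongr
        calc ENNReal.ofReal (χ z) = ENNReal.ofReal ((χ z - 20 * K * s) + 20 * K * s) := by congr 1; ring
          _ ≤ _ := ENNReal.ofReal_add_le
      have hmeas : AEMeasurable (fun z => ENNReal.ofReal (fb z) * ENNReal.ofReal (χ z - 20 * K * s)) (volume.restrict A) := by
        have h6 : AEMeasurable fb (volume.restrict A) := (hfbc.mono hAsub).aemeasurable hAm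
        exact h6.ennreal_ofReal.mul ((hχ2.continuous.sub continuous_const).measurable.ennreal_ofReal.aemeasurable)
      calc ∫⁻ z in A, ENNReal.ofReal (χ z * fb z)
          ≤ ∫⁻ z in A, (ENNReal.ofReal (fb z) * ENNReal.ofReal (χ z - 20 * K * s) + ENNReal.ofReal (fb z) * ENNReal.ofReal (20 * K * s)) :=
            setLIntegral_mono' hAm h5
        _ = (∫⁻ z in A, ENNReal.ofReal (fb z) * ENNReal.ofReal (χ z - 20 * K * s)) + ∫⁻ z in A, ENNReal.ofReal (fb z) * ENNReal.ofReal (20 * K * s) :=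
            lintegral_add_left' hmeas _
        _ ≤ _ := by
          apply add_le_add hcomp
          rw [lintegral_mul_const' _ _ ENNReal.ofReal_ne_top]
          calc (∫⁻ z in A, ENNReal.ofReal (fb z)) * ENNReal.ofReal (20 * K * s)
              ≤ ENNReal.ofReal (CH * D) * ENNReal.ofReal (20 * K * s) := by
                gcongr
                exact (lintegral_mono_set hAsub).trans hH
            _ = ENNReal.ofReal (CH * D * (20 * K * s)) := by rw [← ENNReal.ofReal_mul (by positivity)]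
    · refine le_trans ?_ hN
      apply setLIntegral_mono' hm1
      intro z _
      apply ENNReal.ofReal_le_ofReal
      calc χ z * fb z ≤ 1 * fb z := mul_le_mul_of_nonneg_right (hχ01 z).2 (hfb0 z)
        _ = fb z := one_mul _
  -- the other side
  have hIΓ : (∫⁻ x in G, ENNReal.ofReal (f x) * ENNReal.ofReal (χ x)) + (∫⁻ x in NN P Q (s / 6), ENNReal.ofReal (f x) * ENNReal.ofReal (χ x)) ≤
      ENNReal.ofReal (∫ z, χ z * f z) := by
    rw [ofReal_integral_eq_lintegral_ofReal hIf (Eventually.of_forall (fun z => mul_nonneg (hχ01 z).1 (hf0 z)))]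
    have hdis : Disjoint G (NN P Q (s / 6)) := by
      rw [hG, BSH_A]
      exact disjoint_sdiff_left
    rw [← lintegral_union hm2 hdis]
    have h5 : ∀ z, ENNReal.ofReal (f z) * ENNReal.ofReal (χ z) = ENNReal.ofReal (χ z * f z) := by
      intro z
      rw [mul_comm (χ z), ENNReal.ofReal_mul (hf0 z)]
    simp only [h5]
    exact setLIntegral_le_lintegral _ _
  have hgoal : ∫⁻ x in NN P Q (s / 6) ∩ ball 0 (2 / 5), ENNReal.ofReal (f x) ≤
      ∫⁻ x in NN P Q (s / 6), ENNReal.ofReal (f x) * ENNReal.ofReal (χ x) := by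
    calc ∫⁻ x in NN P Q (s / 6) ∩ ball 0 (2 / 5), ENNReal.ofReal (f x)
        = ∫⁻ x in NN P Q (s / 6) ∩ ball 0 (2 / 5), ENNReal.ofReal (f x) * ENNReal.ofReal (χ x) := by
          apply setLIntegral_congr_fun (hm2.inter measurableSet_ball)
          intro z hz
          show ENNReal.ofReal (f z) = ENNReal.ofReal (f z) * ENNReal.ofReal (χ z)
          rw [hχ1 z hz.2, ENNReal.ofReal_one, mul_one]
      _ ≤ _ := lintegral_mono_set inter_subset_left
  refine hgoal.trans ?_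
  -- real numbers
  set g : ℝ≥0∞ := ∫⁻ x in G, ENNReal.ofReal (f x) * ENNReal.ofReal (χ x) with hg
  set n : ℝ≥0∞ := ∫⁻ x in NN P Q (s / 6), ENNReal.ofReal (f x) * ENNReal.ofReal (χ x) with hn
  have hgn : g + n ≠ ⊤ := ne_top_of_le_ne_top ENNReal.ofReal_ne_top hIΓ
  have hg' : g ≠ ⊤ := fun h => hgn (by rw [h, top_add])
  have hn' : n ≠ ⊤ := fun h => hgn (by rw [h, add_top])
  have hIf0 : 0 ≤ ∫ z, χ z * f z := integral_nonneg (fun z => mul_nonneg (hχ01 z).1 (hf0 z))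
  have hIfb0 : 0 ≤ ∫ z, χ z * fb z := integral_nonneg (fun z => mul_nonneg (hχ01 z).1 (hfb0 z))
  have r1 : g.toReal + n.toReal ≤ ∫ z, χ z * f z := by
    rw [← ENNReal.toReal_add hg' hn']
    exact ENNReal.toReal_le_of_le_ofReal hIf0 hIΓ
  have r2 : ∫ z, χ z * fb z ≤ g.toReal + CH * D * (20 * K * s) + D * β := by
    have h5 : g + ENNReal.ofReal (CH * D * (20 * K * s)) + ENNReal.ofReal (D * β) =
        ENNReal.ofReal (g.toReal + CH * D * (20 * K * s) + D * β) := by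
      rw [ENNReal.ofReal_add (by positivity) (by positivity), ENNReal.ofReal_add ENNReal.toReal_nonneg (by positivity),
        ENNReal.ofReal_toReal hg']
    rw [h5] at hIb
    exact (ENNReal.ofReal_le_ofReal_iff (by positivity)).mp hIb
  have r3 : n.toReal ≤ D * (β + (6 * M * C0 + 20 * K * CH + 1) * s ^ α) := by
    have e1 : CH * D * (20 * K * s) ≤ CH * D * (20 * K * s ^ α) := by gcongr
    have e2 : 0 ≤ D * s ^ α := by positivity
    nlinarith
  rw [← ENNReal.ofReal_toReal hn']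
  exact ENNReal.ofReal_le_ofReal r3

end Pool.Agent.P2U

open scoped ContDiff Topology ComplexConjugate ENNReal
open MeasureTheory Filter Set Metric

namespace Pool.Agent.P2B

open Pool.Agent.P2 Pool.Agent.P2I

theorem BSH (hUGRN : P2U.UGRN_stmt) (hUAFW : P2U.UAFW_stmt) (hUJAC : P2U.UJAC_stmt) (hUHX : P2U.UHX_stmt)
    (hUUNI : P2U.UUNI_stmt) (hUSHR : P2U.USHR_stmt) (hUMEA : P2U.UMEA_stmt) (hUNUL : P2U.UNUL_stmt)
    (hUSNG : P2U.USNG_stmt) : BSH_stmt := by
  intro C0 α hC0 hα0 hα1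
  obtain ⟨χ, hχ2, hcs, hts, hχ01, hχ1, ⟨K, hK, hχl⟩, hLc, hL0, M, hM0, hM⟩ := P2U.BSH_chi
  obtain ⟨CH, hCH0, hCH⟩ := hUHX (2 * C0) α (by linarith) hα0 hα1
  refine ⟨6 * M * C0 + 20 * K * CH + 1, by positivity, ?_⟩
  intro P Q u D τ hdat _ s β hs hs1 hsτ hsD hβ b hb hm1 hN
  have hτ : 0 < τ := by linarith
  have hD1 : 1 ≤ D := by
    refine le_trans ?_ hsD
    rw [le_div_iff₀ hs]
    linarith
  have hdat' := P2U.BSH_dat (by linarith) hα0 hα1 hdat hs1 hs hsτ hb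
  have hH := hCH (P2U.sh b P) (P2U.sh b Q) _ D (τ / 2) hdat' hD1 0 (by rw [norm_zero]; positivity)
  exact P2U.BSH_final hUGRN hUAFW hUJAC hUUNI hUSHR hUMEA hUNUL hUSNG χ K M CH hχ2 hcs hts hχ01 hχ1 hK hχl hLc hL0
    hM0 hM hCH0.le hC0 hα0 hα1 hdat hs hs1 hsτ hsD hβ hb hm1 hH hN

end Pool.Agent.P2B
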