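import Pool.Agent.helper56.P2.SpecU

/-!
Row p2:BSH (MP_063734_an), part a: geometry of the branches under a shear.
-/

set_option autoImplicit false

namespace Pool.Agent.P2U

open MeasureTheory Set Filter Topology Metric Complex
open scoped ENNReal ContDiff

/-- `ζ` is not a critical value -/
def BSH_Reg (P Q : ℂ × ℂ → ℂ) (r : ℝ) (ζ : ℂ) : Prop :=
  ∀ p ∈ TB 2 r, P p = ζ * Q p → ¬ (cx P Q p = 0 ∧ cv P Q p = 0)

theorem BSH_along {P Q : ℂ × ℂ → ℂ} {r : ℝ} (h : Hol P Q 2 r) {ζ x0 : ℂ} {R : ℝ} {X : ℂ → ℂ} (hR : R ≤ r)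
    (hX : Br P Q R x0 X) (hQ : Q (x0, 0) ≠ 0) (hζ : P (x0, 0) = ζ * Q (x0, 0)) :
    ∀ w ∈ ball (0 : ℂ) R, P (X w, w) = ζ * Q (X w, w) ∧ cx P Q (X w, w) * deriv X w + cv P Q (X w, w) = 0 := by
  have h1 : ∀ w ∈ ball (0 : ℂ) R, P (X w, w) = ζ * Q (X w, w) := by
    intro w hw
    have h2 := hX.eq w hw
    rw [hζ] at h2
    have h3 : (P (X w, w) - ζ * Q (X w, w)) * Q (x0, 0) = 0 := by linear_combination h2
    rcases mul_eq_zero.mp h3 with h4 | h4
    · exact sub_eq_zero.mp h4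
    · exact absurd h4 hQ
  intro w hw
  refine ⟨h1 w hw, ?_⟩
  have hmem : (X w, w) ∈ TB 2 r := by
    refine ⟨lt_trans (hX.lt w hw) (by norm_num), ?_⟩
    rw [mem_ball_zero_iff] at hw
    exact lt_of_lt_of_le hw hR
  have hXd : HasDerivAt X (deriv X w) w := (hX.an.differentiableAt (isOpen_ball.mem_nhds hw)).hasDerivAt
  have hpair : HasDerivAt (fun w => (X w, w)) (deriv X w, (1 : ℂ)) w := hXd.prodMk (hasDerivAt_id w)
  have hP : HasFDerivAt P (fderiv ℂ P (X w, w)) (X w, w) := (h.hP _ hmem).differentiableAt.hasFDerivAt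
  have hQ' : HasFDerivAt Q (fderiv ℂ Q (X w, w)) (X w, w) := (h.hQ _ hmem).differentiableAt.hasFDerivAt
  have hPc : HasDerivAt (fun w => P (X w, w)) (fderiv ℂ P (X w, w) (deriv X w, 1)) w :=
    HasFDerivAt.comp_hasDerivAt (f := fun w => (X w, w)) w hP hpair
  have hQc : HasDerivAt (fun w => Q (X w, w)) (fderiv ℂ Q (X w, w) (deriv X w, 1)) w :=
    HasFDerivAt.comp_hasDerivAt (f := fun w => (X w, w)) w hQ' hpair
  have hdiff := hPc.sub (hQc.const_mul ζ)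
  have hzero : HasDerivAt (fun w => P (X w, w) - ζ * Q (X w, w)) 0 w := by
    have h2 : (fun w => P (X w, w) - ζ * Q (X w, w)) =ᶠ[𝓝 w] fun _ => 0 := by
      filter_upwards [isOpen_ball.mem_nhds hw] with z hz
      rw [h1 z hz, sub_self]
    exact (hasDerivAt_const w (0 : ℂ)).congr_of_eventuallyEq h2
  have he := hdiff.unique hzero
  have hlin : ∀ L : ℂ × ℂ →L[ℂ] ℂ, L (deriv X w, 1) = deriv X w * L (1, 0) + L (0, 1) := by
    intro L
    have h3 : ((deriv X w, 1) : ℂ × ℂ) = deriv X w • ((1, 0) : ℂ × ℂ) + (0, 1) := by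
      ext
      · simp
      · simp
    rw [h3, map_add, map_smul, smul_eq_mul]
  rw [hlin, hlin] at he
  unfold cx cv dx dv
  rw [h1 w hw]
  linear_combination Q (X w, w) * he

theorem BSH_cx_ne {P Q : ℂ × ℂ → ℂ} {r : ℝ} (h : Hol P Q 2 r) {ζ x0 : ℂ} {R : ℝ} {X : ℂ → ℂ} (hR : R ≤ r)
    (hX : Br P Q R x0 X) (hQ : Q (x0, 0) ≠ 0) (hζ : P (x0, 0) = ζ * Q (x0, 0)) (hreg : BSH_Reg P Q r ζ) :
    ∀ w ∈ ball (0 : ℂ) R, cx P Q (X w, w) ≠ 0 := by
  intro w hw h0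
  obtain ⟨h1, h2⟩ := BSH_along h hR hX hQ hζ w hw
  rw [h0, zero_mul, zero_add] at h2
  have hmem : (X w, w) ∈ TB 2 r := by
    refine ⟨lt_trans (hX.lt w hw) (by norm_num), ?_⟩
    rw [mem_ball_zero_iff] at hw
    exact lt_of_lt_of_le hw hR
  exact hreg _ hmem h1 ⟨h0, h2⟩

/-- two branches over the same value which meet agree -/
theorem BSH_meet (hUUNI : UUNI_stmt) {P Q : ℂ × ℂ → ℂ} {r : ℝ} (h : Hol P Q 2 r) {ζ x0 x0' : ℂ} {R : ℝ}
    {X X' : ℂ → ℂ} (hR : R ≤ r) (hX : Br P Q R x0 X) (hX' : Br P Q R x0' X')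
    (hQ : Q (x0, 0) ≠ 0) (hζ : P (x0, 0) = ζ * Q (x0, 0)) (hQ' : Q (x0', 0) ≠ 0) (hζ' : P (x0', 0) = ζ * Q (x0', 0))
    (hreg : BSH_Reg P Q r ζ) {w0 : ℂ} (hw0 : w0 ∈ ball (0 : ℂ) R) (hm : X w0 = X' w0) : x0 = x0' := by
  have hw0' : ‖w0‖ < R := by rwa [mem_ball_zero_iff] at hw0
  have hR0 : 0 < R := lt_of_le_of_lt (norm_nonneg _) hw0'
  set P' : ℂ × ℂ → ℂ := fun p => P (p.1, p.2 + w0) with hP'
  set Q' : ℂ × ℂ → ℂ := fun p => Q (p.1, p.2 + w0) with hQ'def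
  have hmap : ∀ p ∈ TB 2 (r - ‖w0‖), ((p.1, p.2 + w0) : ℂ × ℂ) ∈ TB 2 r := by
    intro p hp
    refine ⟨hp.1, ?_⟩
    calc ‖p.2 + w0‖ ≤ ‖p.2‖ + ‖w0‖ := norm_add_le _ _
      _ < r := by have := hp.2; linarith
  have hshift : ∀ p : ℂ × ℂ, AnalyticAt ℂ (fun p : ℂ × ℂ => ((p.1, p.2 + w0) : ℂ × ℂ)) p := by
    intro p
    exact analyticAt_fst.prod (analyticAt_snd.add analyticAt_const)
  have hHol' : Hol P' Q' 2 (r - ‖w0‖) := by
    refine ⟨?_, ?_, ?_⟩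
    · intro p hp
      exact AnalyticAt.fun_comp (f := fun p : ℂ × ℂ => ((p.1, p.2 + w0) : ℂ × ℂ)) (h.hP _ (hmap p hp)) (hshift p)
    · intro p hp
      exact AnalyticAt.fun_comp (f := fun p : ℂ × ℂ => ((p.1, p.2 + w0) : ℂ × ℂ)) (h.hQ _ (hmap p hp)) (hshift p)
    · intro p hp
      exact h.ne _ (hmap p hp)
  have hfd : ∀ (f : ℂ × ℂ → ℂ) (p : ℂ × ℂ), fderiv ℂ (fun p : ℂ × ℂ => f (p.1, p.2 + w0)) p = fderiv ℂ f (p.1, p.2 + w0) := by
    intro f p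
    have h1 : (fun p : ℂ × ℂ => f (p.1, p.2 + w0)) = fun p => f (p + (0, w0)) := by
      funext p
      congr 1
      ext
      · simp
      · simp
    rw [h1, fderiv_comp_add_right]
    congr 1
    ext
    · simp
    · simp
  have hcx : cx P' Q' (X w0, 0) = cx P Q (X w0, w0) := by
    unfold cx dx
    rw [hP', hQ'def]
    simp only [hfd, zero_add]
  have hball : ∀ w ∈ ball (0 : ℂ) (R - ‖w0‖), w + w0 ∈ ball (0 : ℂ) R := by
    intro w hw
    rw [mem_ball_zero_iff] at hw ⊢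
    calc ‖w + w0‖ ≤ ‖w‖ + ‖w0‖ := norm_add_le _ _
      _ < R := by linarith
  have hBr : ∀ (Y : ℂ → ℂ) (y0 : ℂ), Br P Q R y0 Y → Q (y0, 0) ≠ 0 → P (y0, 0) = ζ * Q (y0, 0) →
      Br P' Q' (R - ‖w0‖) (Y w0) (fun w => Y (w + w0)) := by
    intro Y y0 hY hq hz
    have hal := BSH_along h hR hY hq hz
    refine ⟨?_, ?_, ?_, ?_⟩
    · exact hY.an.comp (by fun_prop) hball
    · show Y (0 + w0) = Y w0
      rw [zero_add]
    · intro w hw
      exact hY.lt _ (hball w hw)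
    · intro w hw
      show P (Y (w + w0), w + w0) * Q (Y w0, 0 + w0) = Q (Y (w + w0), w + w0) * P (Y w0, 0 + w0)
      rw [zero_add, (hal _ (hball w hw)).1, (hal _ hw0).1]
      ring
  have hB1 := hBr X x0 hX hQ hζ
  have hB2 := hBr X' x0' hX' hQ' hζ'
  rw [← hm] at hB2
  have hne := BSH_cx_ne h hR hX hQ hζ hreg w0 hw0
  have huni := hUUNI P' Q' (r - ‖w0‖) hHol' (X w0) (R - ‖w0‖) (R - ‖w0‖) _ _ (hX.lt _ hw0) (by rw [hcx]; exact hne)
    (by linarith) le_rfl (by linarith) hB1 hB2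
  have hev : X =ᶠ[𝓝 w0] X' := by
    have h1 : ball w0 (R - ‖w0‖) ∈ 𝓝 w0 := ball_mem_nhds _ (by linarith)
    filter_upwards [h1] with z hz
    have h2 : z - w0 ∈ ball (0 : ℂ) (R - ‖w0‖) := by
      rw [mem_ball_zero_iff]
      rwa [mem_ball, dist_eq_norm] at hz
    have h3 := huni h2
    simpa using h3
  have hEq := (hX.an.analyticOnNhd isOpen_ball).eqOn_of_preconnected_of_eventuallyEq (hX'.an.analyticOnNhd isOpen_ball)
    (convex_ball (0 : ℂ) R).isPreconnected hw0 hev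
  have h0 := hEq (mem_ball_self hR0)
  rw [hX.ini, hX'.ini] at h0
  exact h0

theorem BSH_der {X : ℂ → ℂ} {s : ℝ} (hs : 0 < s) (hX : DifferentiableOn ℂ X (ball 0 (s / 4)))
    (hb : ∀ w ∈ ball (0 : ℂ) (s / 4), ‖X w‖ < 1) :
    ∀ w ∈ ball (0 : ℂ) (s / 5), ‖deriv X w‖ ≤ 20 / s := by
  intro w hw
  have hw' : ‖w‖ < s / 5 := by rwa [mem_ball_zero_iff] at hw
  have hcb : closedBall w (s / 20) ⊆ ball (0 : ℂ) (s / 4) := by
    intro z hz
    rw [mem_closedBall, dist_eq_norm] at hz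
    rw [mem_ball_zero_iff]
    calc ‖z‖ = ‖(z - w) + w‖ := by congr 1; ring
      _ ≤ ‖z - w‖ + ‖w‖ := norm_add_le _ _
      _ < s / 4 := by linarith
  have h1 : DiffContOnCl ℂ X (ball w (s / 20)) := by
    apply DifferentiableOn.diffContOnCl
    rw [closure_ball w (by positivity)]
    exact hX.mono hcb
  have h2 := Complex.norm_deriv_le_of_forall_mem_sphere_norm_le (C := 1) (by positivity : 0 < s / 20) h1
    (fun z hz => (hb z (hcb (sphere_subset_closedBall hz))).le)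
  calc ‖deriv X w‖ ≤ 1 / (s / 20) := h2
    _ = 20 / s := by field_simp

theorem BSH_lip {X : ℂ → ℂ} {s : ℝ} (hs : 0 < s) (hX : DifferentiableOn ℂ X (ball 0 (s / 4)))
    (hb : ∀ w ∈ ball (0 : ℂ) (s / 4), ‖X w‖ < 1) :
    ∀ w ∈ ball (0 : ℂ) (s / 5), ∀ w' ∈ ball (0 : ℂ) (s / 5), ‖X w - X w'‖ ≤ 20 / s * ‖w - w'‖ := by
  have hsub : ball (0 : ℂ) (s / 5) ⊆ ball (0 : ℂ) (s / 4) := ball_subset_ball (by linarith)
  intro w hw w' hw'
  exact (convex_ball (0 : ℂ) (s / 5)).norm_image_sub_le_of_norm_deriv_le (f := X)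
    (fun z hz => hX.differentiableAt (isOpen_ball.mem_nhds (hsub hz))) (BSH_der hs hX hb) hw' hw

/-- unshearing of a branch -/
theorem BSH_jump {X : ℂ → ℂ} {s : ℝ} {b x0 : ℂ} (hs : 0 < s) (hs1 : s ≤ 1 / 40) (hb : ‖b‖ < s ^ 2)
    (hX : DifferentiableOn ℂ X (ball 0 (s / 4))) (hX0 : X 0 = x0) (hXb : ∀ w ∈ ball (0 : ℂ) (s / 4), ‖X w‖ < 1) :
    ∃ (w0 : ℂ) (Xt : ℂ → ℂ), w0 ∈ ball (0 : ℂ) (s / 5) ∧ w0 = - (b * X w0) ∧ ‖X w0 - x0‖ ≤ 20 * s ∧
      DifferentiableOn ℂ Xt (ball 0 (s / 6)) ∧ Xt 0 = X w0 ∧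
      ∀ v ∈ ball (0 : ℂ) (s / 6), ∃ w ∈ ball (0 : ℂ) (s / 5), Xt v = X w ∧ v = w + b * X w := by
  have hsub : ball (0 : ℂ) (s / 5) ⊆ ball (0 : ℂ) (s / 4) := ball_subset_ball (by linarith)
  have hlip := BSH_lip hs hX hXb
  have hs2 : s ^ 2 ≤ s / 40 := by nlinarith
  have hbs : ‖b‖ * (20 / s) ≤ 1 / 2 := by
    have h1 : ‖b‖ * (20 / s) ≤ s ^ 2 * (20 / s) := mul_le_mul_of_nonneg_right hb.le (by positivity)
    have h2 : s ^ 2 * (20 / s) = 20 * s := by field_simp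
    rw [h2] at h1
    linarith
  have hbX : ∀ w ∈ ball (0 : ℂ) (s / 5), ‖b * X w‖ ≤ s ^ 2 := by
    intro w hw
    rw [norm_mul]
    calc ‖b‖ * ‖X w‖ ≤ s ^ 2 * 1 := mul_le_mul hb.le (hXb w (hsub hw)).le (norm_nonneg _) (by positivity)
      _ = s ^ 2 := mul_one _
  -- the map H and its lower Lipschitz bound
  have hlow : ∀ w ∈ ball (0 : ℂ) (s / 5), ∀ w' ∈ ball (0 : ℂ) (s / 5),
      ‖w - w'‖ ≤ 2 * ‖(w + b * X w) - (w' + b * X w')‖ := by
    intro w hw w' hw'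
    have h1 : ‖b * X w - b * X w'‖ ≤ 1 / 2 * ‖w - w'‖ := by
      rw [← mul_sub, norm_mul]
      calc ‖b‖ * ‖X w - X w'‖ ≤ ‖b‖ * (20 / s * ‖w - w'‖) := mul_le_mul_of_nonneg_left (hlip w hw w' hw') (norm_nonneg _)
        _ = ‖b‖ * (20 / s) * ‖w - w'‖ := by ring
        _ ≤ 1 / 2 * ‖w - w'‖ := mul_le_mul_of_nonneg_right hbs (norm_nonneg _)
    have h2 : w - w' = ((w + b * X w) - (w' + b * X w')) - (b * X w - b * X w') := by ring
    have h3 : ‖w - w'‖ ≤ ‖(w + b * X w) - (w' + b * X w')‖ + ‖b * X w - b * X w'‖ := by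
      calc ‖w - w'‖ = ‖((w + b * X w) - (w' + b * X w')) - (b * X w - b * X w')‖ := by rw [← h2]
        _ ≤ _ := norm_sub_le _ _
    linarith
  -- solvability
  have hsol : ∀ v ∈ ball (0 : ℂ) (s / 6), ∃ w ∈ ball (0 : ℂ) (s / 5), w + b * X w = v := by
    intro v hv
    rw [mem_ball_zero_iff] at hv
    set ρ : ℝ := 96 / 500 * s with hρ
    have hρs : closedBall (0 : ℂ) ρ ⊆ ball (0 : ℂ) (s / 5) := closedBall_subset_ball (by rw [hρ]; linarith)
    set T : ℂ → ℂ := fun w => v - b * X w with hT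
    have hmaps : MapsTo T (closedBall (0 : ℂ) ρ) (closedBall (0 : ℂ) ρ) := by
      intro w hw
      rw [mem_closedBall_zero_iff]
      calc ‖T w‖ = ‖v - b * X w‖ := rfl
        _ ≤ ‖v‖ + ‖b * X w‖ := norm_sub_le _ _
        _ ≤ ρ := by
          have := hbX w (hρs hw)
          rw [hρ]
          linarith
    have hcontr : ContractingWith (1 / 2) (hmaps.restrict T _ _) := by
      refine ⟨by
        rw [div_lt_one (by norm_num)]
        norm_num, ?_⟩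
      apply LipschitzWith.of_dist_le_mul
      intro x y
      rw [Subtype.dist_eq, Subtype.dist_eq, dist_eq_norm, dist_eq_norm]
      show ‖T x.1 - T y.1‖ ≤ ((1 / 2 : NNReal) : ℝ) * ‖x.1 - y.1‖
      have h1 : T x.1 - T y.1 = b * (X y.1 - X x.1) := by
        rw [hT]
        ring
      rw [h1, norm_mul]
      have h2 := hlip y.1 (hρs y.2) x.1 (hρs x.2)
      calc ‖b‖ * ‖X y.1 - X x.1‖ ≤ ‖b‖ * (20 / s * ‖y.1 - x.1‖) := mul_le_mul_of_nonneg_left h2 (norm_nonneg _)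
        _ = ‖b‖ * (20 / s) * ‖x.1 - y.1‖ := by rw [norm_sub_rev y.1 x.1]; ring
        _ ≤ ((1 / 2 : NNReal) : ℝ) * ‖x.1 - y.1‖ := by
          have h3 : ((1 / 2 : NNReal) : ℝ) = 1 / 2 := by norm_num
          rw [h3]
          exact mul_le_mul_of_nonneg_right hbs (norm_nonneg _)
    have h0m : (0 : ℂ) ∈ closedBall (0 : ℂ) ρ := mem_closedBall_self (by rw [hρ]; positivity)
    obtain ⟨w, hw, hfix, _⟩ := hcontr.exists_fixedPoint' (isClosed_closedBall.isComplete) hmaps h0m (edist_ne_top _ _)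
    refine ⟨w, hρs hw, ?_⟩
    have h4 : T w = w := hfix
    rw [hT] at h4
    simp only at h4
    linear_combination -h4
  choose! W hWm hWe using hsol
  have hWl : ∀ v ∈ ball (0 : ℂ) (s / 6), ∀ v' ∈ ball (0 : ℂ) (s / 6), ‖W v - W v'‖ ≤ 2 * ‖v - v'‖ := by
    intro v hv v' hv'
    have h1 := hlow (W v) (hWm v hv) (W v') (hWm v' hv')
    rw [hWe v hv, hWe v' hv'] at h1
    exact h1
  have hWc : ∀ v ∈ ball (0 : ℂ) (s / 6), ContinuousAt W v := by
    intro v hv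
    rw [Metric.continuousAt_iff]
    intro ε hε
    obtain ⟨d, hd, hdb⟩ := Metric.isOpen_iff.mp isOpen_ball v hv
    refine ⟨min d (ε / 2), lt_min hd (by positivity), ?_⟩
    intro z hz
    have hz1 : z ∈ ball v d := lt_of_lt_of_le hz (min_le_left _ _)
    have hz2 : dist z v < ε / 2 := lt_of_lt_of_le hz (min_le_right _ _)
    rw [dist_eq_norm] at hz2 ⊢
    have := hWl z (hdb hz1) v hv
    linarith
  have hWd : DifferentiableOn ℂ W (ball 0 (s / 6)) := by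
    intro v hv
    have hWv := hWm v hv
    have hXd : HasDerivAt X (deriv X (W v)) (W v) :=
      (hX.differentiableAt (isOpen_ball.mem_nhds (hsub hWv))).hasDerivAt
    have hH : HasDerivAt (fun w => w + b * X w) (1 + b * deriv X (W v)) (W v) :=
      (hasDerivAt_id (W v)).add (hXd.const_mul b)
    have hne : 1 + b * deriv X (W v) ≠ 0 := by
      intro h0
      have h1 : ‖deriv X (W v)‖ ≤ 20 / s := BSH_der hs hX hXb _ hWv
      have h2 : ‖b * deriv X (W v)‖ ≤ 1 / 2 := by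
        rw [norm_mul]
        exact (mul_le_mul_of_nonneg_left h1 (norm_nonneg _)).trans hbs
      have h3 : b * deriv X (W v) = -1 := by linear_combination h0
      rw [h3, norm_neg, norm_one] at h2
      norm_num at h2
    have hloc : ∀ᶠ y in 𝓝 v, (fun w => w + b * X w) (W y) = y := by
      filter_upwards [isOpen_ball.mem_nhds hv] with y hy
      exact hWe y hy
    exact (HasDerivAt.of_local_left_inverse (hWc v hv) hH hne hloc).differentiableAt.differentiableWithinAt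
  have h0m : (0 : ℂ) ∈ ball (0 : ℂ) (s / 6) := mem_ball_self (by positivity)
  refine ⟨W 0, fun v => X (W v), hWm 0 h0m, ?_, ?_, ?_, rfl, ?_⟩
  · have h1 := hWe 0 h0m
    linear_combination h1
  · have h1 : W 0 = - (b * X (W 0)) := by
      have h1 := hWe 0 h0m
      linear_combination h1
    have h2 : ‖W 0‖ ≤ s ^ 2 := by
      rw [h1, norm_neg]
      exact hbX _ (hWm 0 h0m)
    have h3 := hlip (W 0) (hWm 0 h0m) 0 (mem_ball_self (by positivity))
    rw [hX0, sub_zero] at h3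
    calc ‖X (W 0) - x0‖ ≤ 20 / s * ‖W 0‖ := h3
      _ ≤ 20 / s * s ^ 2 := mul_le_mul_of_nonneg_left h2 (by positivity)
      _ = 20 * s := by field_simp
  · exact hX.comp hWd (fun v hv => hsub (hWm v hv))
  · intro v hv
    exact ⟨W v, hWm v hv, rfl, (hWe v hv).symm⟩

end Pool.Agent.P2U
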