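import Pool.Agent.helper1.P2.BSHa
import Pool.Agent.helper5.P2.ULWX

/-!
Row p2:BSH (MP_063734_an), part b: area formula with weights, cut-off, Green's formula.
-/

set_option autoImplicit false

namespace Pool.Agent.P2U

open MeasureTheory Set Filter Topology Metric Complex
open scoped ENNReal ContDiff

/-- density of the crossings on the slice -/
noncomputable def BSH_dens (P Q : ℂ × ℂ → ℂ) (x : ℂ) : ℝ := ‖cx P Q (x, 0)‖ ^ 2 * om P Q (x, 0)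

theorem BSH_TB_open (a r : ℝ) : IsOpen (TB a r) := by
  apply IsOpen.inter
  · exact isOpen_lt continuous_fst.norm continuous_const
  · exact isOpen_lt continuous_snd.norm continuous_const

theorem BSH_dx_an {f : ℂ × ℂ → ℂ} {U : Set (ℂ × ℂ)} (h : AnalyticOnNhd ℂ f U) (v : ℂ × ℂ) :
    AnalyticOnNhd ℂ (fun p => fderiv ℂ f p v) U := by
  intro p hp
  have h1 := h.fderiv p hp
  exact (ContinuousLinearMap.apply ℂ ℂ v).analyticAt _ |>.comp h1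

theorem BSH_cx_an {P Q : ℂ × ℂ → ℂ} {a r : ℝ} (h : Hol P Q a r) : AnalyticOnNhd ℂ (cx P Q) (TB a r) := by
  intro p hp
  have h1 := BSH_dx_an h.hP (1, 0) p hp
  have h2 := BSH_dx_an h.hQ (1, 0) p hp
  exact ((h.hQ p hp).mul h1).sub ((h.hP p hp).mul h2)

theorem BSH_cv_an {P Q : ℂ × ℂ → ℂ} {a r : ℝ} (h : Hol P Q a r) : AnalyticOnNhd ℂ (cv P Q) (TB a r) := by
  intro p hp
  have h1 := BSH_dx_an h.hP (0, 1) p hp
  have h2 := BSH_dx_an h.hQ (0, 1) p hp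
  exact ((h.hQ p hp).mul h1).sub ((h.hP p hp).mul h2)

theorem BSH_slice {a r : ℝ} (hr : 0 < r) {f : ℂ × ℂ → ℂ}
    (hf : AnalyticOnNhd ℂ f (TB a r)) : ContinuousOn (fun x : ℂ => f (x, 0)) (ball 0 a) := by
  intro x hx
  rw [mem_ball_zero_iff] at hx
  have hp : (x, (0 : ℂ)) ∈ TB a r := ⟨hx, by simpa using hr⟩
  have h1 : ContinuousAt f (x, 0) := (hf _ hp).continuousAt
  have h2 : ContinuousAt (fun x : ℂ => f (x, 0)) x :=
    ContinuousAt.comp (f := fun x : ℂ => ((x, 0) : ℂ × ℂ)) h1 (by fun_prop)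
  exact h2.continuousWithinAt

theorem BSH_dens_cont {P Q : ℂ × ℂ → ℂ} {a r : ℝ} (hr : 0 < r) (h : Hol P Q a r) :
    ContinuousOn (BSH_dens P Q) (ball 0 a) := by
  have h1 := BSH_slice hr (BSH_cx_an h)
  have h2 := BSH_slice hr h.hP
  have h3 := BSH_slice hr h.hQ
  have h4 : ContinuousOn (fun x : ℂ => (‖P (x, 0)‖ ^ 2 + ‖Q (x, 0)‖ ^ 2) ^ 2) (ball 0 a) :=
    ((h2.norm.pow 2).add (h3.norm.pow 2)).pow 2
  have h5 : ∀ x ∈ ball (0 : ℂ) a, (‖P (x, 0)‖ ^ 2 + ‖Q (x, 0)‖ ^ 2) ^ 2 ≠ 0 := by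
    intro x hx
    rw [mem_ball_zero_iff] at hx
    have hp : (x, (0 : ℂ)) ∈ TB a r := ⟨hx, by simpa using hr⟩
    have h6 : 0 < ‖P (x, 0)‖ ^ 2 + ‖Q (x, 0)‖ ^ 2 := by
      rcases h.ne _ hp with h7 | h7
      · have := norm_pos_iff.mpr h7
        positivity
      · have := norm_pos_iff.mpr h7
        positivity
    positivity
  exact (h1.norm.pow 2).mul (h4.inv₀ h5)

theorem BSH_dens_nonneg (P Q : ℂ × ℂ → ℂ) (x : ℂ) : 0 ≤ BSH_dens P Q x := by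
  unfold BSH_dens om
  positivity

theorem BSH_open {P Q : ℂ × ℂ → ℂ} {a r c : ℝ} (hr : 0 < r) (h : Hol P Q a r) (hc : c ≤ a) :
    IsOpen {x : ℂ | x ∈ ball (0 : ℂ) c ∧ cx P Q (x, 0) ≠ 0 ∧ Q (x, 0) ≠ 0} ∧
    IsOpen {x : ℂ | x ∈ ball (0 : ℂ) c ∧ cx P Q (x, 0) ≠ 0} := by
  have hsub : ball (0 : ℂ) c ⊆ ball 0 a := ball_subset_ball hc
  have h1 := ((BSH_slice hr (BSH_cx_an h)).mono hsub).isOpen_inter_preimage isOpen_ball (isOpen_compl_singleton (x := (0 : ℂ)))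
  have h2 := ((BSH_slice hr h.hQ).mono hsub).isOpen_inter_preimage isOpen_ball (isOpen_compl_singleton (x := (0 : ℂ)))
  constructor
  · have h3 := h1.inter h2
    have h4 : {x : ℂ | x ∈ ball (0 : ℂ) c ∧ cx P Q (x, 0) ≠ 0 ∧ Q (x, 0) ≠ 0} =
        (ball 0 c ∩ (fun x : ℂ => cx P Q (x, 0)) ⁻¹' {0}ᶜ) ∩ (ball 0 c ∩ (fun x : ℂ => Q (x, 0)) ⁻¹' {0}ᶜ) := by
      ext x
      simp only [Set.mem_ofPred_eq, mem_inter_iff, mem_preimage, mem_compl_iff, mem_singleton_iff]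
      tauto
    rw [h4]
    exact h3
  · exact h1

theorem BSH_gz_meas : Measurable gz := by
  unfold gz
  apply Measurable.ennreal_ofReal
  have h1 : Continuous fun z : ℂ => ((1 + ‖z‖ ^ 2) ^ 2 : ℝ) := by fun_prop
  exact h1.measurable.inv

theorem BSH_area (hAFW : UAFW_stmt) (hJAC : UJAC_stmt) {P Q : ℂ × ℂ → ℂ} {r : ℝ} (hr : 0 < r) (h : Hol P Q 2 r)
    (S : Set ℂ) (hS : MeasurableSet S) (hSx : ∀ x ∈ S, ‖x‖ < 2 ∧ cx P Q (x, 0) ≠ 0 ∧ Q (x, 0) ≠ 0)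
    (φ : ℂ → ℝ≥0∞) (hφ : Measurable φ) :
    ∫⁻ x in S, ENNReal.ofReal (BSH_dens P Q x) * φ x =
      ∫⁻ ζ, gz ζ * ∑' x : {x : ℂ // x ∈ S ∧ P (x, 0) / Q (x, 0) = ζ}, φ x := by
  classical
  have hj : ∀ x ∈ S, ∃ A : ℂ →L[ℝ] ℂ, HasFDerivAt (fun x : ℂ => P (x, 0) / Q (x, 0)) A x ∧
      |A.det| = ‖cx P Q (x, 0)‖ ^ 2 / ‖Q (x, 0)‖ ^ 4 := by
    intro x hx
    obtain ⟨h1, h2, h3⟩ := hSx x hx
    exact (hJAC P Q 2 r h (x, 0) ⟨h1, by simpa using hr⟩ h3).2.2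
  choose A hA using hj
  let F' : ℂ → ℂ →L[ℝ] ℂ := fun x => if hx : x ∈ S then A x hx else 0
  have hF' : ∀ x ∈ S, HasFDerivAt (fun x : ℂ => P (x, 0) / Q (x, 0)) (F' x) x ∧
      |(F' x).det| = ‖cx P Q (x, 0)‖ ^ 2 / ‖Q (x, 0)‖ ^ 4 := by
    intro x hx
    simp only [F', dif_pos hx]
    exact hA x hx
  have hdet : ∀ x ∈ S, (F' x).det ≠ 0 := by
    intro x hx h0
    have h1 := (hF' x hx).2
    rw [h0, abs_zero] at h1
    obtain ⟨h3, h4, h5⟩ := hSx x hx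
    have h6 : 0 < ‖cx P Q (x, 0)‖ := norm_pos_iff.mpr h4
    have h7 : 0 < ‖Q (x, 0)‖ := norm_pos_iff.mpr h5
    have h8 : 0 < ‖cx P Q (x, 0)‖ ^ 2 / ‖Q (x, 0)‖ ^ 4 := by positivity
    linarith
  set F : ℂ → ℂ := fun x => P (x, 0) / Q (x, 0) with hF
  have hFc : ContinuousOn F S := fun x hx => (hF' x hx).1.continuousAt.continuousWithinAt
  set Ft : ℂ → ℂ := S.piecewise F (fun _ => 0) with hFt
  have hFtm : Measurable Ft := hFc.measurable_piecewise continuousOn_const hS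
  have hFte : ∀ x ∈ S, Ft x = F x := by
    intro x hx
    rw [hFt, Set.piecewise_eq_of_mem _ _ _ hx]
  set ψ : ℂ → ℝ≥0∞ := fun x => gz (Ft x) * φ x with hψ
  have hψm : Measurable ψ := (BSH_gz_meas.comp hFtm).mul hφ
  have key := (hAFW ℂ volume F F' S hS (fun x hx => (hF' x hx).1.hasFDerivWithinAt) hdet ψ hψm).1
  have e1 : ∫⁻ c in S, ENNReal.ofReal |(F' c).det| * ψ c = ∫⁻ x in S, ENNReal.ofReal (BSH_dens P Q x) * φ x := by
    apply setLIntegral_congr_fun hS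
    intro x hx
    obtain ⟨h3, h4, h5⟩ := hSx x hx
    have h7 : 0 < ‖Q (x, 0)‖ := norm_pos_iff.mpr h5
    simp only [hψ]
    rw [hFte x hx, (hF' x hx).2, gz, ← mul_assoc, ← ENNReal.ofReal_mul (by positivity)]
    congr 2
    rw [hF, BSH_dens, om]
    simp only [norm_div]
    field_simp
    ring
  have e2 : (∫⁻ y, ∑' c : {c // c ∈ S ∧ F c = y}, ψ c) = ∫⁻ ζ, gz ζ * ∑' x : {x : ℂ // x ∈ S ∧ F x = ζ}, φ x := by
    apply lintegral_congr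
    intro y
    rw [← ENNReal.tsum_mul_left]
    apply tsum_congr
    intro c
    simp only [hψ]
    rw [hFte c.1 c.2.1, c.2.2]
  rw [← e1, key, e2]

theorem BSH_chi : ∃ χ : ℂ → ℝ, ContDiff ℝ 2 χ ∧ HasCompactSupport χ ∧ tsupport χ ⊆ ball 0 (1 / 2) ∧
    (∀ x, 0 ≤ χ x ∧ χ x ≤ 1) ∧ (∀ x ∈ ball (0 : ℂ) (2 / 5), χ x = 1) ∧
    (∃ K : ℝ, 0 ≤ K ∧ ∀ x y, |χ x - χ y| ≤ K * ‖x - y‖) ∧ Continuous (Lz χ) ∧ (∀ z, z ∉ ball (0 : ℂ) (1 / 2) → Lz χ z = 0) ∧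
    ∃ M : ℝ, 0 ≤ M ∧ ∀ x, |Lz χ x| ≤ M := by
  let B : ContDiffBump (0 : ℂ) := ⟨2 / 5, 9 / 20, by norm_num, by norm_num⟩
  have hcd : ∀ n : ℕ∞, ContDiff ℝ n (B : ℂ → ℝ) := fun n => B.contDiff
  have hcs : HasCompactSupport (B : ℂ → ℝ) := B.hasCompactSupport
  have hts : tsupport (B : ℂ → ℝ) ⊆ ball (0 : ℂ) (1 / 2) := by
    rw [B.tsupport_eq]
    exact closedBall_subset_ball (by show (9 / 20 : ℝ) < 1 / 2; norm_num)
  have h2 : ContDiff ℝ 2 (B : ℂ → ℝ) := hcd 2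
  have h1 : ContDiff ℝ 1 (fderiv ℝ (B : ℂ → ℝ)) := h2.fderiv_right (by norm_num)
  have h0 : Continuous (fderiv ℝ (fderiv ℝ (B : ℂ → ℝ))) := h1.continuous_fderiv (by norm_num)
  have hLc : Continuous (Lz (B : ℂ → ℝ)) := by
    unfold Lz
    have e1 : Continuous fun z => fderiv ℝ (fderiv ℝ (B : ℂ → ℝ)) z 1 1 := (h0.clm_apply continuous_const).clm_apply continuous_const
    have e2 : Continuous fun z => fderiv ℝ (fderiv ℝ (B : ℂ → ℝ)) z I I := (h0.clm_apply continuous_const).clm_apply continuous_const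
    exact (e1.add e2).div_const 4
  have hL0 : ∀ z, z ∉ tsupport (B : ℂ → ℝ) → Lz (B : ℂ → ℝ) z = 0 := by
    intro z hz
    have e1 : z ∉ tsupport (fderiv ℝ (B : ℂ → ℝ)) := fun h => hz (tsupport_fderiv_subset ℝ h)
    have e2 : fderiv ℝ (fderiv ℝ (B : ℂ → ℝ)) z = 0 := by
      by_contra h
      exact e1 (support_fderiv_subset ℝ h)
    unfold Lz
    rw [e2]
    simp
  obtain ⟨K, hK⟩ := h2.lipschitzWith_of_hasCompactSupport hcs (by norm_num)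
  have hLcs : HasCompactSupport (Lz (B : ℂ → ℝ)) := by
    apply HasCompactSupport.of_support_subset_isCompact hcs
    intro z hz
    by_contra h
    exact hz (hL0 z h)
  obtain ⟨M, hM⟩ := hLc.bounded_above_of_compact_support hLcs
  refine ⟨B, h2, hcs, hts, fun x => ⟨B.nonneg, B.le_one⟩, ?_, ⟨K, K.2, ?_⟩, hLc, ?_, ⟨max M 0, le_max_right _ _, ?_⟩⟩
  · intro x hx
    apply B.one_of_mem_closedBall
    exact ball_subset_closedBall hx
  · intro x y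
    have := hK.dist_le_mul x y
    rwa [Real.dist_eq, dist_eq_norm] at this
  · intro z hz
    exact hL0 z (fun h => hz (hts h))
  · intro x
    have := hM x
    rw [Real.norm_eq_abs] at this
    exact this.trans (le_max_left _ _)

theorem BSH_green (hGRN : UGRN_stmt) {P Q : ℂ × ℂ → ℂ} {r : ℝ} (hr : 0 < r) (h : Hol P Q 2 r) (χ : ℂ → ℝ)
    (h2 : ContDiff ℝ 2 χ) (hcs : HasCompactSupport χ) (hts : tsupport χ ⊆ ball 0 (1 / 2)) :
    ∫ z, χ z * BSH_dens P Q z = 2 * ∫ z, (Real.log (‖P (z, 0)‖ ^ 2 + ‖Q (z, 0)‖ ^ 2) / 2) * Lz χ z := by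
  have hsub : ball (0 : ℂ) (1 / 2) ⊆ ball (0 : ℂ) 2 := ball_subset_ball (by norm_num)
  have hp : ∀ x ∈ ball (0 : ℂ) 2, (x, (0 : ℂ)) ∈ TB 2 r := by
    intro x hx
    rw [mem_ball_zero_iff] at hx
    exact ⟨hx, by simpa using hr⟩
  have han : ∀ f : ℂ × ℂ → ℂ, AnalyticOnNhd ℂ f (TB 2 r) → AnalyticOnNhd ℂ (fun z : ℂ => f (z, 0)) (ball 0 2) := by
    intro f hf z hz
    exact AnalyticAt.fun_comp (f := fun z : ℂ => ((z, 0) : ℂ × ℂ)) (hf _ (hp z hz)) (analyticAt_id.prod analyticAt_const)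
  have key := hGRN (fun z => P (z, 0)) (fun z => Q (z, 0)) 2 (han P h.hP) (han Q h.hQ) (fun z hz => h.ne _ (hp z hz)) χ h2 hcs
    (hts.trans hsub) 0
  simp only [sub_zero] at key
  rw [← key]
  apply integral_congr_ae
  filter_upwards with z
  by_cases hz : z ∈ ball (0 : ℂ) 2
  · have hz' : ‖z‖ < 2 := by rwa [mem_ball_zero_iff] at hz
    have hdQ := (ULWX_der P Q r hr h z hz').deriv
    have hsw : Hol Q P 2 r := ⟨h.hQ, h.hP, fun p hp => (h.ne p hp).symm⟩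
    have hdP := (ULWX_der Q P r hr hsw z hz').deriv
    rw [hdP, hdQ, BSH_dens, cx, om, div_eq_mul_inv]
  · have h3 : χ z = 0 := by
      by_contra h4
      exact hz (hsub (hts (subset_tsupport χ h4)))
    rw [h3, zero_mul, zero_mul]

end Pool.Agent.P2U
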