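import Pool.Agent.helper1.P2.BSHb

/-!
Row p2:BSH (MP_063734_an), part c: comparison of the slices.
-/

set_option autoImplicit false

namespace Pool.Agent.P2U

open MeasureTheory Set Filter Topology Metric Complex
open scoped ENNReal ContDiff

theorem BSH_j {P Q : ℂ × ℂ → ℂ} {s : ℝ} {b ζ x0 : ℂ} {X : ℂ → ℂ} (hs : 0 < s) (hs1 : s ≤ 1 / 40) (hb : ‖b‖ < s ^ 2)
    (h2 : Hol P Q 2 s) (hb2 : Hol (sh b P) (sh b Q) 2 s) (hreg : BSH_Reg P Q s ζ)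
    (hX : Br (sh b P) (sh b Q) (s / 4) x0 X) (hQ : sh b Q (x0, 0) ≠ 0) (hζ : sh b P (x0, 0) = ζ * sh b Q (x0, 0)) :
    ∃ w0 ∈ ball (0 : ℂ) (s / 5), w0 = -(b * X w0) ∧ ‖X w0 - x0‖ ≤ 20 * s ∧ ‖X w0‖ < 1 ∧ Q (X w0, 0) ≠ 0 ∧
      P (X w0, 0) = ζ * Q (X w0, 0) ∧ cx P Q (X w0, 0) ≠ 0 ∧ Unf P Q (s / 6) (X w0) := by
  obtain ⟨w0, Xt, hw0, hw0e, hdist, hXtd, hXt0, hXtw⟩ := BSH_jump hs hs1 hb hX.an hX.ini hX.lt
  have hsub : ball (0 : ℂ) (s / 5) ⊆ ball (0 : ℂ) (s / 4) := ball_subset_ball (by linarith)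
  have hal := BSH_along hb2 (by linarith) hX hQ hζ
  have hXt : ∀ v ∈ ball (0 : ℂ) (s / 6), ‖Xt v‖ < 1 ∧ P (Xt v, v) = ζ * Q (Xt v, v) := by
    intro v hv
    obtain ⟨w, hw, h3, h4⟩ := hXtw v hv
    rw [h3]
    refine ⟨hX.lt w (hsub hw), ?_⟩
    have h5 := (hal w (hsub hw)).1
    simp only [sh] at h5
    rw [h4]
    exact h5
  have h0 : (0 : ℂ) ∈ ball (0 : ℂ) (s / 6) := mem_ball_self (by positivity)
  have hx1 : ‖X w0‖ < 1 := hX.lt w0 (hsub hw0)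
  have hP1 : P (X w0, 0) = ζ * Q (X w0, 0) := by
    have := (hXt 0 h0).2
    rwa [hXt0] at this
  have hmem : (X w0, (0 : ℂ)) ∈ TB 2 s := ⟨by linarith, by simpa using hs⟩
  have hQ1 : Q (X w0, 0) ≠ 0 := by
    intro hq
    rcases h2.ne _ hmem with h3 | h3
    · apply h3
      rw [hP1, hq, mul_zero]
    · exact h3 hq
  have hBr : Br P Q (s / 6) (X w0) Xt := by
    refine ⟨hXtd, hXt0, fun v hv => (hXt v hv).1, ?_⟩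
    intro v hv
    rw [(hXt v hv).2, hP1]
    ring
  refine ⟨w0, hw0, hw0e, hdist, hx1, hQ1, hP1, ?_, ⟨Xt, hBr⟩⟩
  have h3 := BSH_cx_ne h2 (by linarith) hBr hQ1 hP1 hreg 0 h0
  rwa [hXt0] at h3

/-- the good points -/
def BSH_A (P Q : ℂ × ℂ → ℂ) (c r0 : ℝ) : Set ℂ :=
  {x : ℂ | x ∈ ball (0 : ℂ) c ∧ cx P Q (x, 0) ≠ 0 ∧ Q (x, 0) ≠ 0} \ NN P Q r0

theorem BSH_fib (hUUNI : UUNI_stmt) {P Q : ℂ × ℂ → ℂ} {s : ℝ} {b ζ : ℂ} (hs : 0 < s) (hs1 : s ≤ 1 / 40) (hb : ‖b‖ < s ^ 2)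
    (h2 : Hol P Q 2 s) (hb2 : Hol (sh b P) (sh b Q) 2 s) (hreg : BSH_Reg P Q s ζ) (hregb : BSH_Reg (sh b P) (sh b Q) s ζ)
    (χ : ℂ → ℝ) (K : ℝ) (hK : 0 ≤ K) (hχ : ∀ x y, |χ x - χ y| ≤ K * ‖x - y‖) :
    ∑' x : {x : ℂ // x ∈ BSH_A (sh b P) (sh b Q) (1 / 2) (s / 4) ∧ sh b P (x, 0) / sh b Q (x, 0) = ζ},
        ENNReal.ofReal (χ x - 20 * K * s) ≤
      ∑' x : {x : ℂ // x ∈ BSH_A P Q 1 (s / 6) ∧ P (x, 0) / Q (x, 0) = ζ}, ENNReal.ofReal (χ x) := by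
  have hex : ∀ x : {x : ℂ // x ∈ BSH_A (sh b P) (sh b Q) (1 / 2) (s / 4) ∧ sh b P (x, 0) / sh b Q (x, 0) = ζ},
      ∃ x1 : {x : ℂ // x ∈ BSH_A P Q 1 (s / 6) ∧ P (x, 0) / Q (x, 0) = ζ}, ‖x1.1 - x.1‖ ≤ 20 * s ∧
        ∃ X : ℂ → ℂ, Br (sh b P) (sh b Q) (s / 4) x.1 X ∧ -(b * x1.1) ∈ ball (0 : ℂ) (s / 5) ∧ X (-(b * x1.1)) = x1.1 ∧
          sh b Q (x.1, 0) ≠ 0 ∧ sh b P (x.1, 0) = ζ * sh b Q (x.1, 0) := by
    rintro ⟨x, ⟨⟨hx1, hx2, hx3⟩, hx4⟩, hx5⟩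
    have hunf : Unf (sh b P) (sh b Q) (s / 4) x := by
      by_contra h3
      apply hx4
      refine ⟨?_, hx2, h3⟩
      rwa [mem_ball_zero_iff] at hx1
    obtain ⟨X, hX⟩ := hunf
    have hζ : sh b P (x, 0) = ζ * sh b Q (x, 0) := by
      rw [← hx5]
      field_simp
    obtain ⟨w0, hw0, hw0e, hd, hl1, hQ1, hP1, hc1, hU1⟩ := BSH_j hs hs1 hb h2 hb2 hreg hX hx3 hζ
    refine ⟨⟨X w0, ⟨⟨by rwa [mem_ball_zero_iff], hc1, hQ1⟩, ?_⟩, ?_⟩, hd, X, hX, ?_, ?_, hx3, hζ⟩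
    · rintro ⟨_, _, h3⟩
      exact h3 hU1
    · rw [hP1]
      field_simp
    · show -(b * X w0) ∈ ball (0 : ℂ) (s / 5)
      rw [← hw0e]
      exact hw0
    · show X (-(b * X w0)) = X w0
      rw [← hw0e]
  choose j hj1 X hX hmem hval hQ hζ using hex
  have hinj : Function.Injective j := by
    intro x y hxy
    apply Subtype.ext
    have hm : X x (-(b * (j x).1)) = X y (-(b * (j x).1)) := by
      rw [hval x]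
      have := hval y
      rw [← hxy] at this
      rw [this]
    have hmem' : -(b * (j x).1) ∈ ball (0 : ℂ) (s / 4) := by
      have hsub : ball (0 : ℂ) (s / 5) ⊆ ball (0 : ℂ) (s / 4) := ball_subset_ball (by linarith)
      exact hsub (hmem x)
    exact BSH_meet hUUNI hb2 (by linarith) (hX x) (hX y) (hQ x) (hζ x) (hQ y) (hζ y) hregb hmem' hm
  refine le_trans ?_ (ENNReal.tsum_comp_le_tsum_of_injective hinj (fun x => ENNReal.ofReal (χ x.1)))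
  apply ENNReal.tsum_le_tsum
  intro x
  apply ENNReal.ofReal_le_ofReal
  have h3 := hχ x.1 (j x).1
  have h4 : K * ‖x.1 - (j x).1‖ ≤ K * (20 * s) := by
    apply mul_le_mul_of_nonneg_left _ hK
    rw [norm_sub_rev]
    exact hj1 x
  have h5 := abs_le.mp h3
  linarith [h5.2]

theorem BSH_A_meas {P Q : ℂ × ℂ → ℂ} {r c r0 : ℝ} (hr : 0 < r) (h : Hol P Q 2 r) (hc : c ≤ 2) (hm : MeasurableSet (NN P Q r0)) :
    MeasurableSet (BSH_A P Q c r0) :=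
  (BSH_open hr h hc).1.measurableSet.diff hm

/-- the comparison of the good parts -/
theorem BSH_comp (hAFW : UAFW_stmt) (hJAC : UJAC_stmt) (hUUNI : UUNI_stmt) {P Q : ℂ × ℂ → ℂ} {s : ℝ} {b : ℂ}
    (hs : 0 < s) (hs1 : s ≤ 1 / 40) (hb : ‖b‖ < s ^ 2)
    (h2 : Hol P Q 2 s) (hb2 : Hol (sh b P) (sh b Q) 2 s) (hreg : ∀ᵐ ζ : ℂ, BSH_Reg P Q s ζ ∧ BSH_Reg (sh b P) (sh b Q) s ζ)
    (hm1 : MeasurableSet (NN (sh b P) (sh b Q) (s / 4))) (hm2 : MeasurableSet (NN P Q (s / 6)))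
    (χ : ℂ → ℝ) (hχc : Continuous χ) (K : ℝ) (hK : 0 ≤ K) (hχ : ∀ x y, |χ x - χ y| ≤ K * ‖x - y‖) :
    ∫⁻ x in BSH_A (sh b P) (sh b Q) (1 / 2) (s / 4), ENNReal.ofReal (BSH_dens (sh b P) (sh b Q) x) * ENNReal.ofReal (χ x - 20 * K * s) ≤
      ∫⁻ x in BSH_A P Q 1 (s / 6), ENNReal.ofReal (BSH_dens P Q x) * ENNReal.ofReal (χ x) := by
  rw [BSH_area hAFW hJAC hs hb2 _ (BSH_A_meas hs hb2 (by norm_num) hm1), BSH_area hAFW hJAC hs h2 _ (BSH_A_meas hs h2 (by norm_num) hm2)]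
  · apply lintegral_mono_ae
    filter_upwards [hreg] with ζ hζ
    exact mul_le_mul_right (BSH_fib hUUNI hs hs1 hb h2 hb2 hζ.1 hζ.2 χ K hK hχ) _
  · intro x hx
    obtain ⟨⟨h3, h4, h5⟩, _⟩ := hx
    rw [mem_ball_zero_iff] at h3
    exact ⟨by linarith, h4, h5⟩
  · exact (hχc.measurable).ennreal_ofReal
  · intro x hx
    obtain ⟨⟨h3, h4, h5⟩, _⟩ := hx
    rw [mem_ball_zero_iff] at h3
    exact ⟨by linarith, h4, h5⟩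
  · exact ((hχc.sub continuous_const).measurable).ennreal_ofReal

end Pool.Agent.P2U
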