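import Pool.Agent.helper1.P2.LSE

set_option autoImplicit false

open scoped ContDiff Topology
open MeasureTheory Filter Set Metric MvPolynomial Pool.Agent.helper37.QA

namespace Pool.Agent.P2

/-- the profile -/
noncomputable def KER_h (x : ℝ) : ℝ := Real.smoothTransition (2 - 4 * x)

/-- its primitive -/
noncomputable def KER_H (x : ℝ) : ℝ := ∫ t in (0 : ℝ)..x, KER_h t

theorem KER_h_cd : ContDiff ℝ ∞ KER_h := by
  unfold KER_h
  exact Real.smoothTransition.contDiff.comp (by fun_prop)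

theorem KER_h_cont : Continuous KER_h := KER_h_cd.continuous

theorem KER_h_nonneg (x : ℝ) : 0 ≤ KER_h x := Real.smoothTransition.nonneg _

theorem KER_h_le (x : ℝ) : KER_h x ≤ 1 := Real.smoothTransition.le_one _

theorem KER_h_one {x : ℝ} (hx : x ≤ 1 / 4) : KER_h x = 1 :=
  Real.smoothTransition.one_of_one_le (by linarith)

theorem KER_h_zero {x : ℝ} (hx : 1 / 2 ≤ x) : KER_h x = 0 :=
  Real.smoothTransition.zero_of_nonpos (by linarith)

theorem KER_H_deriv (x : ℝ) : HasDerivAt KER_H (KER_h x) x :=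
  intervalIntegral.integral_hasDerivAt_right (KER_h_cont.intervalIntegrable _ _)
    (KER_h_cont.stronglyMeasurableAtFilter _ _) KER_h_cont.continuousAt

theorem KER_H_cd : ContDiff ℝ ∞ KER_H := by
  rw [contDiff_infty_iff_deriv]
  refine ⟨fun x => (KER_H_deriv x).differentiableAt, ?_⟩
  have h : deriv KER_H = KER_h := funext fun x => (KER_H_deriv x).deriv
  rw [h]
  exact KER_h_cd

theorem KER_H_mono : Monotone KER_H := by
  apply monotone_of_deriv_nonneg (fun x => (KER_H_deriv x).differentiableAt)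
  intro x
  rw [(KER_H_deriv x).deriv]
  exact KER_h_nonneg x

theorem KER_H_zero : KER_H 0 = 0 := by simp [KER_H]

theorem KER_H_id {x : ℝ} (hx : x ≤ 1 / 4) : KER_H x = x := by
  unfold KER_H
  have h : ∫ t in (0 : ℝ)..x, KER_h t = ∫ t in (0 : ℝ)..x, (1 : ℝ) := by
    apply intervalIntegral.integral_congr
    intro t ht
    apply KER_h_one
    rcases le_total 0 x with h0 | h0
    · rw [uIcc_of_le h0] at ht
      exact ht.2.trans hx
    · rw [uIcc_of_ge h0] at ht
      exact ht.2.trans (by norm_num)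
  rw [h]
  simp

theorem KER_H_const {x : ℝ} (hx : 1 / 2 ≤ x) : KER_H x = KER_H (1 / 2) := by
  have h1 : KER_H x - KER_H (1 / 2) = ∫ t in (1 / 2 : ℝ)..x, KER_h t := by
    unfold KER_H
    rw [intervalIntegral.integral_interval_sub_left (KER_h_cont.intervalIntegrable _ _)
      (KER_h_cont.intervalIntegrable _ _)]
  have h2 : ∫ t in (1 / 2 : ℝ)..x, KER_h t = ∫ t in (1 / 2 : ℝ)..x, (0 : ℝ) := by
    apply intervalIntegral.integral_congr
    intro t ht
    rw [uIcc_of_le hx] at ht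
    exact KER_h_zero ht.1
  rw [h2] at h1
  simp at h1
  linarith

theorem KER_H_le (x : ℝ) : KER_H x ≤ KER_H (1 / 2) := by
  rcases le_total x (1 / 2) with h | h
  · exact KER_H_mono h
  · exact (KER_H_const h).le

theorem KER_k0_ge : 1 / 4 ≤ KER_H (1 / 2) := by
  have h := KER_H_mono (show (1 / 4 : ℝ) ≤ 1 / 2 by norm_num)
  rw [KER_H_id le_rfl] at h
  exact h

theorem KER_k0_le : KER_H (1 / 2) ≤ 1 / 2 := by
  unfold KER_H
  have h : ∫ t in (0 : ℝ)..(1 / 2), KER_h t ≤ ∫ t in (0 : ℝ)..(1 / 2), (1 : ℝ) :=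
    intervalIntegral.integral_mono_on (by norm_num) (KER_h_cont.intervalIntegrable _ _)
      (continuous_const.intervalIntegrable _ _) fun x _ => KER_h_le x
  simpa using h

theorem KER_c : ∫ t, bmp t = Real.pi * KER_H (1 / 2) := by
  have h1 : ∀ t : ℂ, bmp t = (fun y : ℝ => KER_h (y ^ 2)) ‖t‖ := by
    intro t
    simp only [bmp, KER_h, Complex.normSq_eq_norm_sq]
  have h2 : ∫ t, bmp t = ∫ t : ℂ, (fun y : ℝ => KER_h (y ^ 2)) ‖t‖ :=
    integral_congr_ae (ae_of_all _ h1)
  rw [h2, integral_fun_norm_addHaar volume (fun y : ℝ => KER_h (y ^ 2))]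
  have h3 : (volume : Measure ℂ).real (ball 0 1) = Real.pi := by
    rw [Measure.real, Complex.volume_ball]
    simp
  rw [h3, Complex.finrank_real_complex]
  have h4 : ∫ y in Ioi (0 : ℝ), y ^ (2 - 1) • KER_h (y ^ 2) = ∫ y in (0 : ℝ)..1, y * KER_h (y ^ 2) := by
    rw [intervalIntegral.integral_of_le zero_le_one]
    have h5 : ∫ y in Ioi (0 : ℝ), y ^ (2 - 1) • KER_h (y ^ 2) = ∫ y in Ioi (0 : ℝ), y * KER_h (y ^ 2) := by
      simp
    rw [h5]
    apply setIntegral_eq_of_subset_of_forall_sdiff_eq_zero measurableSet_Ioi Ioc_subset_Ioi_self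
    intro y hy
    have h6 : 1 < y := by
      by_contra hcon
      exact hy.2 ⟨hy.1, not_lt.1 hcon⟩
    rw [KER_h_zero (by nlinarith), mul_zero]
  rw [h4]
  have h7 : ∫ y in (0 : ℝ)..1, (KER_h ∘ fun y : ℝ => y ^ 2) y * (2 * y) = ∫ x in ((0 : ℝ) ^ 2)..((1 : ℝ) ^ 2), KER_h x := by
    apply intervalIntegral.integral_comp_mul_deriv
    · intro x _
      have := hasDerivAt_pow 2 x
      simpa using this
    · fun_prop
    · exact KER_h_cont
  have h8 : ∫ y in (0 : ℝ)..1, (KER_h ∘ fun y : ℝ => y ^ 2) y * (2 * y) = 2 * ∫ y in (0 : ℝ)..1, y * KER_h (y ^ 2) := by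
    rw [← intervalIntegral.integral_const_mul]
    apply intervalIntegral.integral_congr
    intro y _
    simp only [Function.comp]
    ring
  have h9 : ∫ x in ((0 : ℝ) ^ 2)..((1 : ℝ) ^ 2), KER_h x = KER_H (1 / 2) := by
    have h10 : ∫ x in ((0 : ℝ) ^ 2)..((1 : ℝ) ^ 2), KER_h x = KER_H 1 := by
      norm_num [KER_H]
    rw [h10]
    exact KER_H_const (by norm_num)
  rw [h9] at h7
  rw [h7] at h8
  simp only [smul_eq_mul, nsmul_eq_mul]
  push_cast
  linear_combination (-Real.pi) * h8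

/-- `M` -/
noncomputable def KER_M (r ε t : ℝ) : ℝ := (∫ t, bmp t)⁻¹ * (KER_H (t / r ^ 2) - KER_H (t / ε ^ 2))

/-- `q` -/
noncomputable def KER_q (r ε t : ℝ) : ℝ :=
  if t ≤ ε ^ 2 / 8 then (∫ t, bmp t)⁻¹ * (1 / r ^ 2 - 1 / ε ^ 2) else KER_M r ε t / t

/-- `k` -/
noncomputable def KER_k (r ε x : ℝ) : ℝ := ∫ t in (r ^ 2 / 2)..x, KER_q r ε t

section
variable {r ε : ℝ}

theorem KER_cpos : 0 < ∫ t, bmp t := by
  rw [KER_c]
  have h := KER_k0_ge
  have h2 := Real.pi_pos
  positivity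

theorem KER_M_small (hr : 0 < r) (hε : 0 < ε) (hle : ε ≤ r) {t : ℝ} (ht : t ≤ ε ^ 2 / 4) :
    KER_M r ε t = (∫ t, bmp t)⁻¹ * (1 / r ^ 2 - 1 / ε ^ 2) * t := by
  have h1 : t / ε ^ 2 ≤ 1 / 4 := by
    rw [div_le_iff₀ (by positivity)]
    linarith
  have h2 : t / r ^ 2 ≤ 1 / 4 := by
    rw [div_le_iff₀ (by positivity)]
    have h3 : ε ^ 2 ≤ r ^ 2 := pow_le_pow_left₀ hε.le hle 2
    linarith
  unfold KER_M
  rw [KER_H_id h1, KER_H_id h2]
  ring

theorem KER_q_pos (hr : 0 < r) (hε : 0 < ε) (hle : ε ≤ r) {t : ℝ} (ht : 0 < t) :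
    KER_q r ε t = KER_M r ε t / t := by
  unfold KER_q
  split_ifs with h
  · rw [KER_M_small hr hε hle (by nlinarith [sq_nonneg ε])]
    field_simp
  · rfl

theorem KER_q_small (hr : 0 < r) (hε : 0 < ε) (hle : ε ≤ r) {t : ℝ} (ht : t < ε ^ 2 / 4) :
    KER_q r ε t = (∫ t, bmp t)⁻¹ * (1 / r ^ 2 - 1 / ε ^ 2) := by
  unfold KER_q
  split_ifs with h
  · rfl
  · have h1 : 0 < t := by
      have : 0 < ε ^ 2 := by positivity
      linarith [not_le.1 h]
    rw [KER_M_small hr hε hle ht.le]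
    field_simp

theorem KER_q_mul (hr : 0 < r) (hε : 0 < ε) (hle : ε ≤ r) (t : ℝ) :
    t * KER_q r ε t = KER_M r ε t := by
  rcases lt_or_ge 0 t with h | h
  · rw [KER_q_pos hr hε hle h]
    field_simp
  · have h1 : t < ε ^ 2 / 4 := by
      have : 0 < ε ^ 2 := by positivity
      linarith
    rw [KER_q_small hr hε hle h1, KER_M_small hr hε hle h1.le]
    ring

theorem KER_M_cd (r ε : ℝ) : ContDiff ℝ ∞ (KER_M r ε) := by
  unfold KER_M
  apply ContDiff.mul contDiff_const
  apply ContDiff.sub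
  · exact KER_H_cd.comp (by fun_prop)
  · exact KER_H_cd.comp (by fun_prop)

theorem KER_q_cd (hr : 0 < r) (hε : 0 < ε) (hle : ε ≤ r) : ContDiff ℝ ∞ (KER_q r ε) := by
  rw [contDiff_iff_contDiffAt]
  intro t
  rcases lt_or_ge 0 t with h | h
  · have h1 : ContDiffAt ℝ ∞ (fun t => KER_M r ε t / t) t :=
      ((KER_M_cd r ε).contDiffAt).div contDiffAt_id h.ne'
    apply h1.congr_of_eventuallyEq
    filter_upwards [lt_mem_nhds h] with x hx
    exact KER_q_pos hr hε hle hx
  · have h1 : t < ε ^ 2 / 4 := by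
      have : 0 < ε ^ 2 := by positivity
      linarith
    have h2 : ContDiffAt ℝ ∞ (fun _ : ℝ => (∫ t, bmp t)⁻¹ * (1 / r ^ 2 - 1 / ε ^ 2)) t := contDiffAt_const
    apply h2.congr_of_eventuallyEq
    filter_upwards [gt_mem_nhds h1] with x hx
    exact KER_q_small hr hε hle hx

theorem KER_k_deriv (hr : 0 < r) (hε : 0 < ε) (hle : ε ≤ r) (x : ℝ) :
    HasDerivAt (KER_k r ε) (KER_q r ε x) x := by
  have hc : Continuous (KER_q r ε) := (KER_q_cd hr hε hle).continuous
  exact intervalIntegral.integral_hasDerivAt_right (hc.intervalIntegrable _ _)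
    (hc.stronglyMeasurableAtFilter _ _) hc.continuousAt

theorem KER_k_cd (hr : 0 < r) (hε : 0 < ε) (hle : ε ≤ r) : ContDiff ℝ ∞ (KER_k r ε) := by
  rw [contDiff_infty_iff_deriv]
  refine ⟨fun x => (KER_k_deriv hr hε hle x).differentiableAt, ?_⟩
  have h : deriv (KER_k r ε) = KER_q r ε := funext fun x => (KER_k_deriv hr hε hle x).deriv
  rw [h]
  exact KER_q_cd hr hε hle

theorem KER_M_bds (hr : 0 < r) (hε : 0 < ε) (hle : ε ≤ r) {t : ℝ} (ht : 0 ≤ t) :
    -(1 / Real.pi) ≤ KER_M r ε t ∧ KER_M r ε t ≤ 0 := by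
  have h1 : t / r ^ 2 ≤ t / ε ^ 2 :=
    div_le_div_of_nonneg_left ht (by positivity) (pow_le_pow_left₀ hε.le hle 2)
  have h2 := KER_H_mono h1
  have h3 := KER_H_le (t / ε ^ 2)
  have h4 : 0 ≤ KER_H (t / r ^ 2) := by
    have h5 := KER_H_mono (show 0 ≤ t / r ^ 2 by positivity)
    rw [KER_H_zero] at h5
    exact h5
  have hc := KER_cpos
  have hcinv : 0 < (∫ t, bmp t)⁻¹ := inv_pos.2 hc
  unfold KER_M
  constructor
  · have h6 : (∫ t, bmp t)⁻¹ * KER_H (1 / 2) = 1 / Real.pi := by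
      rw [KER_c]
      have h7 := KER_k0_ge
      have h8 : KER_H (1 / 2) ≠ 0 := by linarith
      have h9 := Real.pi_pos
      field_simp
    rw [← h6]
    nlinarith
  · nlinarith

theorem KER_q_bds (hr : 0 < r) (hε : 0 < ε) (hle : ε ≤ r) {t : ℝ} (ht : 0 < t) :
    -(1 / Real.pi / t) ≤ KER_q r ε t ∧ KER_q r ε t ≤ 0 := by
  rw [KER_q_pos hr hε hle ht]
  obtain ⟨h1, h2⟩ := KER_M_bds hr hε hle ht.le
  constructor
  · rw [← neg_div]
    exact div_le_div_of_nonneg_right h1 ht.le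
  · exact div_nonpos_of_nonpos_of_nonneg h2 ht.le

theorem KER_q_big (hr : 0 < r) (hε : 0 < ε) (hle : ε ≤ r) {t : ℝ} (ht : r ^ 2 / 2 ≤ t) :
    KER_q r ε t = 0 := by
  have hr2 : 0 < r ^ 2 := by positivity
  have h0 : 0 < t := by linarith
  rw [KER_q_pos hr hε hle h0]
  unfold KER_M
  have h1 : 1 / 2 ≤ t / r ^ 2 := by
    rw [le_div_iff₀ hr2]
    linarith
  have h2 : t / r ^ 2 ≤ t / ε ^ 2 :=
    div_le_div_of_nonneg_left h0.le (by positivity) (pow_le_pow_left₀ hε.le hle 2)
  rw [KER_H_const h1, KER_H_const (h1.trans h2)]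
  simp

theorem KER_k_big (hr : 0 < r) (hε : 0 < ε) (hle : ε ≤ r) {x : ℝ} (hx : r ^ 2 / 2 ≤ x) :
    KER_k r ε x = 0 := by
  unfold KER_k
  have h : ∫ t in (r ^ 2 / 2)..x, KER_q r ε t = ∫ t in (r ^ 2 / 2)..x, (0 : ℝ) := by
    apply intervalIntegral.integral_congr
    intro t ht
    rw [uIcc_of_le hx] at ht
    exact KER_q_big hr hε hle ht.1
  rw [h]
  simp

theorem KER_k_anti (hr : 0 < r) (hε : 0 < ε) (hle : ε ≤ r) {x y : ℝ} (hx : 0 ≤ x) (hxy : x ≤ y) :
    KER_k r ε y ≤ KER_k r ε x := by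
  have hanti : AntitoneOn (KER_k r ε) (Ici 0) := by
    apply antitoneOn_of_deriv_nonpos (convex_Ici 0)
    · exact (KER_k_cd hr hε hle).continuous.continuousOn
    · intro z _
      exact (KER_k_deriv hr hε hle z).differentiableAt.differentiableWithinAt
    · intro z hz
      rw [interior_Ici] at hz
      rw [(KER_k_deriv hr hε hle z).deriv]
      exact (KER_q_bds hr hε hle hz).2
  exact hanti hx (hx.trans hxy) hxy

theorem KER_k_nonneg (hr : 0 < r) (hε : 0 < ε) (hle : ε ≤ r) {x : ℝ} (hx : 0 ≤ x) : 0 ≤ KER_k r ε x := by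
  rcases le_total (r ^ 2 / 2) x with h | h
  · rw [KER_k_big hr hε hle h]
  · have h1 := KER_k_anti hr hε hle hx h
    rw [KER_k_big hr hε hle le_rfl] at h1
    exact h1

theorem KER_k_log (hr : 0 < r) (hε : 0 < ε) (hle : ε ≤ r) {x : ℝ} (hx : 0 < x) (hxr : x ≤ r ^ 2 / 2) :
    KER_k r ε x ≤ 1 / Real.pi * Real.log ((r ^ 2 / 2) / x) := by
  have hr2 : 0 < r ^ 2 / 2 := by positivity
  have hc : Continuous (KER_q r ε) := (KER_q_cd hr hε hle).continuous
  unfold KER_k
  rw [intervalIntegral.integral_symm]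
  have h1 : ∫ t in x..(r ^ 2 / 2), -(1 / Real.pi / t) ≤ ∫ t in x..(r ^ 2 / 2), KER_q r ε t := by
    apply intervalIntegral.integral_mono_on hxr
    · apply ContinuousOn.intervalIntegrable
      intro t ht
      rw [uIcc_of_le hxr] at ht
      have h0 : t ≠ 0 := (lt_of_lt_of_le hx ht.1).ne'
      exact (continuousAt_const.div continuousAt_id h0).neg.continuousWithinAt
    · exact hc.intervalIntegrable _ _
    · intro t ht
      exact (KER_q_bds hr hε hle (lt_of_lt_of_le hx ht.1)).1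
  have h2 : ∫ t in x..(r ^ 2 / 2), -(1 / Real.pi / t) = -(1 / Real.pi * Real.log ((r ^ 2 / 2) / x)) := by
    rw [intervalIntegral.integral_neg]
    congr 1
    have h3 : (fun t : ℝ => 1 / Real.pi / t) = fun t => (1 / Real.pi) * (1 / t) := by
      funext t
      ring
    rw [h3, intervalIntegral.integral_const_mul, integral_one_div_of_pos hx hr2]
  rw [h2] at h1
  linarith

theorem KER_k_low (hr : 0 < r) (hε : 0 < ε) (hle : ε ≤ r / 8) {x : ℝ} (hx : 0 ≤ x) (hxr : x ≤ r ^ 2 / 16) :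
    1 / 50 ≤ KER_k r ε x := by
  have hle' : ε ≤ r := by linarith
  have hr2 : 0 < r ^ 2 := by positivity
  have hε2 : 0 < ε ^ 2 := by positivity
  have hc : Continuous (KER_q r ε) := (KER_q_cd hr hε hle').continuous
  have h1 : KER_k r ε (r ^ 2 / 16) ≤ KER_k r ε x := KER_k_anti hr hε hle' hx hxr
  have h2 : 0 ≤ KER_k r ε (r ^ 2 / 8) := KER_k_nonneg hr hε hle' (by positivity)
  have h3 : KER_k r ε (r ^ 2 / 8) - KER_k r ε (r ^ 2 / 16) = ∫ t in (r ^ 2 / 16)..(r ^ 2 / 8), KER_q r ε t := by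
    unfold KER_k
    rw [intervalIntegral.integral_interval_sub_left (hc.intervalIntegrable _ _) (hc.intervalIntegrable _ _)]
  have hcp := KER_cpos
  have hcle : (∫ t, bmp t) ≤ Real.pi / 2 := by
    rw [KER_c]
    have := KER_k0_le
    nlinarith [Real.pi_pos]
  have h4 : ∫ t in (r ^ 2 / 16)..(r ^ 2 / 8), KER_q r ε t ≤ ∫ t in (r ^ 2 / 16)..(r ^ 2 / 8), (-((∫ t, bmp t)⁻¹ / r ^ 2)) := by
    apply intervalIntegral.integral_mono_on (by linarith) (hc.intervalIntegrable _ _)
      (continuous_const.intervalIntegrable _ _)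
    intro t ht
    have ht0 : 0 < t := by
      have := ht.1
      have h5 : 0 < r ^ 2 / 16 := by positivity
      linarith
    rw [KER_q_pos hr hε hle' ht0]
    have h6 : t / r ^ 2 ≤ 1 / 8 := by
      rw [div_le_iff₀ hr2]
      linarith [ht.2]
    have h7 : 1 / 2 ≤ t / ε ^ 2 := by
      rw [le_div_iff₀ hε2]
      have h8 : ε ^ 2 ≤ (r / 8) ^ 2 := pow_le_pow_left₀ hε.le hle 2
      have h9 := ht.1
      nlinarith
    unfold KER_M
    rw [KER_H_const h7, KER_H_id (show t / r ^ 2 ≤ 1 / 4 by linarith)]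
    have h10 := KER_k0_ge
    have h11 : t / r ^ 2 - KER_H (1 / 2) ≤ -(1 / 8) := by linarith
    have hci : 0 < (∫ t, bmp t)⁻¹ := inv_pos.2 hcp
    rw [div_le_iff₀ ht0]
    have h12 : (∫ t, bmp t)⁻¹ * (t / r ^ 2 - KER_H (1 / 2)) ≤ (∫ t, bmp t)⁻¹ * (-(1 / 8)) :=
      mul_le_mul_of_nonneg_left h11 hci.le
    refine h12.trans ?_
    have h13 : -((∫ t, bmp t)⁻¹ / r ^ 2) * t = (∫ t, bmp t)⁻¹ * (-(t / r ^ 2)) := by ring
    rw [h13]
    apply mul_le_mul_of_nonneg_left _ hci.le
    linarith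
  have h5 : ∫ t in (r ^ 2 / 16)..(r ^ 2 / 8), (-((∫ t, bmp t)⁻¹ / r ^ 2)) = -((∫ t, bmp t)⁻¹ / 16) := by
    rw [intervalIntegral.integral_const, smul_eq_mul]
    field_simp
    ring
  have h6 : (Real.pi / 2)⁻¹ ≤ (∫ t, bmp t)⁻¹ := inv_anti₀ hcp hcle
  have h7 : (1 / 50 : ℝ) ≤ (Real.pi / 2)⁻¹ / 16 := by
    have hpi := Real.pi_lt_four
    have hpi0 := Real.pi_pos
    rw [inv_div, div_div, div_le_div_iff₀ (by norm_num) (by positivity)]
    nlinarith
  rw [h5] at h4
  have h8 : (Real.pi / 2)⁻¹ / 16 ≤ (∫ t, bmp t)⁻¹ / 16 := by linarith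
  linarith

theorem KER_M_deriv (r ε t : ℝ) : HasDerivAt (KER_M r ε)
    ((∫ t, bmp t)⁻¹ * (KER_h (t / r ^ 2) * (1 / r ^ 2) - KER_h (t / ε ^ 2) * (1 / ε ^ 2))) t := by
  unfold KER_M
  apply HasDerivAt.const_mul
  apply HasDerivAt.sub
  · have h1 : HasDerivAt (fun t : ℝ => t / r ^ 2) (1 / r ^ 2) t := (hasDerivAt_id t).div_const _
    exact (KER_H_deriv (t / r ^ 2)).comp t h1
  · have h1 : HasDerivAt (fun t : ℝ => t / ε ^ 2) (1 / ε ^ 2) t := (hasDerivAt_id t).div_const _
    exact (KER_H_deriv (t / ε ^ 2)).comp t h1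

theorem KER_phr (r : ℝ) (s : ℂ) : phr r s = (∫ t, bmp t)⁻¹ * (KER_h (Complex.normSq s / r ^ 2) * (1 / r ^ 2)) := by
  unfold phr bmp KER_h
  have h1 : Complex.normSq ((r : ℂ)⁻¹ * s) = Complex.normSq s / r ^ 2 := by
    rw [Complex.normSq_mul, Complex.normSq_inv, Complex.normSq_ofReal]
    ring
  rw [h1]
  ring

theorem KER_line (hr : 0 < r) (hε : 0 < ε) (hle : ε ≤ r) (z v : ℂ) (s : ℝ) :
    HasDerivAt (fun s : ℝ => KER_k r ε (Complex.normSq (z + (s : ℂ) * v)))
      (KER_q r ε (Complex.normSq (z + (s : ℂ) * v)) *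
        (2 * ((z + (s : ℂ) * v).re * v.re + (z + (s : ℂ) * v).im * v.im))) s := by
  have hline : HasDerivAt (fun s : ℝ => z + (s : ℂ) * v) v s := by
    have h := ((Complex.ofRealCLM.hasDerivAt (x := s)).mul_const v).const_add z
    simpa using h
  have h2 := LSE_sq (fun s : ℝ => z + (s : ℂ) * v) (fun _ => v) s hline
  exact (KER_k_deriv hr hε hle _).comp s h2

theorem KER_dir (hr : 0 < r) (hε : 0 < ε) (hle : ε ≤ r) (z v : ℂ) :
    iteratedFDeriv ℝ 2 (fun s : ℂ => KER_k r ε (Complex.normSq s)) z ![v, v] =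
      deriv (KER_q r ε) (Complex.normSq z) * (2 * (z.re * v.re + z.im * v.im)) ^ 2 +
        KER_q r ε (Complex.normSq z) * (2 * Complex.normSq v) := by
  have hns : ContDiff ℝ ∞ (fun s : ℂ => Complex.normSq s) := by
    have h2 : (fun s : ℂ => Complex.normSq s) = fun s : ℂ => s.re * s.re + s.im * s.im := by
      funext t
      exact Complex.normSq_apply t
    rw [h2]
    exact (Complex.reCLM.contDiff.mul Complex.reCLM.contDiff).add
      (Complex.imCLM.contDiff.mul Complex.imCLM.contDiff)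
  have hcd : ContDiff ℝ ∞ (fun s : ℂ => KER_k r ε (Complex.normSq s)) := (KER_k_cd hr hε hle).comp hns
  have hline : HasDerivAt (fun s : ℝ => z + (s : ℂ) * v) v 0 := by
    have h := ((Complex.ofRealCLM.hasDerivAt (x := (0 : ℝ))).mul_const v).const_add z
    simpa using h
  have hz : z + ((0 : ℝ) : ℂ) * v = z := by simp
  have h2 := LSE_sq (fun s : ℝ => z + (s : ℂ) * v) (fun _ => v) 0 hline
  have h3 := LSE_sq2 (fun s : ℝ => z + (s : ℂ) * v) (fun _ => v) 0 0 hline (hasDerivAt_const _ _)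
  have h4 : HasDerivAt (KER_q r ε) (deriv (KER_q r ε) (Complex.normSq z)) (Complex.normSq (z + ((0 : ℝ) : ℂ) * v)) := by
    rw [hz]
    exact ((KER_q_cd hr hε hle).differentiable (by simp)).differentiableAt.hasDerivAt
  have h5 := (h4.comp (0 : ℝ) h2).mul h3
  apply LSE_second _ z v ((contDiff_infty.1 hcd 2).contDiffAt) (fun s : ℝ =>
    KER_q r ε (Complex.normSq (z + (s : ℂ) * v)) *
        (2 * ((z + (s : ℂ) * v).re * v.re + (z + (s : ℂ) * v).im * v.im)))
  · exact Eventually.of_forall fun s => KER_line hr hε hle z v s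
  · have h6 : deriv (KER_q r ε) (Complex.normSq z) * (2 * (z.re * v.re + z.im * v.im)) ^ 2 +
        KER_q r ε (Complex.normSq z) * (2 * Complex.normSq v) =
      deriv (KER_q r ε) (Complex.normSq z) *
          (2 * ((z + ((0 : ℝ) : ℂ) * v).re * v.re + (z + ((0 : ℝ) : ℂ) * v).im * v.im)) *
          (2 * ((z + ((0 : ℝ) : ℂ) * v).re * v.re + (z + ((0 : ℝ) : ℂ) * v).im * v.im)) +
        KER_q r ε (Complex.normSq (z + ((0 : ℝ) : ℂ) * v)) *
          (2 * (Complex.normSq v + (z + ((0 : ℝ) : ℂ) * v).re * (0 : ℂ).re +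
            (z + ((0 : ℝ) : ℂ) * v).im * (0 : ℂ).im)) := by
      rw [hz]
      simp only [Complex.zero_re, Complex.zero_im, mul_zero, add_zero]
      ring
    rw [h6]
    exact h5

end

theorem KER : KER_stmt := by
  intro r ε hr hε hle
  have hle' : ε ≤ r := by linarith
  have hns : ContDiff ℝ ∞ (fun s : ℂ => Complex.normSq s) := by
    have h2 : (fun s : ℂ => Complex.normSq s) = fun s : ℂ => s.re * s.re + s.im * s.im := by
      funext t
      exact Complex.normSq_apply t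
    rw [h2]
    exact (Complex.reCLM.contDiff.mul Complex.reCLM.contDiff).add
      (Complex.imCLM.contDiff.mul Complex.imCLM.contDiff)
  have hcd : ContDiff ℝ ∞ (fun s : ℂ => KER_k r ε (Complex.normSq s)) := (KER_k_cd hr hε hle').comp hns
  refine ⟨fun s => KER_k r ε (Complex.normSq s), hcd, ?_, ?_, ?_, ?_, ?_, ?_⟩
  · intro s hs
    apply KER_k_big hr hε hle'
    rw [Complex.normSq_eq_norm_sq]
    nlinarith
  · intro s
    exact KER_k_nonneg hr hε hle' (Complex.normSq_nonneg _)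
  · intro s
    unfold lap
    rw [KER_dir hr hε hle' s 1, KER_dir hr hε hle' s Complex.I, KER_phr, KER_phr]
    have h1 : HasDerivAt (fun t => t * KER_q r ε t)
        (1 * KER_q r ε (Complex.normSq s) + Complex.normSq s * deriv (KER_q r ε) (Complex.normSq s))
        (Complex.normSq s) :=
      (hasDerivAt_id _).mul ((KER_q_cd hr hε hle').differentiable (by simp)).differentiableAt.hasDerivAt
    have h2 : (fun t => t * KER_q r ε t) = KER_M r ε := funext fun t => KER_q_mul hr hε hle' t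
    rw [h2] at h1
    have h3 := h1.unique (KER_M_deriv r ε (Complex.normSq s))
    have h4 : Complex.normSq s = s.re * s.re + s.im * s.im := Complex.normSq_apply s
    simp only [Complex.one_re, Complex.one_im, Complex.I_re, Complex.I_im, Complex.normSq_one, Complex.normSq_I,
      mul_one, mul_zero, add_zero, zero_add]
    have h5 : 1 / 4 * (deriv (KER_q r ε) (Complex.normSq s) * (2 * s.re) ^ 2 + KER_q r ε (Complex.normSq s) * 2 +
      (deriv (KER_q r ε) (Complex.normSq s) * (2 * s.im) ^ 2 + KER_q r ε (Complex.normSq s) * 2)) =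
      KER_q r ε (Complex.normSq s) + (s.re * s.re + s.im * s.im) * deriv (KER_q r ε) (Complex.normSq s) := by ring
    rw [h5, ← h4]
    linarith
  · intro s hs
    have hs0 : 0 < ‖s‖ := norm_pos_iff.2 hs
    have hρ : 0 < Complex.normSq s := Complex.normSq_pos.2 hs
    apply ContinuousLinearMap.opNorm_le_bound _ (by positivity)
    intro v
    have h1 : HasFDerivAt (fun s : ℂ => KER_k r ε (Complex.normSq s))
        (fderiv ℝ (fun s : ℂ => KER_k r ε (Complex.normSq s)) s) (s + ((0 : ℝ) : ℂ) * v) := by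
      have h := ((hcd.differentiable (by simp)) s).hasFDerivAt
      simpa using h
    have hline : HasDerivAt (fun t : ℝ => s + (t : ℂ) * v) v 0 := by
      have h := ((Complex.ofRealCLM.hasDerivAt (x := (0 : ℝ))).mul_const v).const_add s
      simpa using h
    have h2 := h1.comp_hasDerivAt (0 : ℝ) hline
    have h3 := KER_line hr hε hle' s v 0
    have h4 := HasDerivAt.unique h2 h3
    rw [h4]
    have hz : s + ((0 : ℝ) : ℂ) * v = s := by simp
    rw [hz, norm_mul]
    obtain ⟨h5, h6⟩ := KER_q_bds hr hε hle' hρ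
    have h7 : ‖KER_q r ε (Complex.normSq s)‖ ≤ 1 / Real.pi / Complex.normSq s := by
      rw [Real.norm_eq_abs, abs_le]
      constructor
      · linarith
      · have : 0 ≤ 1 / Real.pi / Complex.normSq s := by positivity
        linarith
    have h8 : ‖2 * (s.re * v.re + s.im * v.im)‖ ≤ 2 * (‖s‖ * ‖v‖) := by
      rw [norm_mul, Real.norm_eq_abs, Real.norm_eq_abs, abs_two]
      apply mul_le_mul_of_nonneg_left _ (by norm_num)
      have h9 : s.re * v.re + s.im * v.im = ((starRingEnd ℂ) s * v).re := by simp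
      rw [h9]
      refine (Complex.abs_re_le_norm _).trans (le_of_eq ?_)
      rw [norm_mul, RCLike.norm_conj]
    calc ‖KER_q r ε (Complex.normSq s)‖ * ‖2 * (s.re * v.re + s.im * v.im)‖
        ≤ (1 / Real.pi / Complex.normSq s) * (2 * (‖s‖ * ‖v‖)) :=
          mul_le_mul h7 h8 (norm_nonneg _) (by positivity)
      _ = (2 / Real.pi) / ‖s‖ * ‖v‖ := by
          rw [Complex.normSq_eq_norm_sq]
          field_simp
      _ ≤ 4 / ‖s‖ * ‖v‖ := by
          apply mul_le_mul_of_nonneg_right _ (norm_nonneg _)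
          apply div_le_div_of_nonneg_right _ hs0.le
          rw [div_le_iff₀ Real.pi_pos]
          have := Real.pi_gt_three
          linarith
  · intro s hs
    have hs0 : 0 < ‖s‖ := norm_pos_iff.2 hs
    have hρ : 0 < Complex.normSq s := Complex.normSq_pos.2 hs
    rcases le_total (r ^ 2 / 2) (Complex.normSq s) with h | h
    · have h1 : KER_k r ε (Complex.normSq s) = 0 := KER_k_big hr hε hle' h
      show KER_k r ε (Complex.normSq s) ≤ _
      rw [h1]
      exact le_max_right _ _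
    · refine le_trans ?_ (le_max_left _ _)
      refine (KER_k_log hr hε hle' hρ h).trans ?_
      have h1 : Real.log (r / ‖s‖) = (1 / 2) * Real.log (r ^ 2 / Complex.normSq s) := by
        rw [Complex.normSq_eq_norm_sq, ← div_pow, Real.log_pow]
        push_cast
        ring
      rw [h1]
      have h2 : Real.log (r ^ 2 / 2 / Complex.normSq s) ≤ Real.log (r ^ 2 / Complex.normSq s) := by
        apply Real.log_le_log (by positivity)
        apply div_le_div_of_nonneg_right _ hρ.le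
        have : 0 < r ^ 2 := by positivity
        linarith
      have h3 : 0 ≤ Real.log (r ^ 2 / 2 / Complex.normSq s) := by
        apply Real.log_nonneg
        rw [le_div_iff₀ hρ]
        linarith
      have h4 : 1 / Real.pi ≤ 1 / 2 := by
        apply one_div_le_one_div_of_le (by norm_num)
        have := Real.pi_gt_three
        linarith
      calc 1 / Real.pi * Real.log (r ^ 2 / 2 / Complex.normSq s)
          ≤ 1 / 2 * Real.log (r ^ 2 / 2 / Complex.normSq s) := mul_le_mul_of_nonneg_right h4 h3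
        _ ≤ 1 / 2 * Real.log (r ^ 2 / Complex.normSq s) := mul_le_mul_of_nonneg_left h2 (by norm_num)
  · intro s _ hs
    apply KER_k_low hr hε hle (Complex.normSq_nonneg _)
    rw [Complex.normSq_eq_norm_sq]
    have h1 : ‖s‖ ^ 2 ≤ (r / 4) ^ 2 := pow_le_pow_left₀ (norm_nonneg _) hs 2
    linarith [h1, show (r / 4) ^ 2 = r ^ 2 / 16 by ring]

end Pool.Agent.P2
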