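import Pool.Agent.helper37.P2.SpecA

set_option autoImplicit false

open scoped ContDiff Topology
open MeasureTheory Filter Set Metric MvPolynomial Pool.Agent.helper37.QA

namespace Pool.Agent.P2

/-- the second derivative in the direction `v` as an iterated line derivative -/
theorem LSE_second (g : ℂ → ℝ) (z v : ℂ) (hg : ContDiffAt ℝ 2 g z) (D1 : ℝ → ℝ) (c : ℝ)
    (h1 : ∀ᶠ s : ℝ in 𝓝 0, HasDerivAt (fun s : ℝ => g (z + (s : ℂ) * v)) (D1 s) s)
    (h2 : HasDerivAt D1 c 0) : iteratedFDeriv ℝ 2 g z ![v, v] = c := by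
  rw [iteratedFDeriv_two_apply]
  simp only [Matrix.cons_val_zero, Matrix.cons_val_one]
  have hline : ∀ s : ℝ, HasDerivAt (fun s : ℝ => z + (s : ℂ) * v) v s := by
    intro s
    have h := ((Complex.ofRealCLM.hasDerivAt (x := s)).mul_const v).const_add z
    simpa using h
  have hcont : Tendsto (fun s : ℝ => z + (s : ℂ) * v) (𝓝 0) (𝓝 z) := by
    have h := (hline 0).continuousAt.tendsto
    simpa using h
  have hev : ∀ᶠ s : ℝ in 𝓝 0, HasDerivAt (fun s : ℝ => g (z + (s : ℂ) * v))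
      (fderiv ℝ g (z + (s : ℂ) * v) v) s := by
    have h3 : ∀ᶠ y in 𝓝 z, ContDiffAt ℝ 2 g y := hg.eventually (by simp)
    filter_upwards [hcont.eventually h3] with s hs
    have h4 : HasFDerivAt g (fderiv ℝ g (z + (s : ℂ) * v)) (z + (s : ℂ) * v) :=
      (hs.differentiableAt (by simp)).hasFDerivAt
    exact h4.comp_hasDerivAt s (hline s)
  have hD : ∀ᶠ s : ℝ in 𝓝 0, D1 s = fderiv ℝ g (z + (s : ℂ) * v) v := by
    filter_upwards [h1, hev] with s ha hb
    exact ha.unique hb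
  have h5 : HasFDerivAt (fderiv ℝ g) (fderiv ℝ (fderiv ℝ g) z) z := by
    have h6 : ContDiffAt ℝ 1 (fderiv ℝ g) z := hg.fderiv_right (by norm_num)
    exact (h6.differentiableAt (by simp)).hasFDerivAt
  have h7 : HasDerivAt (fun s : ℝ => fderiv ℝ g (z + (s : ℂ) * v)) (fderiv ℝ (fderiv ℝ g) z v) 0 := by
    have h8 : HasFDerivAt (fderiv ℝ g) (fderiv ℝ (fderiv ℝ g) z) (z + ((0 : ℝ) : ℂ) * v) := by
      simpa using h5
    exact h8.comp_hasDerivAt (0 : ℝ) (hline 0)
  have h9 : HasDerivAt (fun s : ℝ => fderiv ℝ g (z + (s : ℂ) * v) v)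
      (fderiv ℝ (fderiv ℝ g) z v v) 0 := by
    have h := h7.clm_apply (hasDerivAt_const (0 : ℝ) v)
    simpa using h
  have h10 : HasDerivAt D1 (fderiv ℝ (fderiv ℝ g) z v v) 0 := by
    refine h9.congr_of_eventuallyEq ?_
    filter_upwards [hD] with s hs
    exact hs
  exact h10.unique h2

/-- converse: the derivatives of `g` along a line -/
theorem LSE_line (g : ℂ → ℝ) (z v : ℂ) (hg : ContDiffAt ℝ 2 g z) :
    (∀ᶠ s : ℝ in 𝓝 0, HasDerivAt (fun s : ℝ => g (z + (s : ℂ) * v)) (fderiv ℝ g (z + (s : ℂ) * v) v) s) ∧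
      HasDerivAt (fun s : ℝ => fderiv ℝ g (z + (s : ℂ) * v) v) (iteratedFDeriv ℝ 2 g z ![v, v]) 0 := by
  rw [iteratedFDeriv_two_apply]
  simp only [Matrix.cons_val_zero, Matrix.cons_val_one]
  have hline : ∀ s : ℝ, HasDerivAt (fun s : ℝ => z + (s : ℂ) * v) v s := by
    intro s
    have h := ((Complex.ofRealCLM.hasDerivAt (x := s)).mul_const v).const_add z
    simpa using h
  have hcont : Tendsto (fun s : ℝ => z + (s : ℂ) * v) (𝓝 0) (𝓝 z) := by
    have h := (hline 0).continuousAt.tendsto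
    simpa using h
  constructor
  · have h3 : ∀ᶠ y in 𝓝 z, ContDiffAt ℝ 2 g y := hg.eventually (by simp)
    filter_upwards [hcont.eventually h3] with s hs
    have h4 : HasFDerivAt g (fderiv ℝ g (z + (s : ℂ) * v)) (z + (s : ℂ) * v) :=
      (hs.differentiableAt (by simp)).hasFDerivAt
    exact h4.comp_hasDerivAt s (hline s)
  · have h5 : HasFDerivAt (fderiv ℝ g) (fderiv ℝ (fderiv ℝ g) z) z := by
      have h6 : ContDiffAt ℝ 1 (fderiv ℝ g) z := hg.fderiv_right (by norm_num)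
      exact (h6.differentiableAt (by simp)).hasFDerivAt
    have h7 : HasDerivAt (fun s : ℝ => fderiv ℝ g (z + (s : ℂ) * v)) (fderiv ℝ (fderiv ℝ g) z v) 0 := by
      have h8 : HasFDerivAt (fderiv ℝ g) (fderiv ℝ (fderiv ℝ g) z) (z + ((0 : ℝ) : ℂ) * v) := by
        simpa using h5
      exact h8.comp_hasDerivAt (0 : ℝ) (hline 0)
    have h := h7.clm_apply (hasDerivAt_const (0 : ℝ) v)
    simpa using h

theorem LSE_sq (u u' : ℝ → ℂ) (s : ℝ) (h : HasDerivAt u (u' s) s) :
    HasDerivAt (fun s : ℝ => Complex.normSq (u s)) (2 * ((u s).re * (u' s).re + (u s).im * (u' s).im)) s := by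
  have hre : HasDerivAt (fun s : ℝ => (u s).re) (u' s).re s := by
    have := (Complex.reCLM.hasFDerivAt (x := u s)).comp_hasDerivAt s h
    exact this
  have him : HasDerivAt (fun s : ℝ => (u s).im) (u' s).im s := by
    have := (Complex.imCLM.hasFDerivAt (x := u s)).comp_hasDerivAt s h
    exact this
  have h2 := (hre.mul hre).add (him.mul him)
  have h3 : (fun s : ℝ => Complex.normSq (u s)) = fun s : ℝ => (u s).re * (u s).re + (u s).im * (u s).im := by
    funext s
    exact Complex.normSq_apply _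
  rw [h3]
  have h4 : (2 * ((u s).re * (u' s).re + (u s).im * (u' s).im)) =
      (u' s).re * (u s).re + (u s).re * (u' s).re + ((u' s).im * (u s).im + (u s).im * (u' s).im) := by ring
  rw [h4]
  exact h2

theorem LSE_sq2 (u u' : ℝ → ℂ) (u'' : ℂ) (s : ℝ) (h : HasDerivAt u (u' s) s) (h' : HasDerivAt u' u'' s) :
    HasDerivAt (fun s : ℝ => 2 * ((u s).re * (u' s).re + (u s).im * (u' s).im))
      (2 * (Complex.normSq (u' s) + (u s).re * u''.re + (u s).im * u''.im)) s := by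
  have hre : HasDerivAt (fun s : ℝ => (u s).re) (u' s).re s := by
    have := (Complex.reCLM.hasFDerivAt (x := u s)).comp_hasDerivAt s h
    exact this
  have him : HasDerivAt (fun s : ℝ => (u s).im) (u' s).im s := by
    have := (Complex.imCLM.hasFDerivAt (x := u s)).comp_hasDerivAt s h
    exact this
  have hre' : HasDerivAt (fun s : ℝ => (u' s).re) u''.re s := by
    have := (Complex.reCLM.hasFDerivAt (x := u' s)).comp_hasDerivAt s h'
    exact this
  have him' : HasDerivAt (fun s : ℝ => (u' s).im) u''.im s := by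
    have := (Complex.imCLM.hasFDerivAt (x := u' s)).comp_hasDerivAt s h'
    exact this
  have h2 := ((hre.mul hre').add (him.mul him')).const_mul 2
  rw [Complex.normSq_apply]
  have h4 : (2 * ((u' s).re * (u' s).re + (u' s).im * (u' s).im + (u s).re * u''.re + (u s).im * u''.im)) =
      2 * ((u' s).re * (u' s).re + (u s).re * u''.re + ((u' s).im * (u' s).im + (u s).im * u''.im)) := by ring
  rw [h4]
  exact h2

/-- second derivative in the direction `v` of `(1/2) log (nq G + e^(2B))` at `0` -/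
theorem LSE_dir (n : ℕ) (G : ℂ → Fin n → ℂ) (B : ℂ → ℝ) (Ω : Set ℂ) (hΩ : IsOpen Ω) (h0 : (0 : ℂ) ∈ Ω)
    (hG : DifferentiableOn ℂ G Ω) (hB : ContDiffOn ℝ 2 B Ω) (v : ℂ) :
    iteratedFDeriv ℝ 2 (fun t => (1 / 2) * Real.log (nq (G t) + Real.exp (2 * B t))) 0 ![v, v] =
      (1 / 2) * (((∑ i, 2 * (Complex.normSq (deriv (fun t => G t i) 0 * v) +
          (G 0 i).re * (deriv (deriv (fun t => G t i)) 0 * v * v).re +
          (G 0 i).im * (deriv (deriv (fun t => G t i)) 0 * v * v).im)) +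
          Real.exp (2 * B 0) * (4 * (fderiv ℝ B 0 v) ^ 2 + 2 * iteratedFDeriv ℝ 2 B 0 ![v, v])) *
          (nq (G 0) + Real.exp (2 * B 0)) -
        ((∑ i, 2 * ((G 0 i).re * (deriv (fun t => G t i) 0 * v).re +
          (G 0 i).im * (deriv (fun t => G t i) 0 * v).im)) + Real.exp (2 * B 0) * (2 * fderiv ℝ B 0 v)) ^ 2) /
        (nq (G 0) + Real.exp (2 * B 0)) ^ 2 := by
  have hΩn : Ω ∈ 𝓝 (0 : ℂ) := hΩ.mem_nhds h0
  have hGi : ∀ i, DifferentiableOn ℂ (fun t => G t i) Ω := fun i => differentiableOn_pi.1 hG i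
  have hGi' : ∀ i, DifferentiableOn ℂ (deriv (fun t => G t i)) Ω := fun i => (hGi i).deriv hΩ
  have hGc : ∀ i, ContDiffAt ℝ 2 (fun t => G t i) 0 := by
    intro i
    have h := ((hGi i).contDiffOn (n := 2) hΩ).contDiffAt hΩn
    exact h.restrict_scalars ℝ
  have hBc : ContDiffAt ℝ 2 B 0 := hB.contDiffAt hΩn
  have hpos : ∀ t, 0 < nq (G t) + Real.exp (2 * B t) := by
    intro t
    have h1 : 0 ≤ nq (G t) := Finset.sum_nonneg fun i _ => Complex.normSq_nonneg _
    have h2 := Real.exp_pos (2 * B t)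
    linarith
  have hNc : ContDiffAt ℝ 2 (fun t => nq (G t) + Real.exp (2 * B t)) 0 := by
    have h1 : ContDiffAt ℝ 2 (fun t => nq (G t)) 0 := by
      have h2 : (fun t => nq (G t)) = fun t => ∑ i, ((G t i).re * (G t i).re + (G t i).im * (G t i).im) := by
        funext t
        simp only [nq, Complex.normSq_apply]
      rw [h2]
      apply ContDiffAt.sum
      intro i _
      have hre : ContDiffAt ℝ 2 (fun t => (G t i).re) 0 :=
        Complex.reCLM.contDiff.contDiffAt.comp (0 : ℂ) (hGc i)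
      have him : ContDiffAt ℝ 2 (fun t => (G t i).im) 0 :=
        Complex.imCLM.contDiff.contDiffAt.comp (0 : ℂ) (hGc i)
      exact (hre.mul hre).add (him.mul him)
    exact h1.add ((contDiffAt_const.mul hBc).exp)
  have hgc : ContDiffAt ℝ 2 (fun t => (1 / 2) * Real.log (nq (G t) + Real.exp (2 * B t))) 0 :=
    contDiffAt_const.mul (hNc.log (hpos 0).ne')
  have hlin : Tendsto (fun s : ℝ => (0 : ℂ) + (s : ℂ) * v) (𝓝 0) (𝓝 0) := by
    have h : Continuous (fun s : ℝ => (0 : ℂ) + (s : ℂ) * v) := by fun_prop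
    have h2 := h.tendsto 0
    simpa using h2
  have hline : ∀ s : ℝ, HasDerivAt (fun s : ℝ => (0 : ℂ) + (s : ℂ) * v) v s := by
    intro s
    have h := ((Complex.ofRealCLM.hasDerivAt (x := s)).mul_const v).const_add (0 : ℂ)
    simpa using h
  -- first derivatives
  set D1N : ℝ → ℝ := fun s => (∑ i, 2 * ((G (0 + (s : ℂ) * v) i).re *
      (deriv (fun t => G t i) (0 + (s : ℂ) * v) * v).re +
      (G (0 + (s : ℂ) * v) i).im * (deriv (fun t => G t i) (0 + (s : ℂ) * v) * v).im)) +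
      Real.exp (2 * B (0 + (s : ℂ) * v)) * (2 * fderiv ℝ B (0 + (s : ℂ) * v) v) with hD1N
  have hN1 : ∀ᶠ s : ℝ in 𝓝 0, HasDerivAt (fun s : ℝ => nq (G (0 + (s : ℂ) * v)) +
      Real.exp (2 * B (0 + (s : ℂ) * v))) (D1N s) s := by
    filter_upwards [hlin.eventually (hΩ.mem_nhds h0), (LSE_line B 0 v hBc).1] with s hs hBs
    have h1 : HasDerivAt (fun s : ℝ => nq (G (0 + (s : ℂ) * v)))
        (∑ i, 2 * ((G (0 + (s : ℂ) * v) i).re * (deriv (fun t => G t i) (0 + (s : ℂ) * v) * v).re +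
      (G (0 + (s : ℂ) * v) i).im * (deriv (fun t => G t i) (0 + (s : ℂ) * v) * v).im)) s := by
      unfold nq
      apply HasDerivAt.fun_sum
      intro i _
      have h2 : HasDerivAt (fun t => G t i) (deriv (fun t => G t i) (0 + (s : ℂ) * v)) (0 + (s : ℂ) * v) :=
        ((hGi i).differentiableAt (hΩ.mem_nhds hs)).hasDerivAt
      have h3 := HasDerivAt.comp s h2 (hline s)
      exact LSE_sq (fun s : ℝ => G (0 + (s : ℂ) * v) i)
        (fun s : ℝ => deriv (fun t => G t i) (0 + (s : ℂ) * v) * v) s h3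
    exact h1.add ((hBs.const_mul 2).exp)
  have hN2 : HasDerivAt D1N ((∑ i, 2 * (Complex.normSq (deriv (fun t => G t i) 0 * v) +
          (G 0 i).re * (deriv (deriv (fun t => G t i)) 0 * v * v).re +
          (G 0 i).im * (deriv (deriv (fun t => G t i)) 0 * v * v).im)) +
          Real.exp (2 * B 0) * (4 * (fderiv ℝ B 0 v) ^ 2 + 2 * iteratedFDeriv ℝ 2 B 0 ![v, v])) 0 := by
    have hz : (0 : ℂ) + ((0 : ℝ) : ℂ) * v = 0 := by simp
    have h1 : HasDerivAt (fun s : ℝ => ∑ i, 2 * ((G (0 + (s : ℂ) * v) i).re *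
      (deriv (fun t => G t i) (0 + (s : ℂ) * v) * v).re +
      (G (0 + (s : ℂ) * v) i).im * (deriv (fun t => G t i) (0 + (s : ℂ) * v) * v).im))
      (∑ i, 2 * (Complex.normSq (deriv (fun t => G t i) 0 * v) +
          (G 0 i).re * (deriv (deriv (fun t => G t i)) 0 * v * v).re +
          (G 0 i).im * (deriv (deriv (fun t => G t i)) 0 * v * v).im)) 0 := by
      apply HasDerivAt.fun_sum
      intro i _
      have h2 : HasDerivAt (fun t => G t i) (deriv (fun t => G t i) (0 + ((0 : ℝ) : ℂ) * v))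
          (0 + ((0 : ℝ) : ℂ) * v) := by
        rw [hz]
        exact ((hGi i).differentiableAt hΩn).hasDerivAt
      have h3 := HasDerivAt.comp (0 : ℝ) h2 (hline 0)
      have h4 : HasDerivAt (deriv (fun t => G t i)) (deriv (deriv (fun t => G t i)) 0)
          (0 + ((0 : ℝ) : ℂ) * v) := by
        rw [hz]
        exact ((hGi' i).differentiableAt hΩn).hasDerivAt
      have h5 := (HasDerivAt.comp (0 : ℝ) h4 (hline 0)).mul_const v
      have h6 := LSE_sq2 (fun s : ℝ => G (0 + (s : ℂ) * v) i)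
        (fun s : ℝ => deriv (fun t => G t i) (0 + (s : ℂ) * v) * v) _ 0 h3 h5
      simp only [hz] at h6
      exact h6
    have h7 : HasDerivAt (fun s : ℝ => Real.exp (2 * B (0 + (s : ℂ) * v)) *
        (2 * fderiv ℝ B (0 + (s : ℂ) * v) v))
        (Real.exp (2 * B 0) * (4 * (fderiv ℝ B 0 v) ^ 2 + 2 * iteratedFDeriv ℝ 2 B 0 ![v, v])) 0 := by
      have h8 := (LSE_line B 0 v hBc).1.self_of_nhds
      have h9 := (LSE_line B 0 v hBc).2
      have h10 := ((h8.const_mul 2).exp).mul (h9.const_mul 2)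
      simp only [hz] at h10
      have h11 : Real.exp (2 * B 0) * (2 * fderiv ℝ B 0 v) * (2 * fderiv ℝ B 0 v) +
          Real.exp (2 * B 0) * (2 * iteratedFDeriv ℝ 2 B 0 ![v, v]) =
          Real.exp (2 * B 0) * (4 * (fderiv ℝ B 0 v) ^ 2 + 2 * iteratedFDeriv ℝ 2 B 0 ![v, v]) := by ring
      rw [← h11]
      exact h10
    exact h1.add h7
  apply LSE_second _ 0 v hgc (fun s => (1 / 2) * (D1N s / (nq (G (0 + (s : ℂ) * v)) +
      Real.exp (2 * B (0 + (s : ℂ) * v)))))
  · filter_upwards [hN1] with s hs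
    exact (hs.log (hpos _).ne').const_mul (1 / 2)
  · have hz : (0 : ℂ) + ((0 : ℝ) : ℂ) * v = 0 := by simp
    have h1 := hN1.self_of_nhds
    have h2 := (hN2.div h1 (hpos _).ne').const_mul (1 / 2)
    have h3 : D1N 0 = (∑ i, 2 * ((G 0 i).re * (deriv (fun t => G t i) 0 * v).re +
          (G 0 i).im * (deriv (fun t => G t i) 0 * v).im)) + Real.exp (2 * B 0) * (2 * fderiv ℝ B 0 v) := by
      simp only [hD1N, hz]
    simp only [hz, h3] at h2
    rw [mul_div_assoc, pow_two (_ + _), pow_two (nq (G 0) + Real.exp (2 * B 0))] 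
    rw [← pow_two (nq (G 0) + Real.exp (2 * B 0))]
    exact h2

theorem LSE_ineq (n : ℕ) (a c : Fin n → ℂ) (E b1 b2 : ℝ) (hE : 0 < E) :
    ((∑ i, 2 * ((a i).re * (c i * 1).re + (a i).im * (c i * 1).im)) + E * (2 * b1)) ^ 2 +
      ((∑ i, 2 * ((a i).re * (c i * Complex.I).re + (a i).im * (c i * Complex.I).im)) + E * (2 * b2)) ^ 2 ≤
    4 * (((∑ i, Complex.normSq (c i)) + E * (b1 ^ 2 + b2 ^ 2)) * ((∑ i, Complex.normSq (a i)) + E)) := by
  set S : ℂ := ∑ i, (starRingEnd ℂ (a i)) * c i with hS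
  have h1 : (∑ i, 2 * ((a i).re * (c i * 1).re + (a i).im * (c i * 1).im)) = 2 * S.re := by
    rw [hS, Complex.re_sum, Finset.mul_sum]
    apply Finset.sum_congr rfl
    intro i _
    simp
  have h2 : (∑ i, 2 * ((a i).re * (c i * Complex.I).re + (a i).im * (c i * Complex.I).im)) = -(2 * S.im) := by
    rw [hS, Complex.im_sum, Finset.mul_sum, ← Finset.sum_neg_distrib]
    apply Finset.sum_congr rfl
    intro i _
    simp
    ring
  rw [h1, h2]
  set p : ℝ := ∑ i, Complex.normSq (a i) with hp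
  set q : ℝ := ∑ i, Complex.normSq (c i) with hq
  have hp0 : 0 ≤ p := Finset.sum_nonneg fun i _ => Complex.normSq_nonneg _
  have hq0 : 0 ≤ q := Finset.sum_nonneg fun i _ => Complex.normSq_nonneg _
  have h3 : S.re ^ 2 + S.im ^ 2 ≤ p * q := by
    have h4 : S.re ^ 2 + S.im ^ 2 = ‖S‖ ^ 2 := by
      rw [← Complex.normSq_eq_norm_sq, Complex.normSq_apply]
      ring
    rw [h4]
    have h5 : ‖S‖ ≤ ∑ i, ‖a i‖ * ‖c i‖ := by
      rw [hS]
      refine (norm_sum_le _ _).trans (le_of_eq ?_)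
      apply Finset.sum_congr rfl
      intro i _
      rw [norm_mul, RCLike.norm_conj]
    have h6 := Finset.sum_mul_sq_le_sq_mul_sq Finset.univ (fun i => ‖a i‖) (fun i => ‖c i‖)
    have h7 : ‖S‖ ^ 2 ≤ (∑ i, ‖a i‖ * ‖c i‖) ^ 2 := pow_le_pow_left₀ (norm_nonneg _) h5 2
    have h8 : p = ∑ i, ‖a i‖ ^ 2 := by
      rw [hp]
      exact Finset.sum_congr rfl fun i _ => Complex.normSq_eq_norm_sq _
    have h9 : q = ∑ i, ‖c i‖ ^ 2 := by
      rw [hq]
      exact Finset.sum_congr rfl fun i _ => Complex.normSq_eq_norm_sq _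
    rw [h8, h9]
    exact h7.trans h6
  have h10 : 2 * (S.re * b1 - S.im * b2) ≤ q + p * (b1 ^ 2 + b2 ^ 2) := by
    by_cases hp1 : p = 0
    · have h11 : S.re ^ 2 + S.im ^ 2 ≤ 0 := by rw [hp1] at h3; simpa using h3
      have h12 : S.re = 0 := by nlinarith [sq_nonneg S.re, sq_nonneg S.im]
      have h13 : S.im = 0 := by nlinarith [sq_nonneg S.re, sq_nonneg S.im]
      rw [h12, h13, hp1]
      linarith
    · have hp2 : 0 < p := lt_of_le_of_ne hp0 (Ne.symm hp1)
      have h14 : p * (2 * (S.re * b1 - S.im * b2)) ≤ p * (q + p * (b1 ^ 2 + b2 ^ 2)) := by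
        nlinarith [sq_nonneg (S.re - p * b1), sq_nonneg (S.im + p * b2)]
      exact le_of_mul_le_mul_left h14 hp2
  nlinarith [mul_le_mul_of_nonneg_left h10 hE.le]

theorem LSE : LSE_stmt := by
  intro n G B Ω hΩ h0 hG hB hlap
  have hd1 := LSE_dir n G B Ω hΩ h0 hG hB 1
  have hd2 := LSE_dir n G B Ω hΩ h0 hG hB Complex.I
  unfold lap at hlap ⊢
  rw [hd1, hd2]
  have hnq : 0 ≤ nq (G 0) := Finset.sum_nonneg fun i _ => Complex.normSq_nonneg _
  have hE : 0 < Real.exp (2 * B 0) := Real.exp_pos _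
  set E : ℝ := Real.exp (2 * B 0) with hEdef
  have hN : 0 < nq (G 0) + E := by linarith
  set b1 : ℝ := fderiv ℝ B 0 1 with hb1
  set b2 : ℝ := fderiv ℝ B 0 Complex.I with hb2
  set B1 : ℝ := iteratedFDeriv ℝ 2 B 0 ![1, 1] with hB1
  set B2 : ℝ := iteratedFDeriv ℝ 2 B 0 ![Complex.I, Complex.I] with hB2
  have hB12 : 0 ≤ B1 + B2 := by linarith
  have hineq := LSE_ineq n (fun i => G 0 i) (fun i => deriv (fun t => G t i) 0) E b1 b2 hE
  have hsum : (∑ i, 2 * (Complex.normSq (deriv (fun t => G t i) 0 * 1) +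
          (G 0 i).re * (deriv (deriv (fun t => G t i)) 0 * 1 * 1).re +
          (G 0 i).im * (deriv (deriv (fun t => G t i)) 0 * 1 * 1).im)) +
      (∑ i, 2 * (Complex.normSq (deriv (fun t => G t i) 0 * Complex.I) +
          (G 0 i).re * (deriv (deriv (fun t => G t i)) 0 * Complex.I * Complex.I).re +
          (G 0 i).im * (deriv (deriv (fun t => G t i)) 0 * Complex.I * Complex.I).im)) =
      4 * ∑ i, Complex.normSq (deriv (fun t => G t i) 0) := by
    rw [← Finset.sum_add_distrib, Finset.mul_sum]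
    apply Finset.sum_congr rfl
    intro i _
    have h1 : deriv (deriv (fun t => G t i)) 0 * Complex.I * Complex.I = -deriv (deriv (fun t => G t i)) 0 := by
      rw [mul_assoc, Complex.I_mul_I]
      ring
    rw [h1, Complex.normSq_mul _ Complex.I, Complex.normSq_I]
    simp only [mul_one, Complex.neg_re, Complex.neg_im]
    ring
  have hfin : ∀ X1 X2 Y1 Y2 N : ℝ, 0 < N → Y1 ^ 2 + Y2 ^ 2 ≤ (X1 + X2) * N →
      0 ≤ 1 / 4 * (1 / 2 * (X1 * N - Y1 ^ 2) / N ^ 2 + 1 / 2 * (X2 * N - Y2 ^ 2) / N ^ 2) := by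
    intro X1 X2 Y1 Y2 N hN h
    have h1 : 1 / 4 * (1 / 2 * (X1 * N - Y1 ^ 2) / N ^ 2 + 1 / 2 * (X2 * N - Y2 ^ 2) / N ^ 2) =
      (1 / 8) * (((X1 + X2) * N - (Y1 ^ 2 + Y2 ^ 2)) / N ^ 2) := by
      field_simp
      ring
    rw [h1]
    apply mul_nonneg (by norm_num)
    apply div_nonneg (by linarith) (by positivity)
  apply hfin _ _ _ _ _ hN
  have h5 : (((∑ i, 2 * (Complex.normSq (deriv (fun t => G t i) 0 * 1) +
          (G 0 i).re * (deriv (deriv (fun t => G t i)) 0 * 1 * 1).re +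
          (G 0 i).im * (deriv (deriv (fun t => G t i)) 0 * 1 * 1).im)) + E * (4 * b1 ^ 2 + 2 * B1)) +
      ((∑ i, 2 * (Complex.normSq (deriv (fun t => G t i) 0 * Complex.I) +
          (G 0 i).re * (deriv (deriv (fun t => G t i)) 0 * Complex.I * Complex.I).re +
          (G 0 i).im * (deriv (deriv (fun t => G t i)) 0 * Complex.I * Complex.I).im)) +
          E * (4 * b2 ^ 2 + 2 * B2))) =
      4 * ((∑ i, Complex.normSq (deriv (fun t => G t i) 0)) + E * (b1 ^ 2 + b2 ^ 2)) + 2 * E * (B1 + B2) := by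
    linear_combination hsum
  rw [h5]
  refine hineq.trans ?_
  have h6 : (∑ i, Complex.normSq (G 0 i)) = nq (G 0) := rfl
  rw [h6]
  have h7 : 0 ≤ 2 * E * (B1 + B2) * (nq (G 0) + E) := by positivity
  nlinarith [h7]

end Pool.Agent.P2
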